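import Pool.Agent.H68.CapPhi

open scoped ENNReal ContDiff Pointwise RealInnerProductSpace Topology
open Filter MeasureTheory Metric

namespace Pool.Agent.H68.Cap

variable {n : ℕ}

/-- locally uniform limit of symplectomorphisms -/
def IsApprox (g : E n ≃ₜ E n) : Prop :=
  ∀ K : Set (E n), IsCompact K → ∀ δ : ℝ, 0 < δ →
    ∃ ψ : E n ≃ₜ E n, IsSymplectomorphism ψ ∧ ∀ z ∈ K, dist (ψ z) (g z) < δ

lemma IsSymplectomorphism.isApprox {g : E n ≃ₜ E n} (hg : IsSymplectomorphism g) : IsApprox g :=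
  fun _ _ _ hδ => ⟨g, hg, fun _ _ => by rw [dist_self]; exact hδ⟩

lemma IsUniformLimitOfSymplectomorphisms.isApprox {g : E n ≃ₜ E n}
    (hg : IsUniformLimitOfSymplectomorphisms g) : IsApprox g := by
  intro K _ δ hδ
  obtain ⟨ψ, h1, h2⟩ := hg δ hδ
  exact ⟨ψ, h1, fun z _ => h2 z⟩

lemma IsApprox.trans {f g : E n ≃ₜ E n} (hf : IsApprox f) (hg : IsApprox g) :
    IsApprox (f.trans g) := by
  intro K hK δ hδ
  have hK1 : IsCompact (f '' K) := hK.image f.continuous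
  have hK' : IsCompact (cthickening 1 (f '' K)) := hK1.cthickening
  have huc : UniformContinuousOn g (cthickening 1 (f '' K)) :=
    hK'.uniformContinuousOn_of_continuous g.continuous.continuousOn
  obtain ⟨η, hη, hη'⟩ := Metric.uniformContinuousOn_iff.1 huc (δ / 2) (half_pos hδ)
  obtain ⟨ψf, hf1, hf2⟩ := hf K hK (min η 1) (lt_min hη one_pos)
  obtain ⟨ψg, hg1, hg2⟩ := hg _ hK' (δ / 2) (half_pos hδ)
  refine ⟨ψf.trans ψg, hf1.trans hg1, fun z hz => ?_⟩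
  have h1 : f z ∈ cthickening 1 (f '' K) := self_subset_cthickening _ (Set.mem_image_of_mem f hz)
  have h2 : ψf z ∈ cthickening 1 (f '' K) :=
    mem_cthickening_of_dist_le _ (f z) _ _ (Set.mem_image_of_mem f hz)
      ((hf2 z hz).le.trans (min_le_right _ _))
  have h3 := hη' _ h2 _ h1 ((hf2 z hz).trans_le (min_le_left _ _))
  have h4 := hg2 _ h2
  calc dist (ψg (ψf z)) (g (f z)) ≤ dist (ψg (ψf z)) (g (ψf z)) + dist (g (ψf z)) (g (f z)) :=
        dist_triangle _ _ _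
    _ < δ / 2 + δ / 2 := add_lt_add h4 h3
    _ = δ := add_halves δ

lemma IsApprox.zoom {f : E n ≃ₜ E n} (hf : IsApprox f) {μ : ℝ} (hμ : μ ≠ 0) :
    IsApprox (zoom μ hμ f) := by
  intro K hK δ hδ
  obtain ⟨ψ, h1, h2⟩ := hf (μ • K) (hK.smul μ) (|μ| * δ) (by positivity)
  refine ⟨Cap.zoom μ hμ ψ, isSymp_zoom h1 μ hμ, fun z hz => ?_⟩
  rw [zoom_apply, zoom_apply, dist_smul₀, norm_inv, Real.norm_eq_abs]
  have h3 := h2 _ (Set.smul_mem_smul_set hz)
  rw [inv_mul_lt_iff₀ (by positivity)]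
  exact h3

lemma IsApprox.zoom_inv {f : E n ≃ₜ E n} {μ : ℝ} (hμ : μ ≠ 0) (hf : IsApprox f.symm) :
    IsApprox (Cap.zoom μ hμ f).symm := by
  have h := hf.zoom hμ
  rwa [← zoom_symm] at h

lemma IsApprox.volume_le {g : E n ≃ₜ E n} (hg : IsApprox g) {K : Set (E n)} (hK : IsCompact K) :
    volume K ≤ volume (g '' K) := by
  have h1 : Tendsto (fun r => volume (cthickening r (g '' K))) (𝓝 0) (𝓝 (volume (g '' K))) :=
    tendsto_measure_cthickening_of_isCompact (hK.image g.continuous)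
  have h2 : Tendsto (fun r => volume (cthickening r (g '' K))) (𝓝[>] 0) (𝓝 (volume (g '' K))) :=
    h1.mono_left nhdsWithin_le_nhds
  refine ge_of_tendsto h2 ?_
  filter_upwards [self_mem_nhdsWithin] with δ hδ
  obtain ⟨ψ, h3, h4⟩ := hg K hK δ hδ
  rw [← h3.volume_image hK.measurableSet]
  refine measure_mono ?_
  rintro x ⟨z, hz, rfl⟩
  exact mem_cthickening_of_dist_le _ (g z) _ _ (Set.mem_image_of_mem g hz) (h4 z hz).le

lemma volume_image_eq {g : E n ≃ₜ E n} (hg : IsApprox g) (hg' : IsApprox g.symm)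
    {K : Set (E n)} (hK : IsCompact K) : volume (g '' K) = volume K := by
  refine le_antisymm ?_ (hg.volume_le hK)
  have h := hg'.volume_le (hK.image g.continuous)
  have h2 : g.symm '' (g '' K) = K := by
    rw [← Set.image_comp]; simp
  rwa [h2] at h

lemma mem_cylinder_iff [NeZero n] {z : E n} {R : ℝ} (hR : 0 ≤ R) :
    z ∈ cylinder n R ↔ ‖(⟨z (0, 0), z (0, 1)⟩ : ℂ)‖ ≤ R := by
  have h1 : ‖(⟨z (0, 0), z (0, 1)⟩ : ℂ)‖ ^ 2 = z (0, 0) ^ 2 + z (0, 1) ^ 2 := by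
    rw [Complex.sq_norm, Complex.normSq_mk]; ring
  constructor
  · intro h
    have h2 : z (0, 0) ^ 2 + z (0, 1) ^ 2 ≤ R ^ 2 := h
    rw [← h1] at h2
    exact (sq_le_sq₀ (norm_nonneg _) hR).1 h2
  · intro h
    show z (0, 0) ^ 2 + z (0, 1) ^ 2 ≤ R ^ 2
    rw [← h1]
    gcongr

lemma mem_cylinder_of_dist [NeZero n] {z w : E n} {R δ : ℝ} (hR : 0 ≤ R) (hδ : 0 ≤ δ)
    (hw : w ∈ cylinder n R) (h : dist z w ≤ δ) : z ∈ cylinder n (R + δ) := by
  rw [mem_cylinder_iff hR] at hw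
  rw [mem_cylinder_iff (add_nonneg hR hδ)]
  have h1 : z - w ∈ cylinder n δ := by
    refine closedBall_subset_cylinder hδ ?_
    rw [mem_closedBall, dist_zero_right, ← dist_eq_norm]; exact h
  rw [mem_cylinder_iff hδ] at h1
  have h2 : (⟨z (0, 0), z (0, 1)⟩ : ℂ) = ⟨w (0, 0), w (0, 1)⟩ + ⟨(z - w) (0, 0), (z - w) (0, 1)⟩ := by
    have h3 : (z - w) (0, 0) = z (0, 0) - w (0, 0) := rfl
    have h4 : (z - w) (0, 1) = z (0, 1) - w (0, 1) := rfl
    rw [h3, h4]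
    apply Complex.ext
    · rw [Complex.add_re]; ring
    · rw [Complex.add_im]; ring
  rw [h2]
  exact (norm_add_le _ _).trans (add_le_add hw h1)

lemma IsApprox.nonSqueezing [NeZero n] (hn : NonSqueezing n) {g : E n ≃ₜ E n} (hg : IsApprox g)
    {R : ℝ} (hR : 0 < R) (h : g '' (closedBall 0 1) ⊆ cylinder n R) : 1 ≤ R := by
  refine le_of_forall_pos_le_add fun δ hδ => ?_
  obtain ⟨ψ, h1, h2⟩ := hg _ (isCompact_closedBall 0 1) δ hδ
  refine hn ψ h1 (R + δ) (by positivity) ?_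
  rintro x ⟨z, hz, rfl⟩
  exact mem_cylinder_of_dist hR.le hδ.le (h (Set.mem_image_of_mem g hz)) (h2 z hz).le

/-! ### The generated class of homeomorphisms -/

/-- homeomorphisms generated by symplectomorphisms and small zooms of `Φ` and its inverse -/
inductive Gen (Φ : E n ≃ₜ E n) : (E n ≃ₜ E n) → Prop
  | symp (ψ : E n ≃ₜ E n) : IsSymplectomorphism ψ → Gen Φ ψ
  | zoom (μ : ℝ) (hμ : μ ≠ 0) : 0 < μ → μ < 1 → Gen Φ (Cap.zoom μ hμ Φ)
  | zoomSymm (μ : ℝ) (hμ : μ ≠ 0) : 0 < μ → μ < 1 → Gen Φ (Cap.zoom μ hμ Φ.symm)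
  | comp (f g : E n ≃ₜ E n) : Gen Φ f → Gen Φ g → Gen Φ (f.trans g)

lemma Gen.isApprox {Φ : E n ≃ₜ E n} (h1 : IsApprox Φ) (h2 : IsApprox Φ.symm) {g : E n ≃ₜ E n}
    (hg : Gen Φ g) : IsApprox g ∧ IsApprox g.symm := by
  have h3 : IsApprox Φ.symm.symm := h1
  induction hg with
  | symp ψ hψ => exact ⟨hψ.isApprox, hψ.symm.isApprox⟩
  | zoom μ hμ _ _ => exact ⟨h1.zoom hμ, IsApprox.zoom_inv hμ h2⟩
  | zoomSymm μ hμ _ _ => exact ⟨h2.zoom hμ, IsApprox.zoom_inv hμ h3⟩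
  | comp f g _ _ ihf ihg =>
    have h4 : (f.trans g).symm = g.symm.trans f.symm := Homeomorph.ext fun _ => rfl
    rw [h4]
    exact ⟨ihf.1.trans ihg.1, ihg.2.trans ihf.2⟩

end Pool.Agent.H68.Cap
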