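import Pool.Agent.H68.CapSymp

open scoped ENNReal ContDiff Pointwise RealInnerProductSpace

namespace Pool.Agent.H68.Cap

variable {n : ℕ}

/-- the capacity generated by a class of model sets -/
noncomputable def classCap (C : Set (Set (E n))) (A : Set (E n)) : ℝ≥0∞ :=
  ⨆ (l : ℝ) (T : Set (E n)) (_ : 0 < l ∧ T ∈ C ∧ l • T ⊆ A), ENNReal.ofReal (Real.pi * l ^ 2)

lemma le_classCap {C : Set (Set (E n))} {A : Set (E n)} {l : ℝ} {T : Set (E n)}
    (hl : 0 < l) (hT : T ∈ C) (h : l • T ⊆ A) :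
    ENNReal.ofReal (Real.pi * l ^ 2) ≤ classCap C A :=
  le_iSup_of_le l (le_iSup_of_le T (le_iSup_of_le ⟨hl, hT, h⟩ le_rfl))

lemma classCap_le {C : Set (Set (E n))} {A : Set (E n)} {b : ℝ≥0∞}
    (h : ∀ (l : ℝ) (T : Set (E n)), 0 < l → T ∈ C → l • T ⊆ A →
      ENNReal.ofReal (Real.pi * l ^ 2) ≤ b) : classCap C A ≤ b :=
  iSup_le fun l => iSup_le fun T => iSup_le fun ⟨h1, h2, h3⟩ => h l T h1 h2 h3

lemma classCap_mono_set {C : Set (Set (E n))} {A B : Set (E n)} (h : A ⊆ B) :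
    classCap C A ≤ classCap C B :=
  classCap_le fun _ _ hl hT hs => le_classCap hl hT (hs.trans h)

lemma classCap_mono {C : Set (Set (E n))}
    (h1 : ∀ T ∈ C, ∀ ψ : E n ≃ₜ E n, IsSymplectomorphism ψ → ψ '' T ∈ C)
    (A B : Set (E n)) (ψ : E n ≃ₜ E n) (hψ : IsSymplectomorphism ψ) (h : ψ '' A ⊆ B) :
    classCap C A ≤ classCap C B := by
  refine classCap_le fun l T hl hT hs => ?_
  refine le_classCap hl (h1 T hT (zoom l hl.ne' ψ) (isSymp_zoom hψ l hl.ne')) ?_
  refine Set.Subset.trans ?_ ((Set.image_mono hs).trans h)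
  rintro x ⟨y, ⟨t, ht, rfl⟩, rfl⟩
  refine ⟨l • t, Set.smul_mem_smul_set ht, ?_⟩
  simp [smul_smul, hl.ne']

lemma closedBall_subset_cylinder [NeZero n] {r : ℝ} (hr : 0 ≤ r) :
    Metric.closedBall (0 : E n) r ⊆ cylinder n r := by
  intro z hz
  have h1 : ‖z‖ ≤ r := by simpa using hz
  have h2 : ‖z‖ ^ 2 = ∑ j : Fin n, (z (j, 0) ^ 2 + z (j, 1) ^ 2) := by
    rw [← real_inner_self_eq_norm_sq, inner_eq_sum]
    refine Finset.sum_congr rfl fun j _ => by ring
  have h3 : z (0, 0) ^ 2 + z (0, 1) ^ 2 ≤ ‖z‖ ^ 2 := by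
    rw [h2]
    exact Finset.single_le_sum (f := fun j : Fin n => z (j, 0) ^ 2 + z (j, 1) ^ 2)
      (fun j _ => by positivity) (Finset.mem_univ 0)
  show z (0, 0) ^ 2 + z (0, 1) ^ 2 ≤ r ^ 2
  nlinarith [norm_nonneg z]

lemma classCap_neg {C : Set (Set (E n))}
    (h1 : ∀ T ∈ C, ∀ ψ : E n ≃ₜ E n, IsSymplectomorphism ψ → ψ '' T ∈ C) (A : Set (E n)) :
    classCap C ((-1 : ℝ) • A) = classCap C A := by
  refine le_antisymm ?_ ?_
  · refine classCap_mono h1 _ _ (Homeomorph.neg (E n)) isSymp_neg ?_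
    rintro x ⟨y, ⟨z, hz, rfl⟩, rfl⟩
    simpa using hz
  · refine classCap_mono h1 _ _ (Homeomorph.neg (E n)) isSymp_neg ?_
    rintro x ⟨y, hy, rfl⟩
    exact ⟨y, hy, by simp⟩

lemma classCap_conf_pos {C : Set (Set (E n))} (a : ℝ) (ha : 0 < a) (A : Set (E n)) :
    classCap C (a • A) = ENNReal.ofReal (a ^ 2) * classCap C A := by
  have key : ∀ (a : ℝ), 0 < a → ∀ A : Set (E n),
      ENNReal.ofReal (a ^ 2) * classCap C A ≤ classCap C (a • A) := by
    intro a ha A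
    unfold classCap
    simp only [ENNReal.mul_iSup]
    refine iSup_le fun l => iSup_le fun T => iSup_le fun ⟨h1, h2, h3⟩ => ?_
    rw [← ENNReal.ofReal_mul (by positivity)]
    have : a ^ 2 * (Real.pi * l ^ 2) = Real.pi * (a * l) ^ 2 := by ring
    rw [this]
    refine le_classCap (mul_pos ha h1) h2 ?_
    rw [← smul_smul]
    exact Set.smul_set_mono h3
  refine le_antisymm ?_ (key a ha A)
  have h := key a⁻¹ (inv_pos.2 ha) (a • A)
  rw [smul_smul, inv_mul_cancel₀ ha.ne', one_smul] at h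
  calc classCap C (a • A) = ENNReal.ofReal (a ^ 2) * (ENNReal.ofReal (a⁻¹ ^ 2) * classCap C (a • A)) := by
        rw [← mul_assoc, ← ENNReal.ofReal_mul (by positivity), ← mul_pow, mul_inv_cancel₀ ha.ne']
        simp
    _ ≤ _ := by gcongr

lemma classCap_isNormalised [NeZero n] {C : Set (Set (E n))}
    (h1 : ∀ T ∈ C, ∀ ψ : E n ≃ₜ E n, IsSymplectomorphism ψ → ψ '' T ∈ C)
    (h2 : Metric.closedBall (0 : E n) 1 ∈ C)
    (h3 : ∀ T ∈ C, ∀ l R : ℝ, 0 < l → 0 < R → l • T ⊆ cylinder n R → l ≤ R) :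
    IsNormalisedCapacity (classCap C) := by
  have hball : ∀ r : ℝ, 0 < r →
      ENNReal.ofReal (Real.pi * r ^ 2) ≤ classCap C (Metric.closedBall (0 : E n) r) := by
    intro r hr
    refine le_classCap hr h2 ?_
    rw [smul_unitClosedBall_of_nonneg hr.le]
  have hcyl : ∀ r : ℝ, 0 < r →
      classCap C (cylinder n r) ≤ ENNReal.ofReal (Real.pi * r ^ 2) := by
    intro r hr
    refine classCap_le fun l T hl hT hs => ?_
    have := h3 T hT l r hl hr hs
    gcongr
  have hsub : ∀ r : ℝ, 0 < r →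
      classCap C (Metric.closedBall (0 : E n) r) ≤ classCap C (cylinder n r) :=
    fun r hr => classCap_mono_set (closedBall_subset_cylinder hr.le)
  refine ⟨classCap_mono h1, ?_, ?_, ?_⟩
  · intro a A ha
    rcases lt_or_gt_of_ne ha with h | h
    · have h4 : a • A = (-a) • ((-1 : ℝ) • A) := by rw [smul_smul]; simp
      rw [h4, classCap_conf_pos _ (by linarith), classCap_neg h1]
      simp
    · exact classCap_conf_pos a h A
  · intro r hr
    exact le_antisymm ((hsub r hr).trans (hcyl r hr)) (hball r hr)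
  · intro r hr
    exact le_antisymm (hcyl r hr) ((hball r hr).trans (hsub r hr))

/-! ### Nonsqueezing -/

/-- the nonsqueezing property of dimension `2n` -/
def NonSqueezing (n : ℕ) [NeZero n] : Prop :=
  ∀ (ψ : E n ≃ₜ E n), IsSymplectomorphism ψ → ∀ R : ℝ, 0 < R →
    ψ '' (Metric.closedBall 0 1) ⊆ cylinder n R → 1 ≤ R

lemma nonSqueezing_of_capacity [NeZero n] {c : Set (E n) → ℝ≥0∞} (hc : IsNormalisedCapacity c) :
    NonSqueezing n := by
  intro ψ hψ R hR h
  have h1 := hc.mono _ _ ψ hψ h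
  rw [hc.ball 1 one_pos, hc.cyl R hR] at h1
  have h2 : Real.pi * 1 ^ 2 ≤ Real.pi * R ^ 2 := by
    rwa [ENNReal.ofReal_le_ofReal_iff (by positivity)] at h1
  have h3 : (1:ℝ) ^ 2 ≤ R ^ 2 := le_of_mul_le_mul_left h2 Real.pi_pos
  exact (sq_le_sq₀ zero_le_one hR.le).1 h3

open MeasureTheory in
lemma nonSqueezing_one : NonSqueezing 1 := by
  intro ψ hψ R hR h
  have h1 : cylinder 1 R = Metric.closedBall (0 : E 1) R := by
    refine Set.Subset.antisymm ?_ (closedBall_subset_cylinder hR.le)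
    intro z hz
    have h2 : ‖z‖ ^ 2 = ∑ j : Fin 1, (z (j, 0) ^ 2 + z (j, 1) ^ 2) := by
      rw [← real_inner_self_eq_norm_sq, inner_eq_sum]
      refine Finset.sum_congr rfl fun j _ => by ring
    have h3 : ‖z‖ ^ 2 = z (0, 0) ^ 2 + z (0, 1) ^ 2 := by rw [h2]; simp
    have h4 : z (0, 0) ^ 2 + z (0, 1) ^ 2 ≤ R ^ 2 := hz
    rw [← h3] at h4
    have := (sq_le_sq₀ (norm_nonneg z) hR.le).1 h4
    simpa using this
  rw [h1] at h
  have h2 := measure_mono (μ := volume) h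
  rw [hψ.volume_image Metric.isClosed_closedBall.measurableSet,
    Measure.addHaar_closedBall _ _ zero_le_one, Measure.addHaar_closedBall _ _ hR.le] at h2
  have h4 : volume (Metric.ball (0 : E 1) 1) ≠ 0 := (Metric.measure_ball_pos _ _ one_pos).ne'
  have h5 : volume (Metric.ball (0 : E 1) 1) ≠ ⊤ := measure_ball_lt_top.ne
  rw [ENNReal.mul_le_mul_iff_left h4 h5] at h2
  have h6 := (ENNReal.ofReal_le_ofReal_iff (by positivity)).1 h2
  rw [one_pow] at h6
  by_contra hlt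
  push Not at hlt
  have h7 : R ^ Module.finrank ℝ (E 1) < 1 := by
    refine pow_lt_one₀ hR.le hlt ?_
    simp
  linarith

end Pool.Agent.H68.Cap
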