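import Mathlib

/-!
Definitions for symplectic capacities on `R^{2n}`.
-/

open scoped ENNReal ContDiff Pointwise

namespace Pool.Agent.H68.Cap

/-- The space `R^{2n}`: the coordinate `(j, 0)` is `x_j`, the coordinate `(j, 1)` is `y_j`. -/
abbrev E (n : ℕ) : Type := EuclideanSpace ℝ (Fin n × Fin 2)

/-- The standard symplectic form `sum_j dx_j dy_j` on `R^{2n}`. -/
def omega {n : ℕ} (u v : E n) : ℝ :=
  ∑ j : Fin n, (u (j, 0) * v (j, 1) - u (j, 1) * v (j, 0))

/-- A symplectomorphism of `R^{2n}`: a bijection, smooth in both directions, whose derivative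
preserves the standard symplectic form at every point. -/
structure IsSymplectomorphism {n : ℕ} (ψ : E n ≃ₜ E n) : Prop where
  contDiff : ContDiff ℝ ∞ ψ
  contDiff_symm : ContDiff ℝ ∞ ψ.symm
  omega_fderiv : ∀ z u v : E n, omega (fderiv ℝ ψ z u) (fderiv ℝ ψ z v) = omega u v

/-- The closed cylinder `Z(r) = B^2(r) x R^{2n-2}`. -/
def cylinder (n : ℕ) [NeZero n] (r : ℝ) : Set (E n) :=
  {z | z (0, 0) ^ 2 + z (0, 1) ^ 2 ≤ r ^ 2}

/-- A normalised symplectic capacity on `R^{2n}`, defined on all subsets: monotone under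
symplectomorphisms of `R^{2n}`, conformal, and equal to `π r ^ 2` on the closed ball and on the
cylinder of radius `r`. -/
structure IsNormalisedCapacity {n : ℕ} [NeZero n] (c : Set (E n) → ℝ≥0∞) : Prop where
  mono : ∀ (A B : Set (E n)) (ψ : E n ≃ₜ E n), IsSymplectomorphism ψ → ψ '' A ⊆ B → c A ≤ c B
  conf : ∀ (a : ℝ) (A : Set (E n)), a ≠ 0 → c (a • A) = ENNReal.ofReal (a ^ 2) * c A
  ball : ∀ r : ℝ, 0 < r → c (Metric.closedBall 0 r) = ENNReal.ofReal (Real.pi * r ^ 2)
  cyl : ∀ r : ℝ, 0 < r → c (cylinder n r) = ENNReal.ofReal (Real.pi * r ^ 2)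

/-- The homeomorphism `φ` preserves the `c`-capacity of small open sets: every point has a
neighbourhood `U` such that `c (φ (V)) = c (V)` for every open `V` contained in `U`. -/
def PreservesSmallOpenSets {n : ℕ} (c : Set (E n) → ℝ≥0∞) (φ : E n ≃ₜ E n) : Prop :=
  ∀ p : E n, ∃ U ∈ nhds p, ∀ V : Set (E n), V ⊆ U → IsOpen V → c (φ '' V) = c V

/-- The homeomorphism `φ` is a uniform limit of symplectomorphisms of `R^{2n}`. -/
def IsUniformLimitOfSymplectomorphisms {n : ℕ} (φ : E n ≃ₜ E n) : Prop :=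
  ∀ ε : ℝ, 0 < ε → ∃ ψ : E n ≃ₜ E n, IsSymplectomorphism ψ ∧ ∀ z : E n, dist (ψ z) (φ z) < ε

end Pool.Agent.H68.Cap
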