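import Pool.Agent.H68.CapTopo

open scoped ENNReal ContDiff Pointwise RealInnerProductSpace Topology
open Filter MeasureTheory Metric Asymptotics

namespace Pool.Agent.H68.Cap

variable {n : ℕ}

/-- the linear map preserves omega -/
def PresOmega (A : E n →L[ℝ] E n) : Prop := ∀ u v, omega (A u) (A v) = omega u v

lemma PresOmega.comp {A B : E n →L[ℝ] E n} (hA : PresOmega A) (hB : PresOmega B) :
    PresOmega (A.comp B) := fun u v => by
  simp only [ContinuousLinearMap.comp_apply]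
  rw [hA, hB]

lemma presOmega_id : PresOmega (ContinuousLinearMap.id ℝ (E n)) := fun _ _ => rfl

lemma omega_zero_left (v : E n) : omega (0 : E n) v = 0 := by
  simp [omega]

lemma PresOmega.injective {A : E n →L[ℝ] E n} (hA : PresOmega A) : Function.Injective A := by
  rw [injective_iff_map_eq_zero]
  intro v hv
  have h := hA v (J n v)
  rw [hv, omega_zero_left, omega_J_right] at h
  exact inner_self_eq_zero.1 h.symm

/-- the inverse of a linear map preserving omega -/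
noncomputable def PresOmega.equiv {A : E n →L[ℝ] E n} (hA : PresOmega A) : E n ≃L[ℝ] E n :=
  (LinearEquiv.ofInjectiveEndo (A : E n →ₗ[ℝ] E n) hA.injective).toContinuousLinearEquiv

lemma PresOmega.equiv_apply {A : E n →L[ℝ] E n} (hA : PresOmega A) (v : E n) :
    hA.equiv v = A v := rfl

lemma abs_omega_le (u v : E n) : |omega u v| ≤ ‖u‖ * ‖v‖ := by
  rw [← inner_J_left]
  have := abs_real_inner_le_norm (J n u) v
  rwa [norm_J] at this

/-- the unit sphere as a subtype -/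
abbrev S (n : ℕ) : Type := sphere (0 : E n) 1

variable (n) in
/-- the property of all generated homeomorphisms -/
def GermProp (β : ℕ → S n) (g : E n → E n) : Prop :=
  ∀ (Ψ : E n → E n) (A : E n →L[ℝ] E n), HasStrictFDerivAt Ψ A 0 → PresOmega A →
    ∃ (Ψ' : E n → E n) (A' : E n →L[ℝ] E n), HasStrictFDerivAt Ψ' A' 0 ∧ PresOmega A' ∧
      ∃ F : Set (S n), IsClosed F ∧ interior F = ∅ ∧ ∀ m, β m ∉ F →
        ∀ᶠ j in atTop, (Nat.unpair j).1 = m → ∀ z : E n, ‖z‖ = rho j → g (Ψ z) = Ψ' z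

lemma IsSymplectomorphism.presOmega {ψ : E n ≃ₜ E n} (hψ : IsSymplectomorphism ψ) (p : E n) :
    PresOmega (fderiv ℝ ψ p) := hψ.omega_fderiv p

lemma IsSymplectomorphism.hasStrict {ψ : E n ≃ₜ E n} (hψ : IsSymplectomorphism ψ) (p : E n) :
    HasStrictFDerivAt ψ (fderiv ℝ ψ p) p :=
  hψ.contDiff.contDiffAt.hasStrictFDerivAt (by simp)

/-- local version: if `g` agrees near `Ψ 0` with a symplectomorphism -/
lemma germ_of_local {β : ℕ → S n} {g : E n → E n} {Ψ : E n → E n} {A : E n →L[ℝ] E n}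
    (hΨ : HasStrictFDerivAt Ψ A 0) (hA : PresOmega A) {ψ : E n ≃ₜ E n}
    (hψ : IsSymplectomorphism ψ) (hg : ∀ᶠ z in 𝓝 (Ψ 0), g z = ψ z) :
    ∃ (Ψ' : E n → E n) (A' : E n →L[ℝ] E n), HasStrictFDerivAt Ψ' A' 0 ∧ PresOmega A' ∧
      ∃ F : Set (S n), IsClosed F ∧ interior F = ∅ ∧ ∀ m, β m ∉ F →
        ∀ᶠ j in atTop, (Nat.unpair j).1 = m → ∀ z : E n, ‖z‖ = rho j → g (Ψ z) = Ψ' z := by
  refine ⟨ψ ∘ Ψ, (fderiv ℝ ψ (Ψ 0)).comp A, (hψ.hasStrict (Ψ 0)).comp 0 hΨ,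
    (hψ.presOmega _).comp hA, ∅, isClosed_empty, interior_empty, fun m _ => ?_⟩
  have h1 : ∀ᶠ z in 𝓝 (0 : E n), g (Ψ z) = ψ (Ψ z) :=
    (hΨ.hasFDerivAt.continuousAt).eventually hg
  obtain ⟨ε, hε, h2⟩ := Metric.eventually_nhds_iff.1 h1
  have h3 : ∀ᶠ j in atTop, rho j < ε := tendsto_rho.eventually_lt_const hε
  filter_upwards [h3] with j hj _ z hz
  exact h2 (by rw [dist_zero_right, hz]; exact hj)

lemma germ_symp {β : ℕ → S n} {ψ : E n ≃ₜ E n} (hψ : IsSymplectomorphism ψ) :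
    GermProp n β ψ := fun _ _ hΨ hA =>
  germ_of_local hΨ hA hψ (Filter.Eventually.of_forall fun _ => rfl)

lemma germ_comp {β : ℕ → S n} {f g : E n → E n} (hf : GermProp n β f) (hg : GermProp n β g) :
    GermProp n β (fun z => g (f z)) := by
  intro Ψ A hΨ hA
  obtain ⟨Ψ₁, A₁, h1, h2, F₁, h3, h4, h5⟩ := hf Ψ A hΨ hA
  obtain ⟨Ψ₂, A₂, h6, h7, F₂, h8, h9, h10⟩ := hg Ψ₁ A₁ h1 h2
  refine ⟨Ψ₂, A₂, h6, h7, F₁ ∪ F₂, h3.union h8, ?_, fun m hm => ?_⟩
  · rw [interior_union_isClosed_of_interior_empty h3 h9, h4]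
  · have hm1 : β m ∉ F₁ := fun h => hm (Or.inl h)
    have hm2 : β m ∉ F₂ := fun h => hm (Or.inr h)
    filter_upwards [h5 m hm1, h10 m hm2] with j hj1 hj2 hj z hz
    rw [hj1 hj z hz, hj2 hj z hz]

/-- the set of bad directions -/
def badDir (μ : ℝ) (A : E n →L[ℝ] E n) : Set (S n) :=
  {b | ∃ s : E n, ‖s‖ = 1 ∧ μ • A s = b}

lemma isClosed_badDir (μ : ℝ) (A : E n →L[ℝ] E n) : IsClosed (badDir μ A) := by
  have h1 : IsCompact ((fun s : E n => μ • A s) '' (sphere (0 : E n) 1)) :=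
    (isCompact_sphere 0 1).image (by fun_prop)
  have h2 : badDir μ A = Subtype.val ⁻¹' ((fun s : E n => μ • A s) '' (sphere (0 : E n) 1)) := by
    ext b
    constructor
    · rintro ⟨s, hs, hb⟩
      exact ⟨s, by simpa using hs, hb⟩
    · rintro ⟨s, hs, hb⟩
      exact ⟨s, by simpa using hs, hb⟩
  rw [h2]
  exact h1.isClosed.preimage continuous_subtype_val

lemma interior_badDir {μ : ℝ} (h0 : 0 < μ) (h1 : μ < 1) {A : E n →L[ℝ] E n}
    (hA : PresOmega A) : interior (badDir μ A) = ∅ := by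
  by_contra hne
  obtain ⟨b₀, hb₀⟩ := Set.nonempty_iff_ne_empty.2 hne
  set B : E n →L[ℝ] E n := (hA.equiv.symm : E n →L[ℝ] E n) with hB
  have hAB : ∀ v, A (B v) = v := fun v => by
    rw [← hA.equiv_apply]; exact hA.equiv.apply_symm_apply v
  have hBA : ∀ v, B (A v) = v := fun v => by
    rw [← hA.equiv_apply v]; exact hA.equiv.symm_apply_apply v
  have hb₀n : ‖(b₀ : E n)‖ = 1 := by simpa using b₀.2
  -- the quadratic form
  have hq : ∀ b : S n, b ∈ badDir μ A → ‖B b‖ = μ := by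
    rintro b ⟨s, hs, hb⟩
    rw [← hb, map_smul, hBA, norm_smul, hs, mul_one, Real.norm_of_nonneg h0.le]
  have hev : ∀ᶠ x in 𝓝 (b₀ : E n), ‖B x‖ ^ 2 = μ ^ 2 * ‖x‖ ^ 2 := by
    have hne0 : ∀ᶠ x in 𝓝 (b₀ : E n), x ≠ 0 := by
      refine isOpen_ne.mem_nhds ?_
      intro h; rw [h, norm_zero] at hb₀n; exact zero_ne_one hb₀n
    have hnm : badDir μ A ∈ 𝓝 b₀ := mem_interior_iff_mem_nhds.1 hb₀
    rw [nhds_subtype_eq_comap, Filter.mem_comap] at hnm
    obtain ⟨t, ht, hts⟩ := hnm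
    have hcont : Tendsto (fun x : E n => ‖x‖⁻¹ • x) (𝓝 (b₀ : E n)) (𝓝 (b₀ : E n)) := by
      have h2 : ContinuousAt (fun x : E n => ‖x‖⁻¹ • x) (b₀ : E n) := by
        refine ContinuousAt.smul (ContinuousAt.inv₀ continuous_norm.continuousAt ?_) continuousAt_id
        rw [hb₀n]; exact one_ne_zero
      have h3 := h2.tendsto
      simp only [hb₀n, inv_one, one_smul] at h3
      exact h3
    filter_upwards [hne0, hcont ht] with x hx hxt
    have hxn : ‖x‖ ≠ 0 := norm_ne_zero_iff.2 hx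
    have hmem : ‖x‖⁻¹ • x ∈ sphere (0 : E n) 1 := by
      rw [mem_sphere_zero_iff_norm, norm_smul, norm_inv, norm_norm, inv_mul_cancel₀ hxn]
    have h4 := hq ⟨‖x‖⁻¹ • x, hmem⟩ (hts hxt)
    simp only [map_smul, norm_smul, norm_inv, norm_norm] at h4
    have h5 : ‖B x‖ = μ * ‖x‖ := by
      field_simp at h4
      linarith
    rw [h5]; ring
  have hall : ∀ v : E n, ‖B v‖ ^ 2 = μ ^ 2 * ‖v‖ ^ 2 := by
    intro v
    have hc1 : Tendsto (fun t : ℝ => (b₀ : E n) + t • v) (𝓝 0) (𝓝 (b₀ : E n)) := by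
      have : Tendsto (fun t : ℝ => (b₀ : E n) + t • v) (𝓝 0) (𝓝 ((b₀ : E n) + (0 : ℝ) • v)) :=
        Continuous.tendsto (by fun_prop) 0
      simpa using this
    have hc2 : Tendsto (fun t : ℝ => (b₀ : E n) - t • v) (𝓝 0) (𝓝 (b₀ : E n)) := by
      have : Tendsto (fun t : ℝ => (b₀ : E n) - t • v) (𝓝 0) (𝓝 ((b₀ : E n) - (0 : ℝ) • v)) :=
        Continuous.tendsto (by fun_prop) 0
      simpa using this
    have h2 : ∀ᶠ t : ℝ in 𝓝[>] 0, ‖B ((b₀ : E n) + t • v)‖ ^ 2 = μ ^ 2 * ‖(b₀ : E n) + t • v‖ ^ 2 ∧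
        ‖B ((b₀ : E n) - t • v)‖ ^ 2 = μ ^ 2 * ‖(b₀ : E n) - t • v‖ ^ 2 ∧ 0 < t := by
      filter_upwards [nhdsWithin_le_nhds (hc1 hev), nhdsWithin_le_nhds (hc2 hev),
        self_mem_nhdsWithin] with t h3 h4 h5
      exact ⟨h3, h4, h5⟩
    obtain ⟨t, h3, h4, h5⟩ := h2.exists
    have h6 := hev.self_of_nhds
    have e1 : ‖B ((b₀ : E n) + t • v)‖ ^ 2 + ‖B ((b₀ : E n) - t • v)‖ ^ 2
        = 2 * ‖B (b₀ : E n)‖ ^ 2 + 2 * (t ^ 2 * ‖B v‖ ^ 2) := by
      rw [map_add, map_sub, map_smul]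
      have := parallelogram_law_with_norm ℝ (B (b₀ : E n)) (t • B v)
      rw [norm_smul] at this
      have ht : ‖t‖ ^ 2 = t ^ 2 := by rw [Real.norm_eq_abs, sq_abs]
      nlinarith [this, ht]
    have e2 : ‖(b₀ : E n) + t • v‖ ^ 2 + ‖(b₀ : E n) - t • v‖ ^ 2
        = 2 * ‖(b₀ : E n)‖ ^ 2 + 2 * (t ^ 2 * ‖v‖ ^ 2) := by
      have := parallelogram_law_with_norm ℝ (b₀ : E n) (t • v)
      rw [norm_smul] at this
      have ht : ‖t‖ ^ 2 = t ^ 2 := by rw [Real.norm_eq_abs, sq_abs]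
      nlinarith [this, ht]
    have e3 : t ^ 2 * ‖B v‖ ^ 2 = t ^ 2 * (μ ^ 2 * ‖v‖ ^ 2) := by
      nlinarith [e1, e2, h3, h4, h6]
    exact mul_left_cancel₀ (by positivity) e3
  have hnorm : ∀ v : E n, ‖B v‖ = μ * ‖v‖ := by
    intro v
    have h2 := hall v
    rw [← mul_pow] at h2
    exact (sq_eq_sq₀ (norm_nonneg _) (by positivity)).1 h2
  have h2 : omega (B b₀) (B (J n b₀)) = omega (b₀ : E n) (J n b₀) := by
    rw [← hA, hAB, hAB]
  have h3 := abs_omega_le (B b₀) (B (J n b₀))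
  rw [h2, hnorm, hnorm, norm_J, omega_J_right, real_inner_self_eq_norm_sq, hb₀n] at h3
  simp at h3
  nlinarith

end Pool.Agent.H68.Cap
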