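import Pool.Agent.H68.CapGerm

open scoped ENNReal ContDiff Pointwise RealInnerProductSpace Topology
open Filter MeasureTheory Metric Asymptotics

namespace Pool.Agent.H68.Cap

variable {n : ℕ}

/-- the sequence of directions: every `β m` occurs infinitely often -/
def dirs (β : ℕ → S n) (j : ℕ) : E n := (β (Nat.unpair j).1 : E n)

lemma norm_S (b : S n) : ‖(b : E n)‖ = 1 := mem_sphere_zero_iff_norm.1 b.2

lemma norm_dirs (β : ℕ → S n) (j : ℕ) : ‖dirs β j‖ = 1 := norm_S _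

lemma far_of_estimates {β : ℕ → S n} {m j : ℕ} (hjm : (Nat.unpair j).1 = m) {w : E n}
    {L M d : ℝ} (hlow : L * rho j ≤ ‖w‖) (hupp : ‖w‖ ≤ M * rho j)
    (hdir : 3 / 4 * d * rho j ≤ ‖w - rho j • (β m : E n)‖)
    (hj2 : del j < 3 / 4 * d) (hj3 : 5 / 4 < L * ((j : ℝ) + 3)) (hj4 : M < 3 / 4 * ((j : ℝ) + 2))
    (i : ℕ) : rad i ≤ ‖w - ctr (dirs β) i‖ := by
  have hρ := rho_pos j
  by_contra hcon
  push Not at hcon
  have h2 := norm_of_near (norm_dirs β) hcon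
  rcases lt_trichotomy i j with h3 | h3 | h3
  · obtain ⟨j', rfl⟩ : ∃ j', j = j' + 1 := ⟨j - 1, by omega⟩
    have h4 : rho j' ≤ rho i := rho_strictAnti.antitone (Nat.lt_succ_iff.1 h3)
    have h5 := rho_succ j'
    have h6 : rho j' = ((j' : ℝ) + 3) * rho (j' + 1) := by
      rw [h5]; field_simp
    have h8 : (3 : ℝ) / 4 * ((j' : ℝ) + 3) < M := by
      have h9 : (3 : ℝ) / 4 * ((j' : ℝ) + 3) * rho (j' + 1) < M * rho (j' + 1) := by
        have h7 : (3 : ℝ) / 4 * ((j' : ℝ) + 3) * rho (j' + 1) = 3 / 4 * rho j' := by rw [h6]; ring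
        rw [h7]; linarith [h2.1]
      exact lt_of_mul_lt_mul_right h9 hρ.le
    push_cast at hj4
    linarith
  · subst h3
    have h4 : ctr (dirs β) i = rho i • (β m : E n) := by
      rw [ctr, dirs, hjm]
    rw [h4] at hcon
    have h9 : rad i = del i * rho i := rfl
    rw [h9] at hcon
    have h10 : 3 / 4 * d * rho i < del i * rho i := lt_of_le_of_lt hdir hcon
    have h11 := lt_of_mul_lt_mul_right h10 hρ.le
    linarith
  · have h4 : rho i ≤ rho (j + 1) := rho_strictAnti.antitone (Nat.succ_le_of_lt h3)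
    have h5 := rho_succ j
    have h6 : L * rho j < 5 / 4 * (rho j / ((j : ℝ) + 3)) := by
      rw [← h5]; linarith [h2.2]
    have h7 : L * ((j : ℝ) + 3) * rho j < 5 / 4 * rho j := by
      have h8 : L * rho j * ((j : ℝ) + 3) < 5 / 4 * (rho j / ((j : ℝ) + 3)) * ((j : ℝ) + 3) :=
        mul_lt_mul_of_pos_right h6 (by positivity)
      have h9 : 5 / 4 * (rho j / ((j : ℝ) + 3)) * ((j : ℝ) + 3) = 5 / 4 * rho j := by
        field_simp
      rw [h9] at h8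
      linarith
    have h8 : L * ((j : ℝ) + 3) < 5 / 4 := lt_of_mul_lt_mul_right h7 hρ.le
    linarith

lemma exists_lower_bound [NeZero n] {f : E n → E n} (hf : Continuous f)
    (h : ∀ s : E n, ‖s‖ = 1 → f s ≠ 0) : ∃ c : ℝ, 0 < c ∧ ∀ s : E n, ‖s‖ = 1 → c ≤ ‖f s‖ := by
  obtain ⟨u, hu⟩ := exists_unit (n := n)
  have hsne : (sphere (0 : E n) 1).Nonempty := ⟨u, mem_sphere_zero_iff_norm.2 hu⟩
  obtain ⟨s₁, hs₁, hmin⟩ := (isCompact_sphere (0 : E n) 1).exists_isMinOn hsne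
    (f := fun s : E n => ‖f s‖) (hf.norm.continuousOn)
  refine ⟨‖f s₁‖, norm_pos_iff.2 (h s₁ (mem_sphere_zero_iff_norm.1 hs₁)), fun s hs => ?_⟩
  exact isMinOn_iff.1 hmin s (mem_sphere_zero_iff_norm.2 hs)

/-- estimates on the linear approximation -/
lemma linear_estimates [NeZero n] {A : E n →L[ℝ] E n} {Ψ : E n → E n} {b : E n} {μ c d η r : ℝ}
    (h0 : 0 < μ) (hr : 0 < r) (hc : 0 < c) 
    (hc' : ∀ s : E n, ‖s‖ = 1 → c ≤ ‖A s‖) (hd' : ∀ s : E n, ‖s‖ = 1 → d ≤ ‖μ • A s - b‖)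
    (hη1 : η ≤ c / 2) (hη2 : η * μ ≤ d / 4) {z : E n} (hz : ‖z‖ = r)
    (hzd : ‖Ψ z - A z‖ ≤ η * r) :
    μ * (c / 2) * r ≤ ‖μ • Ψ z‖ ∧ ‖μ • Ψ z‖ ≤ μ * (‖A‖ + c) * r ∧
      3 / 4 * d * r ≤ ‖μ • Ψ z - r • b‖ := by
  obtain ⟨u, hun, hzu⟩ : ∃ u : E n, ‖u‖ = 1 ∧ z = r • u := by
    refine ⟨r⁻¹ • z, ?_, ?_⟩
    · rw [norm_smul, hz, norm_inv, Real.norm_of_nonneg hr.le, inv_mul_cancel₀ hr.ne']
    · rw [smul_smul, mul_inv_cancel₀ hr.ne', one_smul]
  have hAz : A z = r • A u := by rw [hzu, map_smul]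
  have hAzn : ‖A z‖ = r * ‖A u‖ := by rw [hAz, norm_smul, Real.norm_of_nonneg hr.le]
  refine ⟨?_, ?_, ?_⟩
  · rw [norm_smul, Real.norm_of_nonneg h0.le]
    have h2 : ‖A z‖ ≤ ‖Ψ z‖ + ‖Ψ z - A z‖ := by
      have := norm_sub_norm_le (A z) (Ψ z)
      rw [norm_sub_rev] at this; linarith
    have h3 := hc' u hun
    have h5 : c * r ≤ ‖A z‖ := by rw [hAzn]; nlinarith
    have h6 : η * r ≤ c / 2 * r := by gcongr
    have h7 : c / 2 * r ≤ ‖Ψ z‖ := by linarith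
    calc μ * (c / 2) * r = μ * (c / 2 * r) := by ring
      _ ≤ _ := by gcongr
  · rw [norm_smul, Real.norm_of_nonneg h0.le]
    have h2 : ‖Ψ z‖ ≤ ‖A z‖ + ‖Ψ z - A z‖ := by
      have := norm_sub_norm_le (Ψ z) (A z)
      linarith
    have h3 : ‖A z‖ ≤ ‖A‖ * r := by
      have := A.le_opNorm z
      rwa [hz] at this
    have h6 : η * r ≤ c / 2 * r := by gcongr
    have h7 : ‖Ψ z‖ ≤ (‖A‖ + c) * r := by nlinarith
    calc μ * ‖Ψ z‖ ≤ μ * ((‖A‖ + c) * r) := by gcongr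
      _ = _ := by ring
  · have h5 : ‖μ • A z - r • b‖ = r * ‖μ • A u - b‖ := by
      rw [hAz, smul_comm, ← smul_sub, norm_smul, Real.norm_of_nonneg hr.le]
    have h6 : ‖μ • A z - r • b‖ ≤ ‖μ • Ψ z - r • b‖ + ‖μ • Ψ z - μ • A z‖ := by
      have := norm_sub_le (μ • Ψ z - r • b) (μ • Ψ z - μ • A z)
      have e : μ • Ψ z - r • b - (μ • Ψ z - μ • A z) = μ • A z - r • b := by abel
      rwa [e] at this
    have h7 : ‖μ • Ψ z - μ • A z‖ ≤ d / 4 * r := by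
      rw [← smul_sub, norm_smul, Real.norm_of_nonneg h0.le]
      calc μ * ‖Ψ z - A z‖ ≤ μ * (η * r) := by gcongr
        _ = (η * μ) * r := by ring
        _ ≤ _ := by gcongr
    have h8 := hd' u hun
    have h10 : r * d ≤ r * ‖μ • A u - b‖ := by gcongr
    rw [h5] at h6
    linarith

lemma germ_zoom_aux [NeZero n] (β : ℕ → S n) {μ : ℝ} (h0 : 0 < μ)
    {Ψ : E n → E n} {A : E n →L[ℝ] E n} (hΨ : HasStrictFDerivAt Ψ A 0) (hA : PresOmega A)
    (hp : Ψ 0 = 0) {m : ℕ} (hm : β m ∉ badDir μ A) :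
    ∀ᶠ j in atTop, (Nat.unpair j).1 = m → ∀ z : E n, ‖z‖ = rho j →
      ∀ i, rad i ≤ ‖μ • Ψ z - ctr (dirs β) i‖ := by
  obtain ⟨d, hd, hd'⟩ := exists_lower_bound (n := n) (f := fun s : E n => μ • A s - (β m : E n))
    (by fun_prop) (fun s hs h => hm ⟨s, hs, sub_eq_zero.1 h⟩)
  obtain ⟨c, hc, hc'⟩ := exists_lower_bound (n := n) (f := fun s : E n => A s)
    (by fun_prop) (fun s hs h => by
      have h2 : s = 0 := hA.injective (by rw [h, map_zero])
      rw [h2, norm_zero] at hs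
      exact zero_ne_one hs)
  obtain ⟨η, hηpos, hη1, hη2⟩ : ∃ η : ℝ, 0 < η ∧ η ≤ c / 2 ∧ η * μ ≤ d / 4 := by
    refine ⟨min (c / 2) (d / (4 * μ)), lt_min (by positivity) (by positivity), min_le_left _ _, ?_⟩
    have h8 : min (c / 2) (d / (4 * μ)) ≤ d / (4 * μ) := min_le_right _ _
    rw [le_div_iff₀ (by positivity)] at h8
    linarith
  have hdiff : ∀ᶠ z in 𝓝 (0 : E n), ‖Ψ z - A z‖ ≤ η * ‖z‖ := by
    have h2 := hΨ.hasFDerivAt.isLittleO.def hηpos
    filter_upwards [h2] with z hz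
    simpa [hp] using hz
  obtain ⟨ε, hε, hdiff'⟩ := Metric.eventually_nhds_iff.1 hdiff
  have hJ : Tendsto (fun j : ℕ => (j : ℝ)) atTop atTop := tendsto_natCast_atTop_atTop
  filter_upwards [tendsto_rho.eventually_lt_const hε,
    tendsto_del.eventually_lt_const (show (0 : ℝ) < 3 / 4 * d by positivity),
    hJ.eventually_gt_atTop (5 / (2 * μ * c)),
    hJ.eventually_gt_atTop (4 / 3 * (μ * (‖A‖ + c)))] with j hj1 hj2 hj3 hj4 hjm z hz i
  have hρ := rho_pos j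
  have hzd : ‖Ψ z - A z‖ ≤ η * rho j := by
    have := hdiff' (y := z) (by rw [dist_zero_right, hz]; exact hj1)
    rwa [hz] at this
  have hest := linear_estimates (n := n) h0 hρ hc hc' hd' hη1 hη2 hz hzd
  refine far_of_estimates hjm (L := μ * (c / 2)) hest.1 hest.2.1 hest.2.2 hj2 ?_ ?_ i
  · rw [div_lt_iff₀ (by positivity)] at hj3
    nlinarith [mul_pos h0 hc]
  · linarith

lemma zoom_ev (b : ℕ → E n) (hb : ∀ j, ‖b j‖ = 1) (s : ℝ) {μ : ℝ} (hμ : μ ≠ 0) {p : E n}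
    (hp : p ≠ 0) :
    ∃ j, ∀ᶠ z in 𝓝 p, zoom μ hμ (phi hb s) z = zoom μ hμ (tau (ctr b j) (rad j) s) z := by
  obtain ⟨j, hj⟩ := exists_eventually_eq_tau hb s (smul_ne_zero hμ hp)
  refine ⟨j, ?_⟩
  have hc : Tendsto (fun z : E n => μ • z) (𝓝 p) (𝓝 (μ • p)) :=
    (continuous_const_smul μ).tendsto _
  have h3 := hc.eventually hj
  refine h3.mono fun z hz => ?_
  rw [zoom_apply, zoom_apply, coe_phi, hz]

lemma germ_zoom [NeZero n] (β : ℕ → S n) (s : ℝ) {μ : ℝ} (hμ : μ ≠ 0) (h0 : 0 < μ) (h1 : μ < 1) :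
    GermProp n β (zoom μ hμ (phi (norm_dirs β) s)) := by
  intro Ψ A hΨ hA
  by_cases hp : Ψ 0 = 0
  swap
  · -- away from the singular point
    obtain ⟨j, hj⟩ := zoom_ev (dirs β) (norm_dirs β) s hμ hp
    exact germ_of_local hΨ hA (isSymp_zoom (isSymp_tau _ _ s) μ hμ) hj
  · refine ⟨Ψ, A, hΨ, hA, badDir μ A, isClosed_badDir μ A, interior_badDir h0 h1 hA,
      fun m hm => ?_⟩
    filter_upwards [germ_zoom_aux β h0 hΨ hA hp hm] with j hj hjm z hz
    rw [zoom_apply, coe_phi, phiFun_of_far s (hj hjm z hz), smul_smul, inv_mul_cancel₀ hμ,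
      one_smul]

/-! ### The images of the removed spheres are not those of a generated homeomorphism -/

/-- the point of the sphere of radius `rho j` sent to a radial displacement of the centre -/
noncomputable def pt (b : E n) (ρ a : ℝ) : E n :=
  (ρ * (1 - a ^ 2) / (1 + a ^ 2)) • b - (2 * a * ρ / (1 + a ^ 2)) • J n b

lemma norm_pt {b : E n} (hb : ‖b‖ = 1) {ρ : ℝ} (hρ : 0 < ρ) (a : ℝ) : ‖pt b ρ a‖ = ρ := by
  have h1 : ‖pt b ρ a‖ ^ 2 = ρ ^ 2 := by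
    rw [← real_inner_self_eq_norm_sq, pt]
    simp only [inner_sub_left, inner_sub_right, real_inner_smul_left, real_inner_smul_right,
      inner_J_J]
    rw [real_inner_comm (J n b) b, inner_J_self, real_inner_self_eq_norm_sq, hb]
    have : (1 : ℝ) + a ^ 2 ≠ 0 := by positivity
    field_simp
    ring
  exact (sq_eq_sq₀ (norm_nonneg _) hρ.le).1 h1

lemma pt_sub (b : E n) (ρ a : ℝ) :
    pt b ρ a - ρ • b = -(2 * a * ρ / (1 + a ^ 2)) • (a • b + J n b) := by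
  rw [pt]
  have : (1 : ℝ) + a ^ 2 ≠ 0 := by positivity
  have h1 : ρ * (1 - a ^ 2) / (1 + a ^ 2) = ρ + -(2 * a * ρ / (1 + a ^ 2)) * a := by
    field_simp; ring
  rw [h1]
  module

lemma phiFun_ctr {b : ℕ → E n} (hb : ∀ j, ‖b j‖ = 1) (j : ℕ) :
    phiFun b 1 (rho j • b j) = rho j • b j := by
  have h1 : ‖rho j • b j - ctr b j‖ = 0 := by rw [ctr, sub_self, norm_zero]
  rw [phiFun_of_near hb 1 (j := j) (by rw [h1]; exact rad_pos j),
    tau_one_of_le _ (rad_pos j) (by rw [h1]; exact (half_pos (rad_pos j)).le)]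
  rw [ctr]; simp

lemma phiFun_pt {b : ℕ → E n} (hb : ∀ j, ‖b j‖ = 1) (j : ℕ) :
    phiFun b 1 (pt (b j) (rho j) (del j / 8)) = rho j • b j +
      (2 * (del j / 8) * rho j / (1 + (del j / 8) ^ 2)) • (b j - (del j / 8) • J n (b j)) := by
  set a := del j / 8 with ha
  have ha0 : 0 < a := by have := del_pos j; positivity
  have ha1 : a ≤ 1 := by have := del_le j; rw [ha]; linarith
  have hρ := rho_pos j
  have h1 : ‖pt (b j) (rho j) a - ctr b j‖ ≤ rad j / 2 := by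
    rw [ctr, pt_sub, norm_smul, norm_neg, Real.norm_of_nonneg (by positivity)]
    have h2 : ‖a • b j + J n (b j)‖ ≤ a + 1 := by
      refine (norm_add_le _ _).trans ?_
      rw [norm_smul, hb, norm_J, hb, Real.norm_of_nonneg ha0.le, mul_one]
    have h3 : 2 * a * rho j / (1 + a ^ 2) ≤ 2 * a * rho j :=
      div_le_self (by positivity) (by nlinarith)
    have h4 : rad j / 2 = 4 * a * rho j := by rw [rad, ha]; ring
    rw [h4]
    calc 2 * a * rho j / (1 + a ^ 2) * ‖a • b j + J n (b j)‖ ≤ 2 * a * rho j * (a + 1) := by gcongr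
      _ ≤ 2 * a * rho j * 2 := by gcongr; linarith
      _ = _ := by ring
  rw [phiFun_of_near hb 1 (j := j) (h1.trans_lt (half_lt_self (rad_pos j))),
    tau_one_of_le _ (rad_pos j) h1, ctr, pt_sub, map_smul, map_add, map_smul, J_J]
  module

end Pool.Agent.H68.Cap
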