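import Pool.Agent.H68.CapGerm2

open scoped ENNReal ContDiff Pointwise RealInnerProductSpace Topology
open Filter MeasureTheory Metric Asymptotics

namespace Pool.Agent.H68.Cap

variable {n : ℕ}

/-- abstract limit argument: two points on a small sphere whose images are radially displaced -/
lemma no_radial_pair {Ψ : E n → E n} {A : E n →L[ℝ] E n} (hΨ : HasStrictFDerivAt Ψ A 0)
    (hA : PresOmega A) {b : E n} (hb : ‖b‖ = 1) {r a : ℕ → ℝ} (hr : ∀ k, 0 < r k)
    (ha : ∀ k, 0 < a k) (hr0 : Tendsto r atTop (𝓝 0)) (ha0 : Tendsto a atTop (𝓝 0))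
    {x y : ℕ → E n} (hx : ∀ k, ‖x k‖ = r k) (hy : ∀ k, ‖y k‖ = r k)
    (hΨx : ∀ᶠ k in atTop, Ψ (x k) = r k • b + (2 * a k * r k / (1 + a k ^ 2)) • (b - a k • J n b))
    (hΨy : ∀ᶠ k in atTop, Ψ (y k) = r k • b) : False := by
  set s : ℕ → ℝ := fun k => 2 * a k * r k / (1 + a k ^ 2) with hs
  have hspos : ∀ k, 0 < s k := fun k => by
    have := hr k; have := ha k; simp only [hs]; positivity
  have hx0 : Tendsto x atTop (𝓝 0) := by
    rw [tendsto_zero_iff_norm_tendsto_zero]; simpa [hx] using hr0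
  have hy0 : Tendsto y atTop (𝓝 0) := by
    rw [tendsto_zero_iff_norm_tendsto_zero]; simpa [hy] using hr0
  set B : E n →L[ℝ] E n := (hA.equiv.symm : E n →L[ℝ] E n) with hB
  have hBA : ∀ v, B (A v) = v := fun v => by
    rw [← hA.equiv_apply v]; exact hA.equiv.symm_apply_apply v
  have hAB : ∀ v, A (B v) = v := fun v => by
    rw [← hA.equiv_apply]; exact hA.equiv.apply_symm_apply v
  -- Ψ 0 = 0
  have hΨ0 : Ψ 0 = 0 := by
    have h1 : Tendsto (fun k => Ψ (y k)) atTop (𝓝 (Ψ 0)) :=
      (hΨ.hasFDerivAt.continuousAt.tendsto).comp hy0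
    have h2 : Tendsto (fun k => r k • b) atTop (𝓝 ((0 : ℝ) • b)) := hr0.smul_const b
    rw [zero_smul] at h2
    exact tendsto_nhds_unique h1 (h2.congr' (hΨy.mono fun k hk => hk.symm))
  -- first limit
  have hlim1 : Tendsto (fun k => (r k)⁻¹ • y k) atTop (𝓝 (B b)) := by
    have h1 : (fun z => Ψ z - A z) =o[𝓝 0] fun z => z := by
      have := hΨ.hasFDerivAt.isLittleO
      simpa [hΨ0] using this
    have h2 : (fun k => Ψ (y k) - A (y k)) =o[atTop] fun k => y k := h1.comp_tendsto hy0
    have h3 : (fun k => r k • b - A (y k)) =o[atTop] fun k => r k := by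
      refine (h2.congr' (hΨy.mono fun k hk => ?_) EventuallyEq.rfl).trans_isBigO ?_
      · simp only [hk]
      · refine IsBigO.of_bound 1 (Eventually.of_forall fun k => ?_)
        rw [hy, one_mul, Real.norm_of_nonneg (hr k).le]
    have h4 : (fun k => r k • B b - y k) =o[atTop] fun k => r k := by
      have := (B.isBigO_comp (fun k => r k • b - A (y k)) atTop).trans_isLittleO h3
      simpa [hBA] using this
    have h5 : Tendsto (fun k => ‖(r k)⁻¹ • (r k • B b - y k)‖) atTop (𝓝 0) := by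
      have h6 := (isLittleO_norm_left.2 h4).tendsto_div_nhds_zero
      refine h6.congr fun k => ?_
      rw [norm_smul, norm_inv, Real.norm_of_nonneg (hr k).le]
      field_simp
    have h7 : Tendsto (fun k => (r k)⁻¹ • (r k • B b - y k)) atTop (𝓝 0) :=
      tendsto_zero_iff_norm_tendsto_zero.2 h5
    have h8 : Tendsto (fun k => B b - (r k)⁻¹ • (r k • B b - y k)) atTop (𝓝 (B b - 0)) :=
      tendsto_const_nhds.sub h7
    rw [sub_zero] at h8
    refine h8.congr fun k => ?_
    rw [smul_sub, smul_smul, inv_mul_cancel₀ (hr k).ne', one_smul]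
    abel
  -- second limit
  have hlim2 : Tendsto (fun k => (s k)⁻¹ • (x k - y k)) atTop (𝓝 (B b)) := by
    have h1 := hΨ.isLittleO
    have h2 : (fun k => Ψ (x k) - Ψ (y k) - A (x k - y k)) =o[atTop] fun k => x k - y k := by
      have hxy : Tendsto (fun k => (x k, y k)) atTop (𝓝 ((0 : E n), (0 : E n))) :=
        hx0.prodMk_nhds hy0
      exact h1.comp_tendsto hxy
    have h3 : (fun k => s k • (b - a k • J n b) - A (x k - y k)) =o[atTop] fun k => x k - y k := by
      refine h2.congr' ?_ EventuallyEq.rfl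
      filter_upwards [hΨx, hΨy] with k hk1 hk2
      rw [hk1, hk2]
      abel
    have h4 : (fun k => s k • B (b - a k • J n b) - (x k - y k)) =o[atTop] fun k => x k - y k := by
      have := (B.isBigO_comp (fun k => s k • (b - a k • J n b) - A (x k - y k)) atTop).trans_isLittleO h3
      refine this.congr_left fun k => ?_
      rw [map_sub, map_smul, hBA]
    have h4' : (fun k => (x k - y k) - s k • B (b - a k • J n b)) =o[atTop] fun k => x k - y k := by
      refine h4.neg_left.congr_left fun k => ?_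
      abel
    have h5 : (fun k => x k - y k) =O[atTop] fun k => s k • B (b - a k • J n b) := by
      have := h4'.right_isBigO_sub
      refine this.congr_right fun k => ?_
      abel
    have hbd : Tendsto (fun k => B (b - a k • J n b)) atTop (𝓝 (B b)) := by
      have h6 : Tendsto (fun k => b - a k • J n b) atTop (𝓝 (b - (0 : ℝ) • J n b)) :=
        tendsto_const_nhds.sub (ha0.smul_const _)
      rw [zero_smul, sub_zero] at h6
      exact (B.continuous.tendsto b).comp h6
    have h6 : (fun k => s k • B (b - a k • J n b)) =O[atTop] fun k => s k := by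
      have h7 : (fun k => B (b - a k • J n b)) =O[atTop] fun _ => (1 : ℝ) := hbd.isBigO_one ℝ
      have h8 := (isBigO_refl s atTop).smul h7
      simpa using h8
    have h7 : (fun k => s k • B (b - a k • J n b) - (x k - y k)) =o[atTop] fun k => s k :=
      (h4.trans_isBigO h5).trans_isBigO h6
    have h8 : Tendsto (fun k => ‖(s k)⁻¹ • (s k • B (b - a k • J n b) - (x k - y k))‖) atTop (𝓝 0) := by
      have h9 := (isLittleO_norm_left.2 h7).tendsto_div_nhds_zero
      refine h9.congr fun k => ?_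
      rw [norm_smul, norm_inv, Real.norm_of_nonneg (hspos k).le]
      field_simp
    have h10 := hbd.sub (tendsto_zero_iff_norm_tendsto_zero.2 h8)
    rw [sub_zero] at h10
    refine h10.congr fun k => ?_
    rw [smul_sub (s k)⁻¹, smul_smul, inv_mul_cancel₀ (hspos k).ne', one_smul]
    abel
  -- the norm identity
  have hid : ∀ k, 2 * ⟪(r k)⁻¹ • y k, (s k)⁻¹ • (x k - y k)⟫
      + (s k / r k) * ‖(s k)⁻¹ • (x k - y k)‖ ^ 2 = 0 := by
    intro k
    have h1 : ‖x k‖ ^ 2 = ‖y k‖ ^ 2 + 2 * ⟪y k, x k - y k⟫ + ‖x k - y k‖ ^ 2 := by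
      have := norm_add_sq_real (y k) (x k - y k)
      rwa [add_sub_cancel] at this
    rw [hx, hy] at h1
    have h2 : 2 * ⟪y k, x k - y k⟫ + ‖x k - y k‖ ^ 2 = 0 := by linarith
    rw [real_inner_smul_left, real_inner_smul_right, norm_smul, norm_inv,
      Real.norm_of_nonneg (hspos k).le]
    have hs0 := (hspos k).ne'
    have hr0' := (hr k).ne'
    field_simp
    linarith
  have hsr : Tendsto (fun k => s k / r k) atTop (𝓝 0) := by
    have h1 : Tendsto (fun k => 2 * a k / (1 + a k ^ 2)) atTop (𝓝 (2 * 0 / (1 + 0 ^ 2))) :=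
      (ha0.const_mul 2).div (tendsto_const_nhds.add (ha0.pow 2)) (by norm_num)
    simp only [mul_zero, zero_div] at h1
    refine h1.congr fun k => ?_
    have hr0' := (hr k).ne'
    have : (1 : ℝ) + a k ^ 2 ≠ 0 := by positivity
    simp only [hs]
    field_simp
  have hlim : Tendsto (fun k => 2 * ⟪(r k)⁻¹ • y k, (s k)⁻¹ • (x k - y k)⟫
      + (s k / r k) * ‖(s k)⁻¹ • (x k - y k)‖ ^ 2) atTop (𝓝 (2 * ⟪B b, B b⟫ + 0 * ‖B b‖ ^ 2)) :=
    ((hlim1.inner hlim2).const_mul 2).add (hsr.mul (hlim2.norm.pow 2))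
  have h0 : 2 * ⟪B b, B b⟫ + 0 * ‖B b‖ ^ 2 = 0 := by
    refine tendsto_nhds_unique hlim ?_
    exact tendsto_const_nhds.congr fun k => (hid k).symm
  have h1 : B b = 0 := by
    have h2 : ⟪B b, B b⟫ = 0 := by linarith
    exact inner_self_eq_zero.1 h2
  have h3 : b = 0 := by rw [← hAB b, h1, map_zero]
  rw [h3, norm_zero] at hb
  exact zero_ne_one hb

lemma not_match [NeZero n] {β : ℕ → S n} (hβ : DenseRange β) {g : E n ≃ₜ E n}
    (hg : GermProp n β g)
    (hmatch : ∀ j, g '' (sphere 0 (rho j)) = phi (norm_dirs β) 1 '' (sphere 0 (rho j))) : False := by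
  obtain ⟨Ψ, A, hΨ, hA, F, hF1, hF2, hF3⟩ := hg id (ContinuousLinearMap.id ℝ (E n))
    (hasStrictFDerivAt_id 0) presOmega_id
  have : Nonempty (S n) := by
    obtain ⟨u, hu⟩ := exists_unit (n := n)
    exact ⟨⟨u, mem_sphere_zero_iff_norm.2 hu⟩⟩
  have hne : (Fᶜ).Nonempty := by
    rw [Set.nonempty_compl]
    intro h
    rw [h, interior_univ] at hF2
    exact Set.univ_nonempty.ne_empty hF2
  obtain ⟨m, hm⟩ := hβ.exists_mem_open hF1.isOpen_compl hne
  have hev := hF3 m hm
  set jj : ℕ → ℕ := fun k => Nat.pair m k with hjj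
  have hjt : Tendsto jj atTop atTop := by
    refine tendsto_atTop_mono (fun k => Nat.right_le_pair m k) tendsto_id
  have hev2 : ∀ᶠ k in atTop, ∀ z : E n, ‖z‖ = rho (jj k) → g z = Ψ z := by
    refine (hjt.eventually hev).mono fun k hk => ?_
    exact hk (by simp [hjj])
  have hdir : ∀ k, dirs β (jj k) = (β m : E n) := fun k => by simp [dirs, hjj]
  -- the points
  have hxex : ∀ k, ∃ x : E n, ‖x‖ = rho (jj k) ∧ g x = rho (jj k) • (β m : E n) +
      (2 * (del (jj k) / 8) * rho (jj k) / (1 + (del (jj k) / 8) ^ 2)) •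
        ((β m : E n) - (del (jj k) / 8) • J n (β m : E n)) := by
    intro k
    have h1 : phi (norm_dirs β) 1 (pt (dirs β (jj k)) (rho (jj k)) (del (jj k) / 8))
        ∈ g '' (sphere 0 (rho (jj k))) := by
      rw [hmatch]
      refine ⟨_, ?_, rfl⟩
      rw [mem_sphere_zero_iff_norm]
      exact norm_pt (norm_dirs β _) (rho_pos _) _
    obtain ⟨x, hx1, hx2⟩ := h1
    refine ⟨x, mem_sphere_zero_iff_norm.1 hx1, ?_⟩
    rw [hx2, coe_phi, phiFun_pt (norm_dirs β), hdir]
  have hyex : ∀ k, ∃ y : E n, ‖y‖ = rho (jj k) ∧ g y = rho (jj k) • (β m : E n) := by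
    intro k
    have h1 : phi (norm_dirs β) 1 (rho (jj k) • dirs β (jj k)) ∈ g '' (sphere 0 (rho (jj k))) := by
      rw [hmatch]
      refine ⟨_, ?_, rfl⟩
      rw [mem_sphere_zero_iff_norm, norm_smul, norm_dirs, mul_one,
        Real.norm_of_nonneg (rho_pos _).le]
    obtain ⟨y, hy1, hy2⟩ := h1
    refine ⟨y, mem_sphere_zero_iff_norm.1 hy1, ?_⟩
    rw [hy2, coe_phi, phiFun_ctr (norm_dirs β), hdir]
  choose x hx1 hx2 using hxex
  choose y hy1 hy2 using hyex
  refine no_radial_pair hΨ hA (norm_S (β m)) (r := fun k => rho (jj k))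
    (a := fun k => del (jj k) / 8) (fun k => rho_pos _) (fun k => by have := del_pos (jj k); positivity)
    (tendsto_rho.comp hjt) ?_ (x := x) (y := y) hx1 hy1 ?_ ?_
  · have := (tendsto_del.comp hjt).div_const 8
    rw [zero_div] at this
    exact this
  · filter_upwards [hev2] with k hk
    rw [← hk _ (hx1 k), hx2]
  · filter_upwards [hev2] with k hk
    rw [← hk _ (hy1 k), hy2]

/-- every generated homeomorphism has the germ property -/
lemma Gen.germProp [NeZero n] {β : ℕ → S n} {g : E n ≃ₜ E n} (hg : Gen (phi (norm_dirs β) 1) g) :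
    GermProp n β g := by
  induction hg with
  | symp ψ hψ => exact germ_symp hψ
  | zoom μ hμ h0 h1 => exact germ_zoom β 1 hμ h0 h1
  | zoomSymm μ hμ h0 h1 =>
    rw [phi_symm]
    exact germ_zoom β (-1) hμ h0 h1
  | comp f g _ _ ihf ihg => exact germ_comp (f := f) (g := g) ihf ihg

end Pool.Agent.H68.Cap
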