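import Pool.Agent.H68.CapGerm3

open scoped ENNReal ContDiff Pointwise RealInnerProductSpace Topology
open Filter MeasureTheory Metric Asymptotics

namespace Pool.Agent.H68.Cap

variable {n : ℕ}

/-- the scaled homeomorphism -/
noncomputable def scaled (l : ℝ) (hl : l ≠ 0) (g F : E n ≃ₜ E n) : E n ≃ₜ E n :=
  (g.trans (Homeomorph.smulOfNeZero l hl)).trans F

lemma scaled_apply (l : ℝ) (hl : l ≠ 0) (g F : E n ≃ₜ E n) (z : E n) :
    scaled l hl g F z = F (l • g z) := rfl

lemma scaled_image (l : ℝ) (hl : l ≠ 0) (g F : E n ≃ₜ E n) (K : Set (E n)) :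
    scaled l hl g F '' K = F '' (l • (g '' K)) := by
  ext x
  constructor
  · rintro ⟨z, hz, rfl⟩
    exact ⟨l • g z, Set.smul_mem_smul_set (Set.mem_image_of_mem g hz), rfl⟩
  · rintro ⟨_, ⟨_, ⟨z, hz, rfl⟩, rfl⟩, rfl⟩
    exact ⟨z, hz, rfl⟩

lemma volume_scaled {g F : E n ≃ₜ E n} (hg : IsApprox g) (hg' : IsApprox g.symm)
    (hF : IsApprox F) (hF' : IsApprox F.symm) {l : ℝ} (hl : 0 < l) {K : Set (E n)}
    (hK : IsCompact K) :
    volume (scaled l hl.ne' g F '' K) = ENNReal.ofReal (l ^ (n * 2)) * volume K := by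
  have h1 : IsCompact (l • (g '' K)) := (hK.image g.continuous).smul l
  rw [scaled_image, volume_image_eq hF hF' h1, Measure.addHaar_smul, volume_image_eq hg hg' hK]
  simp [abs_of_pos hl]

lemma isApprox_refl : IsApprox (Homeomorph.refl (E n)) := isSymp_refl.isApprox

lemma volume_closedBall_eq (p : E n) {r : ℝ} (hr : 0 ≤ r) :
    volume (closedBall p r) = ENNReal.ofReal (r ^ (n * 2)) * volume (closedBall (0 : E n) 1) := by
  rw [Measure.addHaar_closedBall' _ _ hr]
  simp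

lemma volume_unit_pos [NeZero n] : volume (closedBall (0 : E n) 1) ≠ 0 :=
  (Metric.measure_closedBall_pos _ _ one_pos).ne'

lemma volume_unit_lt_top : volume (closedBall (0 : E n) 1) ≠ ⊤ := measure_closedBall_lt_top.ne

lemma two_n_ne [NeZero n] : n * 2 ≠ 0 := by
  have := NeZero.ne n
  omega

/-- volume comparison -/
lemma pow_le_of_subset [NeZero n] {g F : E n ≃ₜ E n} (hg : IsApprox g) (hg' : IsApprox g.symm)
    (hF : IsApprox F) (hF' : IsApprox F.symm) {l : ℝ} (hl : 0 < l) {p : E n} {r : ℝ} (hr : 0 ≤ r)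
    (h : scaled l hl.ne' g F '' (closedBall 0 1) ⊆ closedBall p r) :
    l ^ (n * 2) ≤ r ^ (n * 2) := by
  have h1 := measure_mono (μ := volume) h
  rw [volume_scaled hg hg' hF hF' hl (isCompact_closedBall 0 1), volume_closedBall_eq p hr,
    ENNReal.mul_le_mul_iff_left volume_unit_pos volume_unit_lt_top] at h1
  exact (ENNReal.ofReal_le_ofReal_iff (by positivity)).1 h1

lemma smul_mem_cylinder [NeZero n] {z : E n} {l R : ℝ} (hl : 0 < l)
    (h : l • z ∈ cylinder n R) : z ∈ cylinder n (R / l) := by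
  have h1 : (l • z) (0, 0) ^ 2 + (l • z) (0, 1) ^ 2 ≤ R ^ 2 := h
  have e0 : (l • z) (0, 0) = l * z (0, 0) := rfl
  have e1 : (l • z) (0, 1) = l * z (0, 1) := rfl
  rw [e0, e1] at h1
  show z (0, 0) ^ 2 + z (0, 1) ^ 2 ≤ (R / l) ^ 2
  rw [div_pow, le_div_iff₀ (by positivity)]
  linarith

lemma isClosed_cylinder [NeZero n] (R : ℝ) : IsClosed (cylinder n R) := by
  have h : Continuous fun z : E n => z (0, 0) ^ 2 + z (0, 1) ^ 2 := by fun_prop
  exact isClosed_le h continuous_const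

section Cls

variable (Φ : E n ≃ₜ E n)

/-- the class of model sets -/
def cls : Set (Set (E n)) :=
  {T | ∃ ψ : E n ≃ₜ E n, IsSymplectomorphism ψ ∧ T = ψ '' closedBall 0 1} ∪
    {T | ∃ g : E n ≃ₜ E n, Gen Φ g ∧ T = g '' T0 n}

variable {Φ}

lemma image_trans (f g : E n ≃ₜ E n) (K : Set (E n)) : (f.trans g) '' K = g '' (f '' K) := by
  rw [← Set.image_comp]; rfl

lemma image_smul_eq (F : E n ≃ₜ E n) {l : ℝ} (hl : l ≠ 0) (K : Set (E n)) :
    F '' (l • K) = l • (zoom l hl F '' K) := by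
  ext x
  constructor
  · rintro ⟨_, ⟨z, hz, rfl⟩, rfl⟩
    refine ⟨zoom l hl F z, Set.mem_image_of_mem _ hz, ?_⟩
    show l • (l⁻¹ • F (l • z)) = F (l • z)
    rw [smul_smul, mul_inv_cancel₀ hl, one_smul]
  · rintro ⟨_, ⟨z, hz, rfl⟩, rfl⟩
    refine ⟨l • z, Set.smul_mem_smul_set hz, ?_⟩
    show F (l • z) = l • (l⁻¹ • F (l • z))
    rw [smul_smul, mul_inv_cancel₀ hl, one_smul]

lemma cls_image : ∀ T ∈ cls Φ, ∀ ψ : E n ≃ₜ E n, IsSymplectomorphism ψ → ψ '' T ∈ cls Φ := by
  rintro T (⟨χ, hχ, rfl⟩ | ⟨g, hg, rfl⟩) ψ hψ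
  · exact Or.inl ⟨χ.trans ψ, hχ.trans hψ, (image_trans _ _ _).symm⟩
  · exact Or.inr ⟨g.trans ψ, Gen.comp _ _ hg (Gen.symp ψ hψ), (image_trans _ _ _).symm⟩

lemma cls_ball : closedBall (0 : E n) 1 ∈ cls Φ :=
  Or.inl ⟨Homeomorph.refl _, isSymp_refl, by simp⟩

/-- closure of a scaled model -/
lemma scaled_closure [NeZero n] {l : ℝ} {g : E n ≃ₜ E n} {K : Set (E n)} (hK : IsClosed K)
    (h : l • (g '' T0 n) ⊆ K) : l • (g '' closedBall 0 1) ⊆ K := by
  have h1 : T0 n ⊆ (fun z => l • g z) ⁻¹' K := fun z hz =>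
    h (Set.smul_mem_smul_set (Set.mem_image_of_mem g hz))
  have h2 : IsClosed ((fun z => l • g z) ⁻¹' K) := hK.preimage (by fun_prop)
  have h3 := closure_minimal h1 h2
  rw [closure_T0] at h3
  rintro _ ⟨_, ⟨z, hz, rfl⟩, rfl⟩
  exact h3 hz

lemma cls_cylinder [NeZero n] (hn : NonSqueezing n) (h1 : IsApprox Φ) (h2 : IsApprox Φ.symm) :
    ∀ T ∈ cls Φ, ∀ l R : ℝ, 0 < l → 0 < R → l • T ⊆ cylinder n R → l ≤ R := by
  have key : ∀ (g : E n ≃ₜ E n), IsApprox g → ∀ l R : ℝ, 0 < l → 0 < R →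
      l • (g '' closedBall 0 1) ⊆ cylinder n R → l ≤ R := by
    intro g hg l R hl hR h
    have h3 : g '' closedBall 0 1 ⊆ cylinder n (R / l) := fun z hz =>
      smul_mem_cylinder hl (h (Set.smul_mem_smul_set hz))
    have h4 := hg.nonSqueezing hn (div_pos hR hl) h3
    rwa [le_div_iff₀ hl, one_mul] at h4
  rintro T (⟨χ, hχ, rfl⟩ | ⟨g, hg, rfl⟩) l R hl hR h
  · exact key χ hχ.isApprox l R hl hR h
  · exact key g (hg.isApprox h1 h2).1 l R hl hR (scaled_closure (isClosed_cylinder R) h)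

/-- one inequality for small open sets -/
lemma classCap_le_image [NeZero n] {F : E n ≃ₜ E n} (hF : IsApprox F)
    (hG : ∀ (μ : ℝ) (hμ : μ ≠ 0), 0 < μ → μ < 1 → Gen Φ (zoom μ hμ F)) {V : Set (E n)}
    (hV : IsOpen V)
    (hsmall : ∀ (l : ℝ) (g : E n ≃ₜ E n), 0 < l → Gen Φ g → l • (g '' T0 n) ⊆ V → l < 1) :
    classCap (cls Φ) V ≤ classCap (cls Φ) (F '' V) := by
  refine classCap_le ?_
  rintro l T hl (⟨ψ, hψ, rfl⟩ | ⟨g, hg, rfl⟩) hs
  · have hK : IsCompact (l • (ψ '' closedBall 0 1)) :=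
      ((isCompact_closedBall 0 1).image ψ.continuous).smul l
    have hFV : IsOpen (F '' V) := F.isOpenMap _ hV
    obtain ⟨δ, hδ, hth⟩ := (hK.image F.continuous).exists_thickening_subset_open hFV
      (Set.image_mono hs)
    obtain ⟨χ, hχ, hχ'⟩ := hF _ hK δ hδ
    refine le_classCap hl (T := (ψ.trans (zoom l hl.ne' χ)) '' closedBall 0 1)
      (Or.inl ⟨_, hψ.trans (isSymp_zoom hχ l hl.ne'), rfl⟩) ?_
    rw [image_trans, ← image_smul_eq]
    rintro _ ⟨z, hz, rfl⟩
    refine hth ?_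
    rw [mem_thickening_iff]
    exact ⟨F z, Set.mem_image_of_mem F hz, hχ' z hz⟩
  · have hl1 := hsmall l g hl hg hs
    refine le_classCap hl (T := (g.trans (zoom l hl.ne' F)) '' T0 n)
      (Or.inr ⟨_, Gen.comp _ _ hg (hG l hl.ne' hl hl1), rfl⟩) ?_
    rw [image_trans, ← image_smul_eq]
    exact Set.image_mono hs

end Cls

section Final

variable [NeZero n] (β : ℕ → S n)

/-- the homeomorphism -/
noncomputable abbrev Phi : E n ≃ₜ E n := phi (norm_dirs β) 1

omit [NeZero n] in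
lemma approx_Phi : IsApprox (Phi β) := (phi_uniformLimit (norm_dirs β) 1).isApprox

omit [NeZero n] in
lemma approx_Phi_symm : IsApprox (Phi β).symm := by
  rw [Phi, phi_symm]
  exact (phi_uniformLimit (norm_dirs β) (-1)).isApprox

lemma small_bound {p : E n} {F : E n ≃ₜ E n} (hF : IsApprox F) (hF' : IsApprox F.symm)
    {V : Set (E n)} (hV : V ⊆ F '' (closedBall p (1 / 2)))
    (l : ℝ) (g : E n ≃ₜ E n) (hl : 0 < l) (hg : Gen (Phi β) g) (h : l • (g '' T0 n) ⊆ V) :
    l < 1 := by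
  obtain ⟨hga, hga'⟩ := hg.isApprox (approx_Phi β) (approx_Phi_symm β)
  have hcl : IsClosed (F '' (closedBall p (1 / 2))) :=
    ((isCompact_closedBall p (1 / 2)).image F.continuous).isClosed
  have h1 : l • (g '' closedBall 0 1) ⊆ F '' (closedBall p (1 / 2)) :=
    scaled_closure hcl (h.trans hV)
  have h2 : scaled l hl.ne' g F.symm '' (closedBall 0 1) ⊆ closedBall p (1 / 2) := by
    rw [scaled_image]
    have h3 : F.symm '' (F '' (closedBall p (1 / 2))) = closedBall p (1 / 2) := by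
      rw [← Set.image_comp]; simp
    exact (Set.image_mono h1).trans h3.subset
  have h3 := pow_le_of_subset (F := F.symm) hga hga' hF' hF hl (by norm_num) h2
  have h4 : l ≤ 1 / 2 := (pow_le_pow_iff_left₀ hl.le (by norm_num) two_n_ne).1 h3
  linarith

lemma preserves_small : PreservesSmallOpenSets (classCap (cls (Phi β))) (Phi β) := by
  intro p
  refine ⟨closedBall p (1 / 2), closedBall_mem_nhds p (by norm_num), fun V hV hVo => ?_⟩
  refine le_antisymm ?_ ?_
  · have h1 : classCap (cls (Phi β)) (Phi β '' V) ≤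
        classCap (cls (Phi β)) ((Phi β).symm '' (Phi β '' V)) := by
      refine classCap_le_image (approx_Phi_symm β) (fun μ hμ h0 h1 => Gen.zoomSymm μ hμ h0 h1)
        ((Phi β).isOpenMap _ hVo) ?_
      exact small_bound β (p := p) (approx_Phi β) (approx_Phi_symm β) (Set.image_mono hV)
    have h2 : (Phi β).symm '' (Phi β '' V) = V := by
      rw [← Set.image_comp]; simp
    rwa [h2] at h1
  · refine classCap_le_image (approx_Phi β) (fun μ hμ h0 h1 => Gen.zoom μ hμ h0 h1) hVo ?_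
    refine small_bound β (p := p) (F := Homeomorph.refl _) isApprox_refl isApprox_refl ?_
    simpa using hV

lemma volume_shell : volume {z : E n | rho 0 ≤ ‖z‖ ∧ ‖z‖ ≤ 1}
    = ENNReal.ofReal (1 - (1 / 2) ^ (n * 2)) * volume (closedBall (0 : E n) 1) := by
  have h3 : {z : E n | rho 0 ≤ ‖z‖ ∧ ‖z‖ ≤ 1} = closedBall 0 1 \ ball 0 (1 / 2) := by
    ext z
    simp only [Set.mem_ofPred_eq, rho_zero, Set.mem_sdiff, mem_closedBall, dist_zero_right,
      mem_ball, not_lt]
    exact and_comm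
  rw [h3, measure_sdiff (ball_subset_closedBall.trans (closedBall_subset_closedBall (by norm_num)))
    isOpen_ball.measurableSet.nullMeasurableSet measure_ball_lt_top.ne]
  have h5 : volume (ball (0 : E n) (1 / 2)) =
      ENNReal.ofReal ((1 / 2) ^ (n * 2)) * volume (closedBall (0 : E n) 1) := by
    rw [← volume_closedBall_eq (0 : E n) (by norm_num : (0 : ℝ) ≤ 1 / 2),
      Measure.addHaar_closedBall_eq_addHaar_ball]
  rw [h5]
  have h6 : ENNReal.ofReal (1 - (1 / 2) ^ (n * 2)) = 1 - ENNReal.ofReal ((1 / 2) ^ (n * 2)) := by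
    rw [ENNReal.ofReal_sub _ (by positivity), ENNReal.ofReal_one]
  rw [h6, ENNReal.sub_mul, one_mul]
  intro _ _
  exact volume_unit_lt_top

/-- multiplication of volumes of compact sets by a power of `l` -/
def VolScale (n : ℕ) (l : ℝ) (H : E n ≃ₜ E n) : Prop :=
  ∀ K : Set (E n), IsCompact K → volume (H '' K) = ENNReal.ofReal (l ^ (n * 2)) * volume K

/-- volume consequence of the dichotomy -/
lemma vol_dichotomy {l : ℝ} {H : E n ≃ₜ E n} (hv : VolScale n l H)
    (hh : ∀ z : E n, ‖z‖ < 1 → z ≠ 0 → ‖H z‖ ≤ 1 ∧ ‖H z‖ ≠ rho 0) :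
    l ^ (n * 2) ≤ (1 / 2) ^ (n * 2) ∨ l ^ (n * 2) ≤ 1 - (1 / 2) ^ (n * 2) := by
  have hv1 := hv _ (isCompact_closedBall (0 : E n) 1)
  rcases ball_dichotomy _ hh with h1 | h1
  · left
    have h2 := measure_mono (μ := volume) h1
    rw [hv1, rho_zero, volume_closedBall_eq _ (by norm_num : (0 : ℝ) ≤ 1 / 2),
      ENNReal.mul_le_mul_iff_left volume_unit_pos volume_unit_lt_top] at h2
    exact (ENNReal.ofReal_le_ofReal_iff (by positivity)).1 h2
  · right
    have h2 := measure_mono (μ := volume) h1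
    rw [hv1, volume_shell,
      ENNReal.mul_le_mul_iff_left volume_unit_pos volume_unit_lt_top] at h2
    have h7 : (0 : ℝ) ≤ 1 - (1 / 2) ^ (n * 2) := by
      have : ((1 : ℝ) / 2) ^ (n * 2) ≤ 1 := pow_le_one₀ (by norm_num) (by norm_num)
      linarith
    exact (ENNReal.ofReal_le_ofReal_iff h7).1 h2

/-- matching spheres have matching radii -/
lemma radius_match {l : ℝ} (hl : 0 < l) {H : E n ≃ₜ E n} (hv : VolScale n l H) {i j : ℕ}
    (h1 : H.symm '' (sphere 0 (rho i)) = sphere 0 (rho j))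
    (h2 : H.symm '' (ball 0 (rho i)) = ball 0 (rho j)) : rho i = l * rho j := by
  have h3 : H '' (closedBall 0 (rho j)) = closedBall 0 (rho i) := by
    rw [← ball_union_sphere, ← h1, ← h2, ← Set.image_union, ball_union_sphere,
      ← Set.image_comp]
    simp
  have h4 := hv _ (isCompact_closedBall (0 : E n) (rho j))
  rw [h3, volume_closedBall_eq _ (rho_pos i).le, volume_closedBall_eq _ (rho_pos j).le,
    ← mul_assoc, ← ENNReal.ofReal_mul (by positivity), ← mul_pow] at h4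
  have h5 := (ENNReal.mul_left_inj volume_unit_pos volume_unit_lt_top).1 h4
  have h6 : rho i ^ (n * 2) = (l * rho j) ^ (n * 2) := by
    have := rho_pos i
    have := rho_pos j
    exact (ENNReal.ofReal_eq_ofReal_iff (by positivity) (by positivity)).1 h5
  exact (pow_left_inj₀ (rho_pos i).le (mul_pos hl (rho_pos j)).le two_n_ne).1 h6

/-- the core of the rigidity statement -/
lemma rigid_core {l : ℝ} (hl : 0 < l) {H : E n ≃ₜ E n} (hv : VolScale n l H)
    (hHT : ∀ z ∈ T0 n, H z ∈ T0 n)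
    (hcon : ¬ (l ^ (n * 2) ≤ (1 / 2) ^ (n * 2) ∨ l ^ (n * 2) ≤ 1 - (1 / 2) ^ (n * 2))) :
    l = 1 ∧ ∀ i, H.symm '' (sphere 0 (rho i)) = sphere 0 (rho i) := by
  have hHB : ∀ z ∈ closedBall (0 : E n) 1, H z ∈ closedBall (0 : E n) 1 := by
    intro z hz
    rw [← closure_T0] at hz
    have h1 : H z ∈ closure (ball (0 : E n) 1) :=
      map_mem_closure H.continuous hz fun w hw => T0_subset_ball (hHT w hw)
    exact closure_ball_subset_closedBall h1
  obtain ⟨z, hz1, hz0, hz2⟩ : ∃ z : E n, ‖z‖ < 1 ∧ z ≠ 0 ∧ ‖H z‖ = rho 0 := by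
    by_contra hno
    push Not at hno
    refine hcon (vol_dichotomy hv fun z hz hz0 => ⟨?_, hno z hz hz0⟩)
    have := hHB z (by rw [mem_closedBall, dist_zero_right]; exact hz.le)
    simpa using this
  have hk : ∀ i, ∀ x ∈ sphere (0 : E n) (rho i), H.symm x ∉ T0 n := by
    intro i x hx hx'
    have h1 := hHT _ hx'
    rw [Homeomorph.apply_symm_apply] at h1
    exact h1.2.2 i (mem_sphere_zero_iff_norm.1 hx)
  obtain ⟨j, hj1, hj2⟩ := sphere_match H.symm (rho_pos 0) (hk 0)
    ⟨H z, mem_sphere_zero_iff_norm.2 hz2, by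
      rw [Homeomorph.symm_apply_apply]; exact ⟨by simpa using hz1, hz0⟩⟩
  have hl1 : l ≤ 1 := by
    have h1 : H '' (closedBall 0 1) ⊆ closedBall (0 : E n) 1 := by
      rintro _ ⟨z, hz, rfl⟩
      exact hHB z hz
    have h2 := measure_mono (μ := volume) h1
    rw [hv _ (isCompact_closedBall (0 : E n) 1)] at h2
    have h3 : volume (closedBall (0 : E n) 1)
        = ENNReal.ofReal (1 ^ (n * 2)) * volume (closedBall (0 : E n) 1) := by simp
    rw [h3, ← mul_assoc, ENNReal.mul_le_mul_iff_left volume_unit_pos volume_unit_lt_top] at h2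
    rw [← ENNReal.ofReal_mul (by positivity), one_pow, mul_one] at h2
    have h4 := (ENNReal.ofReal_le_ofReal_iff zero_le_one).1 h2
    exact (pow_le_one_iff_of_nonneg hl.le two_n_ne).1 h4
  have hj0 : j = 0 := by
    have h1 := radius_match hl hv hj1 hj2
    by_contra hne
    have h2 := rho_strictAnti (Nat.pos_of_ne_zero hne)
    have := rho_pos j
    nlinarith
  subst hj0
  have hleq : l = 1 := by
    have h1 := radius_match hl hv hj1 hj2
    have := rho_pos 0
    nlinarith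
  refine ⟨hleq, fun i => ?_⟩
  rcases Nat.eq_zero_or_pos i with h0 | h0
  · rw [h0]; exact hj1
  · obtain ⟨u, hu⟩ := exists_unit (n := n)
    have hex : ∃ x ∈ sphere (0 : E n) (rho i), H.symm x ∈ ball (0 : E n) 1 ∧ H.symm x ≠ 0 := by
      have hb : ∀ x ∈ sphere (0 : E n) (rho i), H.symm x ∈ ball (0 : E n) 1 := by
        intro x hx
        have h1 : x ∈ ball (0 : E n) (rho 0) := by
          rw [mem_ball, dist_zero_right, mem_sphere_zero_iff_norm.1 hx]
          exact rho_strictAnti h0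
        have h2 : H.symm x ∈ ball (0 : E n) (rho 0) := by
          rw [← hj2]; exact Set.mem_image_of_mem _ h1
        exact ball_subset_ball (rho_lt_one 0).le h2
      have hx1 : rho i • u ∈ sphere (0 : E n) (rho i) := by
        rw [mem_sphere_zero_iff_norm, norm_smul, hu, mul_one,
          Real.norm_of_nonneg (rho_pos i).le]
      have hx2 : -(rho i • u) ∈ sphere (0 : E n) (rho i) := by
        rw [mem_sphere_zero_iff_norm, norm_neg, norm_smul, hu, mul_one,
          Real.norm_of_nonneg (rho_pos i).le]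
      by_cases h3 : H.symm (rho i • u) = 0
      · refine ⟨_, hx2, hb _ hx2, fun h4 => ?_⟩
        have h5 := H.symm.injective (h3.trans h4.symm)
        have h6 : rho i • u = 0 := by
          have h8 : (2 : ℝ) • (rho i • u) = 0 := by
            rw [two_smul]; exact eq_neg_iff_add_eq_zero.1 h5
          exact (smul_eq_zero.1 h8).resolve_left two_ne_zero
        have h7 := mem_sphere_zero_iff_norm.1 hx1
        rw [h6, norm_zero] at h7
        have := rho_pos i
        linarith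
      · exact ⟨_, hx1, hb _ hx1, h3⟩
    obtain ⟨j, hj3, hj4⟩ := sphere_match H.symm (rho_pos i) (hk i) hex
    have h1 := radius_match hl hv hj3 hj4
    rw [hleq, one_mul] at h1
    have h2 := rho_strictAnti.injective h1
    rw [hj3, ← h2]

/-- the rigidity statement: large scaled models do not fit in the image of the model set -/
lemma rigidity (hβ : DenseRange β) {l : ℝ} (hl : 0 < l) {T : Set (E n)} (hT : T ∈ cls (Phi β))
    (h : l • T ⊆ Phi β '' T0 n) :
    l ^ (n * 2) ≤ (1 / 2) ^ (n * 2) ∨ l ^ (n * 2) ≤ 1 - (1 / 2) ^ (n * 2) := by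
  have hΦ := approx_Phi β
  have hΦ' := approx_Phi_symm β
  have hmem : ∀ (g : E n ≃ₜ E n) (z : E n), l • g z ∈ Phi β '' T0 n →
      scaled l hl.ne' g (Phi β).symm z ∈ T0 n := by
    rintro g z ⟨w, hw, hwz⟩
    rw [scaled_apply, ← hwz, Homeomorph.symm_apply_apply]
    exact hw
  rcases hT with ⟨ψ, hψ, rfl⟩ | ⟨g, hg, rfl⟩
  · have hv : VolScale n l (scaled l hl.ne' ψ (Phi β).symm) := fun K hK =>
      volume_scaled (F := (Phi β).symm) hψ.isApprox hψ.symm.isApprox hΦ' hΦ hl hK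
    refine vol_dichotomy hv fun z hz _ => ?_
    have h1 := hmem ψ z (h (Set.smul_mem_smul_set (Set.mem_image_of_mem ψ (by
      rw [mem_closedBall, dist_zero_right]; exact hz.le))))
    exact ⟨h1.1.le, h1.2.2 0⟩
  · obtain ⟨hga, hga'⟩ := hg.isApprox hΦ hΦ'
    by_contra hcon
    have hv : VolScale n l (scaled l hl.ne' g (Phi β).symm) := fun K hK =>
      volume_scaled (F := (Phi β).symm) hga hga' hΦ' hΦ hl hK
    have hHT : ∀ z ∈ T0 n, scaled l hl.ne' g (Phi β).symm z ∈ T0 n := fun z hz =>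
      hmem g z (h (Set.smul_mem_smul_set (Set.mem_image_of_mem g hz)))
    obtain ⟨hleq, hall⟩ := rigid_core hl hv hHT hcon
    refine not_match hβ hg.germProp fun i => ?_
    have h1 : scaled l hl.ne' g (Phi β).symm '' (sphere 0 (rho i)) = sphere 0 (rho i) := by
      conv_lhs => rw [← hall i]
      rw [← Set.image_comp]; simp
    rw [scaled_image] at h1
    have h4 : l • (g '' sphere (0 : E n) (rho i)) = g '' sphere (0 : E n) (rho i) := by
      rw [hleq, one_smul]
    rw [h4] at h1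
    have h2 : Phi β '' ((Phi β).symm '' (g '' sphere (0 : E n) (rho i)))
        = Phi β '' sphere 0 (rho i) := by rw [h1]
    rw [← Set.image_comp] at h2
    have h3 : (⇑(Phi β) ∘ ⇑(Phi β).symm) = id := by ext1 x; simp
    rw [h3, Set.image_id] at h2
    exact h2

lemma strict_drop (hβ : DenseRange β) :
    classCap (cls (Phi β)) (Phi β '' T0 n) < classCap (cls (Phi β)) (T0 n) := by
  have h1 : ENNReal.ofReal (Real.pi * 1 ^ 2) ≤ classCap (cls (Phi β)) (T0 n) := by
    refine le_classCap one_pos (T := T0 n)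
      (Or.inr ⟨Homeomorph.refl _, Gen.symp _ isSymp_refl, by simp⟩) ?_
    rw [one_smul]
  -- a bound smaller than one
  have hq0 : max (((1 : ℝ) / 2) ^ (n * 2)) (1 - (1 / 2) ^ (n * 2)) < 1 := by
    refine max_lt ?_ ?_
    · exact pow_lt_one₀ (by norm_num) (by norm_num) two_n_ne
    · have : (0 : ℝ) < (1 / 2) ^ (n * 2) := by positivity
      linarith
  obtain ⟨q, hq1, hq2, hq3⟩ : ∃ q : ℝ, 0 < q ∧ q < 1 ∧
      max (((1 : ℝ) / 2) ^ (n * 2)) (1 - (1 / 2) ^ (n * 2)) < q ^ n := by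
    have h2 : Tendsto (fun q : ℝ => q ^ n) (𝓝[<] 1) (𝓝 (1 ^ n)) :=
      ((continuous_pow n).tendsto 1).mono_left nhdsWithin_le_nhds
    rw [one_pow] at h2
    have h3 := h2.eventually_const_lt hq0
    have h4 : ∀ᶠ q : ℝ in 𝓝[<] 1, 0 < q := nhdsWithin_le_nhds (lt_mem_nhds one_pos)
    have h5 : ∀ᶠ q : ℝ in 𝓝[<] 1, q < 1 := self_mem_nhdsWithin
    obtain ⟨q, h6, h7, h8⟩ := (h3.and (h4.and h5)).exists
    exact ⟨q, h7, h8, h6⟩
  have h2 : classCap (cls (Phi β)) (Phi β '' T0 n) ≤ ENNReal.ofReal (Real.pi * q) := by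
    refine classCap_le fun l T hl hT hs => ?_
    have h3 : l ^ (n * 2) ≤ max (((1 : ℝ) / 2) ^ (n * 2)) (1 - (1 / 2) ^ (n * 2)) := by
      rcases rigidity β hβ hl hT hs with h4 | h4
      · exact h4.trans (le_max_left _ _)
      · exact h4.trans (le_max_right _ _)
    have h4 : (l ^ 2) ^ n < q ^ n := by
      rw [← pow_mul, mul_comm]; exact h3.trans_lt hq3
    have h5 : l ^ 2 < q := lt_of_pow_lt_pow_left₀ n hq1.le h4
    gcongr
  refine h2.trans_lt (lt_of_lt_of_le ?_ h1)
  rw [one_pow, mul_one]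
  refine (ENNReal.ofReal_lt_ofReal_iff Real.pi_pos).2 ?_
  nlinarith [Real.pi_pos]

end Final

theorem main (n : ℕ) [NeZero n] (hn : NonSqueezing n) :
    ∃ (c : Set (E n) → ℝ≥0∞) (φ : E n ≃ₜ E n) (V : Set (E n)),
      IsNormalisedCapacity c ∧ IsUniformLimitOfSymplectomorphisms φ ∧
      PreservesSmallOpenSets c φ ∧ IsOpen V ∧ Bornology.IsBounded V ∧ c (φ '' V) < c V := by
  have hne : Nonempty (S n) := by
    obtain ⟨u, hu⟩ := exists_unit (n := n)
    exact ⟨⟨u, mem_sphere_zero_iff_norm.2 hu⟩⟩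
  set β : ℕ → S n := TopologicalSpace.denseSeq (S n) with hβdef
  have hβ : DenseRange β := TopologicalSpace.denseRange_denseSeq (S n)
  refine ⟨classCap (cls (Phi β)), Phi β, T0 n, ?_, phi_uniformLimit _ _, preserves_small β,
    isOpen_T0, isBounded_ball.subset T0_subset_ball, strict_drop β hβ⟩
  exact classCap_isNormalised cls_image cls_ball
    (cls_cylinder hn (approx_Phi β) (approx_Phi_symm β))

end Pool.Agent.H68.Cap
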