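import Pool.Agent.H68.CapClass

open scoped ENNReal ContDiff Pointwise RealInnerProductSpace Topology
open Filter

namespace Pool.Agent.H68.Cap

variable {n : ℕ}

/-! ### The radii -/

/-- the radii of the spheres -/
noncomputable def rho (j : ℕ) : ℝ := 1 / ((j + 2).factorial : ℝ)

/-- the relative sizes of the twisted balls -/
noncomputable def del (j : ℕ) : ℝ := 1 / (4 * ((j : ℝ) + 1))

lemma rho_pos (j : ℕ) : 0 < rho j := by
  unfold rho; positivity

lemma rho_succ (j : ℕ) : rho (j + 1) = rho j / ((j : ℝ) + 3) := by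
  unfold rho
  have : ((j + 1 + 2).factorial : ℝ) = ((j : ℝ) + 3) * ((j + 2).factorial : ℝ) := by
    rw [show j + 1 + 2 = (j + 2) + 1 from rfl, Nat.factorial_succ]
    push_cast; ring
  rw [this]
  have h1 : ((j + 2).factorial : ℝ) ≠ 0 := by positivity
  have h2 : (j : ℝ) + 3 ≠ 0 := by positivity
  field_simp

lemma rho_zero : rho 0 = 1 / 2 := by
  simp [rho]

lemma rho_succ_le (j : ℕ) : rho (j + 1) ≤ rho j / 3 := by
  rw [rho_succ]
  have := rho_pos j
  gcongr
  linarith [(Nat.cast_nonneg j : (0 : ℝ) ≤ j)]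

lemma rho_succ_lt (j : ℕ) : rho (j + 1) < rho j := by
  have := rho_succ_le j
  have := rho_pos j
  linarith

lemma rho_strictAnti : StrictAnti rho := strictAnti_nat_of_succ_lt rho_succ_lt

lemma rho_le_of_lt {i j : ℕ} (h : i < j) : rho j ≤ rho i / 3 :=
  (rho_strictAnti.antitone (Nat.succ_le_of_lt h)).trans (rho_succ_le i)

lemma rho_le_half (j : ℕ) : rho j ≤ 1 / 2 := by
  rw [← rho_zero]; exact rho_strictAnti.antitone (Nat.zero_le j)

lemma rho_lt_one (j : ℕ) : rho j < 1 := by
  have := rho_le_half j; linarith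

lemma del_pos (j : ℕ) : 0 < del j := by unfold del; positivity

lemma del_le (j : ℕ) : del j ≤ 1 / 4 := by
  unfold del
  have : (0 : ℝ) ≤ j := Nat.cast_nonneg j
  rw [div_le_div_iff₀ (by positivity) (by norm_num)]
  linarith

lemma tendsto_del : Tendsto del atTop (𝓝 0) := by
  have h : Tendsto (fun j : ℕ => (1 / 4 : ℝ) * (1 / ((j : ℝ) + 1))) atTop (𝓝 ((1 / 4) * 0)) :=
    tendsto_one_div_add_atTop_nhds_zero_nat.const_mul _
  rw [mul_zero] at h
  refine h.congr fun j => ?_
  unfold del
  have : (j : ℝ) + 1 ≠ 0 := by positivity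
  field_simp

lemma tendsto_rho : Tendsto rho atTop (𝓝 0) := by
  have h0 : ∀ j : ℕ, rho j ≤ 1 / ((j : ℝ) + 1) := by
    intro j
    unfold rho
    have : (j + 1 : ℕ) ≤ (j + 2).factorial :=
      (Nat.le_succ _).trans (Nat.self_le_factorial (j + 2))
    have h2 : ((j : ℝ) + 1) ≤ ((j + 2).factorial : ℝ) := by exact_mod_cast this
    exact one_div_le_one_div_of_le (by positivity) h2
  exact squeeze_zero (fun j => (rho_pos j).le) h0 tendsto_one_div_add_atTop_nhds_zero_nat

/-- two radii windows do not overlap -/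
lemma window_unique {i j : ℕ} {x : ℝ} (h1 : 3 / 4 * rho i < x) (h2 : x < 5 / 4 * rho i)
    (h3 : 3 / 4 * rho j < x) (h4 : x < 5 / 4 * rho j) : i = j := by
  rcases lt_trichotomy i j with h | h | h
  · have := rho_le_of_lt h
    have := rho_pos i
    linarith
  · exact h
  · have := rho_le_of_lt h
    have := rho_pos j
    linarith

/-! ### The local twists -/

/-- the angle function, equal to `π/2` for `t ≤ r²/4` and to `0` for `t ≥ r²` -/
noncomputable def ang (r : ℝ) (t : ℝ) : ℝ :=
  Real.pi / 2 * Real.smoothTransition ((4 / 3) * (1 - t / r ^ 2))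

lemma ang_contDiff (r s : ℝ) : ContDiff ℝ ∞ (fun t => s * ang r t) := by
  unfold ang
  have h : ContDiff ℝ ∞ (fun t : ℝ => (4 / 3) * (1 - t / r ^ 2)) := by fun_prop
  exact contDiff_const.mul (contDiff_const.mul (Real.smoothTransition.contDiff.comp h))

lemma ang_of_ge {r t : ℝ} (hr : 0 < r) (h : r ^ 2 ≤ t) : ang r t = 0 := by
  unfold ang
  rw [Real.smoothTransition.zero_of_nonpos, mul_zero]
  have : 1 ≤ t / r ^ 2 := by rw [le_div_iff₀ (by positivity)]; linarith
  linarith

lemma ang_of_le {r t : ℝ} (hr : 0 < r) (h : t ≤ r ^ 2 / 4) : ang r t = Real.pi / 2 := by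
  unfold ang
  rw [Real.smoothTransition.one_of_one_le, mul_one]
  have : t / r ^ 2 ≤ 1 / 4 := by rw [div_le_iff₀ (by positivity)]; linarith
  linarith

/-- twist by `s` times the quarter turn, supported in the ball of centre `c` and radius `r` -/
noncomputable def tau (c : E n) (r s : ℝ) : E n ≃ₜ E n :=
  ((Homeomorph.addRight (-c)).trans (twist (fun t => s * ang r t) (ang_contDiff r s))).trans
    (Homeomorph.addRight c)

lemma tau_apply (c : E n) (r s : ℝ) (z : E n) :
    tau c r s z = rot (s * ang r (‖z - c‖ ^ 2)) (z - c) + c := by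
  have : tau c r s z = twistFun (fun t => s * ang r t) (z + -c) + c := rfl
  rw [this, ← sub_eq_add_neg]; rfl

lemma isSymp_tau (c : E n) (r s : ℝ) : IsSymplectomorphism (tau c r s) :=
  ((isSymp_addRight _).trans (isSymp_twist _ _)).trans (isSymp_addRight _)

lemma tau_of_ge (c : E n) {r : ℝ} (hr : 0 < r) (s : ℝ) {z : E n} (h : r ≤ ‖z - c‖) :
    tau c r s z = z := by
  rw [tau_apply, ang_of_ge hr (by gcongr)]
  simp

lemma norm_tau_sub (c : E n) (r s : ℝ) (z : E n) : ‖tau c r s z - c‖ = ‖z - c‖ := by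
  rw [tau_apply, add_sub_cancel_right, norm_rot]

lemma tau_neg_tau (c : E n) (r s : ℝ) (z : E n) : tau c r (-s) (tau c r s z) = z := by
  rw [tau_apply c r (-s), norm_tau_sub, tau_apply, add_sub_cancel_right, rot_rot]
  simp

lemma tau_one_of_le (c : E n) {r : ℝ} (hr : 0 < r) {z : E n} (h : ‖z - c‖ ≤ r / 2) :
    tau c r 1 z = J n (z - c) + c := by
  rw [tau_apply, ang_of_le hr]
  · simp [rot]
  · have : ‖z - c‖ ^ 2 ≤ (r / 2) ^ 2 := by gcongr
    nlinarith

/-! ### The homeomorphism -/

section Phi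

variable (b : ℕ → E n)

/-- centre of the j-th ball -/
noncomputable def ctr (j : ℕ) : E n := rho j • b j

/-- radius of the j-th ball -/
noncomputable def rad (j : ℕ) : ℝ := del j * rho j

lemma rad_pos (j : ℕ) : 0 < rad j := mul_pos (del_pos j) (rho_pos j)

lemma rad_le (j : ℕ) : rad j ≤ rho j / 4 := by
  unfold rad
  have := del_le j
  have := rho_pos j
  nlinarith

variable {b}

lemma norm_ctr (hb : ∀ j, ‖b j‖ = 1) (j : ℕ) : ‖ctr b j‖ = rho j := by
  rw [ctr, norm_smul, hb, mul_one, Real.norm_of_nonneg (rho_pos j).le]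

lemma norm_of_near (hb : ∀ j, ‖b j‖ = 1) {j : ℕ} {z : E n} (h : ‖z - ctr b j‖ < rad j) :
    3 / 4 * rho j < ‖z‖ ∧ ‖z‖ < 5 / 4 * rho j := by
  have h1 := norm_ctr hb j
  have h2 := rad_le j
  have h3 : ‖ctr b j‖ ≤ ‖z‖ + ‖z - ctr b j‖ := by
    have := norm_sub_norm_le (ctr b j) z
    rw [norm_sub_rev] at this
    linarith
  have h4 : ‖z‖ ≤ ‖ctr b j‖ + ‖z - ctr b j‖ := by
    have := norm_sub_norm_le z (ctr b j)
    linarith
  constructor <;> linarith

lemma near_unique (hb : ∀ j, ‖b j‖ = 1) {i j : ℕ} {z : E n} (hi : ‖z - ctr b i‖ < rad i)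
    (hj : ‖z - ctr b j‖ < rad j) : i = j :=
  window_unique (norm_of_near hb hi).1 (norm_of_near hb hi).2 (norm_of_near hb hj).1
    (norm_of_near hb hj).2

variable (b)

open Classical in
/-- the glued map -/
noncomputable def phiFun (s : ℝ) (z : E n) : E n :=
  if h : ∃ j, ‖z - ctr b j‖ < rad j then tau (ctr b h.choose) (rad h.choose) s z else z

variable {b}

lemma phiFun_of_near (hb : ∀ j, ‖b j‖ = 1) (s : ℝ) {j : ℕ} {z : E n}
    (h : ‖z - ctr b j‖ < rad j) : phiFun b s z = tau (ctr b j) (rad j) s z := by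
  have h' : ∃ j, ‖z - ctr b j‖ < rad j := ⟨j, h⟩
  have : h'.choose = j := near_unique hb h'.choose_spec h
  rw [phiFun, dif_pos h', this]

lemma phiFun_of_far (s : ℝ) {z : E n} (h : ∀ j, rad j ≤ ‖z - ctr b j‖) :
    phiFun b s z = z := by
  rw [phiFun, dif_neg]
  push Not
  exact h

/-- on the j-th window, the glued map is the j-th twist -/
lemma phiFun_eq_tau (hb : ∀ j, ‖b j‖ = 1) (s : ℝ) {j : ℕ} {z : E n}
    (h1 : 5 / 4 * rho (j + 1) ≤ ‖z‖) (h2 : ∀ i, i < j → ‖z‖ ≤ 3 / 4 * rho i) :
    phiFun b s z = tau (ctr b j) (rad j) s z := by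
  by_cases h : ‖z - ctr b j‖ < rad j
  · exact phiFun_of_near hb s h
  · push Not at h
    rw [tau_of_ge _ (rad_pos j) s h]
    refine phiFun_of_far s fun i => ?_
    by_contra hi
    push Not at hi
    have h3 := norm_of_near hb hi
    rcases lt_trichotomy i j with h4 | h4 | h4
    · linarith [h2 i h4, h3.1]
    · subst h4; linarith
    · have : rho i ≤ rho (j + 1) := rho_strictAnti.antitone (Nat.succ_le_of_lt h4)
      linarith [h3.2]

/-- near any nonzero point the glued map is one of the twists -/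
lemma exists_eventually_eq_tau (hb : ∀ j, ‖b j‖ = 1) (s : ℝ) {p : E n} (hp : p ≠ 0) :
    ∃ j, ∀ᶠ z in 𝓝 p, phiFun b s z = tau (ctr b j) (rad j) s z := by
  have hex : ∃ j, 5 / 4 * rho (j + 1) < ‖p‖ := by
    have h1 : Tendsto (fun j => 5 / 4 * rho (j + 1)) atTop (𝓝 (5 / 4 * 0)) :=
      ((tendsto_add_atTop_iff_nat 1).2 tendsto_rho).const_mul _
    rw [mul_zero] at h1
    exact (h1.eventually_lt_const (norm_pos_iff.2 hp)).exists
  classical
  set j := Nat.find hex with hj
  have h1 : 5 / 4 * rho (j + 1) < ‖p‖ := Nat.find_spec hex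
  have h2 : ∀ i, i < j → ‖p‖ < 3 / 4 * rho i := by
    intro i hi
    have h3 := Nat.find_min hex hi
    push Not at h3
    have := rho_succ_le i
    have := rho_pos i
    linarith
  refine ⟨j, ?_⟩
  have h3 : ∀ᶠ z : E n in 𝓝 p, 5 / 4 * rho (j + 1) < ‖z‖ :=
    (continuous_norm.tendsto p).eventually_const_lt h1
  have h4 : ∀ᶠ z : E n in 𝓝 p, ∀ i ∈ Finset.range j, ‖z‖ < 3 / 4 * rho i := by
    rw [Filter.eventually_all_finset]
    intro i hi
    exact (continuous_norm.tendsto p).eventually_lt_const (h2 i (Finset.mem_range.1 hi))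
  filter_upwards [h3, h4] with z h5 h6
  exact phiFun_eq_tau hb s h5.le fun i hi => (h6 i (Finset.mem_range.2 hi)).le

lemma phiFun_zero (hb : ∀ j, ‖b j‖ = 1) (s : ℝ) : phiFun b s 0 = 0 := by
  refine phiFun_of_far s fun j => ?_
  rw [zero_sub, norm_neg, norm_ctr hb]
  have := rad_le j
  have := rho_pos j
  linarith

lemma norm_phiFun_le (hb : ∀ j, ‖b j‖ = 1) (s : ℝ) (z : E n) : ‖phiFun b s z‖ ≤ 2 * ‖z‖ := by
  by_cases h : ∃ j, ‖z - ctr b j‖ < rad j
  · obtain ⟨j, hj⟩ := h
    rw [phiFun_of_near hb s hj]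
    have h1 : ‖tau (ctr b j) (rad j) s z - ctr b j‖ < rad j := by rw [norm_tau_sub]; exact hj
    have h2 := norm_of_near hb h1
    have h3 := norm_of_near hb hj
    have := rho_pos j
    linarith
  · push Not at h
    rw [phiFun_of_far s h]
    linarith [norm_nonneg z]

lemma continuous_phiFun (hb : ∀ j, ‖b j‖ = 1) (s : ℝ) : Continuous (phiFun b s) := by
  rw [continuous_iff_continuousAt]
  intro p
  by_cases hp : p = 0
  · subst hp
    rw [ContinuousAt, phiFun_zero hb]
    refine squeeze_zero_norm (norm_phiFun_le hb s) ?_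
    have : Tendsto (fun z : E n => 2 * ‖z‖) (𝓝 0) (𝓝 (2 * ‖(0 : E n)‖)) :=
      (continuous_norm.tendsto 0).const_mul 2
    simpa using this
  · obtain ⟨j, hj⟩ := exists_eventually_eq_tau hb s hp
    exact ((tau (ctr b j) (rad j) s).continuous.continuousAt).congr (hj.mono fun z hz => hz.symm)

lemma phiFun_neg_phiFun (hb : ∀ j, ‖b j‖ = 1) (s : ℝ) (z : E n) :
    phiFun b (-s) (phiFun b s z) = z := by
  by_cases h : ∃ j, ‖z - ctr b j‖ < rad j
  · obtain ⟨j, hj⟩ := h
    rw [phiFun_of_near hb s hj]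
    have h1 : ‖tau (ctr b j) (rad j) s z - ctr b j‖ < rad j := by rw [norm_tau_sub]; exact hj
    rw [phiFun_of_near hb (-s) h1, tau_neg_tau]
  · push Not at h
    rw [phiFun_of_far s h, phiFun_of_far (-s) h]

/-- the homeomorphism -/
noncomputable def phi (hb : ∀ j, ‖b j‖ = 1) (s : ℝ) : E n ≃ₜ E n where
  toFun := phiFun b s
  invFun := phiFun b (-s)
  left_inv := phiFun_neg_phiFun hb s
  right_inv := by
    intro z
    have := phiFun_neg_phiFun hb (-s) z
    rwa [neg_neg] at this
  continuous_toFun := continuous_phiFun hb s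
  continuous_invFun := continuous_phiFun hb (-s)

lemma coe_phi (hb : ∀ j, ‖b j‖ = 1) (s : ℝ) : (⇑(phi hb s)) = phiFun b s := rfl

lemma phi_symm (hb : ∀ j, ‖b j‖ = 1) (s : ℝ) : (phi hb s).symm = phi hb (-s) := by
  ext1 z; rfl

/-! ### Approximation by symplectomorphisms -/

/-- finite compositions of the twists -/
noncomputable def phiN (b : ℕ → E n) (s : ℝ) : ℕ → (E n ≃ₜ E n)
  | 0 => Homeomorph.refl _
  | N + 1 => (phiN b s N).trans (tau (ctr b N) (rad N) s)

lemma isSymp_phiN (b : ℕ → E n) (s : ℝ) (N : ℕ) : IsSymplectomorphism (phiN b s N) := by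
  induction N with
  | zero => exact isSymp_refl
  | succ N ih => exact ih.trans (isSymp_tau _ _ _)

lemma phiN_apply (hb : ∀ j, ‖b j‖ = 1) (s : ℝ) (N : ℕ) (z : E n) :
    (∀ j, j < N → ‖z - ctr b j‖ < rad j → phiN b s N z = tau (ctr b j) (rad j) s z) ∧
    ((∀ j, j < N → rad j ≤ ‖z - ctr b j‖) → phiN b s N z = z) := by
  induction N with
  | zero => exact ⟨fun j hj => absurd hj (Nat.not_lt_zero j), fun _ => rfl⟩
  | succ N ih =>
    have hsucc : phiN b s (N + 1) z = tau (ctr b N) (rad N) s (phiN b s N z) := rfl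
    constructor
    · intro j hj hz
      rw [hsucc]
      rcases Nat.lt_succ_iff_lt_or_eq.1 hj with h | h
      · rw [ih.1 j h hz]
        refine tau_of_ge _ (rad_pos N) s ?_
        by_contra hcon
        push Not at hcon
        have h1 : ‖tau (ctr b j) (rad j) s z - ctr b j‖ < rad j := by rw [norm_tau_sub]; exact hz
        have := near_unique hb h1 hcon
        omega
      · subst h
        rw [ih.2]
        intro i hi
        by_contra hcon
        push Not at hcon
        have := near_unique hb hz hcon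
        omega
    · intro h
      rw [hsucc, ih.2 fun j hj => h j (Nat.lt_succ_of_lt hj)]
      exact tau_of_ge _ (rad_pos N) s (h N (Nat.lt_succ_self N))

lemma dist_phiN_phi (hb : ∀ j, ‖b j‖ = 1) (s : ℝ) (N : ℕ) (z : E n) :
    dist (phiN b s N z) (phi hb s z) ≤ 2 * rho N := by
  rw [coe_phi]
  have hN := rho_pos N
  by_cases h : ∃ j, ‖z - ctr b j‖ < rad j
  · obtain ⟨j, hj⟩ := h
    rw [phiFun_of_near hb s hj]
    by_cases hjN : j < N
    · rw [(phiN_apply hb s N z).1 j hjN hj, dist_self]; positivity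
    · rw [(phiN_apply hb s N z).2]
      · have h1 : dist z (ctr b j) < rad j := by rw [dist_eq_norm]; exact hj
        have h2 : dist (tau (ctr b j) (rad j) s z) (ctr b j) < rad j := by
          rw [dist_eq_norm, norm_tau_sub]; exact hj
        have h3 := dist_triangle_right z (tau (ctr b j) (rad j) s z) (ctr b j)
        have h4 := rad_le j
        have h5 : rho j ≤ rho N := rho_strictAnti.antitone (not_lt.1 hjN)
        have := rho_pos j
        linarith
      · intro i hi
        by_contra hcon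
        push Not at hcon
        have := near_unique hb hj hcon
        omega
  · push Not at h
    rw [phiFun_of_far s h, (phiN_apply hb s N z).2 fun j _ => h j, dist_self]; positivity

lemma phi_uniformLimit (hb : ∀ j, ‖b j‖ = 1) (s : ℝ) :
    IsUniformLimitOfSymplectomorphisms (phi hb s) := by
  intro ε hε
  have h1 : Tendsto (fun N => 2 * rho N) atTop (𝓝 (2 * 0)) := tendsto_rho.const_mul _
  rw [mul_zero] at h1
  obtain ⟨N, hN⟩ := (h1.eventually_lt_const hε).exists
  exact ⟨phiN b s N, isSymp_phiN b s N, fun z => (dist_phiN_phi hb s N z).trans_lt hN⟩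

end Phi

end Pool.Agent.H68.Cap
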