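import Pool.Agent.H68.CapDefs

open scoped ENNReal ContDiff Pointwise RealInnerProductSpace

namespace Pool.Agent.H68.Cap

variable {n : ℕ}

/-- multiplication by i -/
noncomputable def J (n : ℕ) : E n →L[ℝ] E n :=
  LinearMap.toContinuousLinearMap
    { toFun := fun z => WithLp.toLp 2 (fun p : Fin n × Fin 2 => ![-z (p.1, 1), z (p.1, 0)] p.2)
      map_add' := by
        intro x y; ext ⟨j, k⟩; fin_cases k <;> simp <;> ring
      map_smul' := by
        intro a x; ext ⟨j, k⟩; fin_cases k <;> simp }

@[simp] lemma J_zero_coord (z : E n) (j : Fin n) : J n z (j, 0) = - z (j, 1) := by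
  simp [J]

@[simp] lemma J_one_coord (z : E n) (j : Fin n) : J n z (j, 1) = z (j, 0) := by
  simp [J]

lemma J_J (z : E n) : J n (J n z) = - z := by
  ext ⟨j, k⟩; fin_cases k <;> simp

lemma inner_eq_sum (u v : E n) : ⟪u, v⟫ = ∑ j : Fin n, (u (j, 0) * v (j, 0) + u (j, 1) * v (j, 1)) := by
  rw [PiLp.inner_apply, Fintype.sum_prod_type]
  simp [mul_comm]

lemma inner_J_left (u v : E n) : ⟪J n u, v⟫ = omega u v := by
  rw [inner_eq_sum, omega]
  refine Finset.sum_congr rfl fun j _ => ?_
  simp; ring

lemma inner_J_self (u : E n) : ⟪J n u, u⟫ = 0 := by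
  rw [inner_J_left, omega]
  refine Finset.sum_eq_zero fun j _ => ?_
  ring

lemma inner_J_J (u v : E n) : ⟪J n u, J n v⟫ = ⟪u, v⟫ := by
  rw [inner_eq_sum, inner_eq_sum]
  refine Finset.sum_congr rfl fun j _ => ?_
  simp; ring

lemma norm_J (u : E n) : ‖J n u‖ = ‖u‖ := by
  have h := inner_J_J u u
  rw [real_inner_self_eq_norm_sq, real_inner_self_eq_norm_sq] at h
  exact (sq_eq_sq₀ (norm_nonneg _) (norm_nonneg _)).1 h

lemma omega_self (u : E n) : omega u u = 0 := by
  rw [← inner_J_left, inner_J_self]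

lemma omega_comm (u v : E n) : omega u v = - omega v u := by
  simp only [omega, ← Finset.sum_neg_distrib]
  refine Finset.sum_congr rfl fun j _ => ?_
  ring

lemma omega_add_left (u v w : E n) : omega (u + v) w = omega u w + omega v w := by
  simp only [← inner_J_left, map_add, inner_add_left]

lemma omega_smul_left (a : ℝ) (u v : E n) : omega (a • u) v = a * omega u v := by
  simp only [← inner_J_left, map_smul, inner_smul_left]; simp

lemma omega_add_right (u v w : E n) : omega u (v + w) = omega u v + omega u w := by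
  simp only [← inner_J_left, inner_add_right]

lemma omega_smul_right (a : ℝ) (u v : E n) : omega u (a • v) = a * omega u v := by
  simp only [← inner_J_left, inner_smul_right]

lemma omega_J_J (u v : E n) : omega (J n u) (J n v) = omega u v := by
  rw [← inner_J_left, ← inner_J_left, inner_J_J]

lemma omega_J_left (u v : E n) : omega (J n u) v = - ⟪u, v⟫ := by
  rw [← inner_J_left, J_J, inner_neg_left]

lemma omega_J_right (u v : E n) : omega u (J n v) = ⟪u, v⟫ := by
  rw [← inner_J_left, inner_J_J]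

lemma det_adjoint_eq (L : E n →L[ℝ] E n) : (ContinuousLinearMap.adjoint L).det = L.det := by
  let b := stdOrthonormalBasis ℝ (E n)
  rw [ContinuousLinearMap.det, ContinuousLinearMap.det, ← LinearMap.det_toMatrix b.toBasis,
    ← LinearMap.det_toMatrix b.toBasis]
  have h : LinearMap.toMatrix b.toBasis b.toBasis
      ((ContinuousLinearMap.adjoint L : E n →L[ℝ] E n) : E n →ₗ[ℝ] E n)
      = (LinearMap.toMatrix b.toBasis b.toBasis (L : E n →ₗ[ℝ] E n)).conjTranspose := by
    rw [← LinearMap.toMatrix_adjoint]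
    rfl
  rw [h, Matrix.det_conjTranspose]
  simp

/-- A linear map preserving omega has determinant of absolute value one. -/
lemma abs_det_eq_one (L : E n →L[ℝ] E n) (h : ∀ u v, omega (L u) (L v) = omega u v) :
    |L.det| = 1 := by
  have h1 : (ContinuousLinearMap.adjoint L).comp ((J n).comp L) = J n := by
    ext1 u
    refine ext_inner_right ℝ fun v => ?_
    simp only [ContinuousLinearMap.comp_apply]
    rw [ContinuousLinearMap.adjoint_inner_left, inner_J_left, inner_J_left, h]
  have h2 : (J n).comp (J n) = - ContinuousLinearMap.id ℝ (E n) := by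
    ext1 u; simp [J_J]
  have hJ : (J n).det ≠ 0 := by
    intro h0
    have h3 := congrArg ContinuousLinearMap.det h2
    have h4 : ((J n).comp (J n)).det = (J n).det * (J n).det := by
      simp [ContinuousLinearMap.det, LinearMap.det_comp]
    rw [h4, h0, zero_mul] at h3
    have h5 : (- ContinuousLinearMap.id ℝ (E n)).det ≠ 0 := by
      have : (- ContinuousLinearMap.id ℝ (E n)).det = (-1 : ℝ) ^ Module.finrank ℝ (E n) := by
        have : ((- ContinuousLinearMap.id ℝ (E n) : E n →L[ℝ] E n) : E n →ₗ[ℝ] E n) = (-1 : ℝ) • LinearMap.id := by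
          ext1; simp
        rw [ContinuousLinearMap.det, this, LinearMap.det_smul]; simp
      rw [this]
      exact pow_ne_zero _ (by norm_num)
    exact h5 h3.symm
  have h6 := congrArg ContinuousLinearMap.det h1
  have h7 : ((ContinuousLinearMap.adjoint L).comp ((J n).comp L)).det
      = (ContinuousLinearMap.adjoint L).det * ((J n).det * L.det) := by
    simp [ContinuousLinearMap.det, LinearMap.det_comp]
  have h8 : (ContinuousLinearMap.adjoint L).det = L.det := det_adjoint_eq L
  rw [h7, h8] at h6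
  have h9 : L.det * L.det = 1 := by
    have : (J n).det * (L.det * L.det) = (J n).det * 1 := by linarith
    exact mul_left_cancel₀ hJ this
  have h10 : |L.det| * |L.det| = 1 := by rw [← abs_mul, h9, abs_one]
  nlinarith [abs_nonneg L.det]

/-! ### The group of symplectomorphisms -/

lemma isSymp_refl : IsSymplectomorphism (Homeomorph.refl (E n)) where
  contDiff := contDiff_id
  contDiff_symm := contDiff_id
  omega_fderiv := by
    intro z u v
    have : (⇑(Homeomorph.refl (E n))) = id := rfl
    rw [this, fderiv_id]; rfl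

lemma IsSymplectomorphism.trans {f g : E n ≃ₜ E n} (hf : IsSymplectomorphism f)
    (hg : IsSymplectomorphism g) : IsSymplectomorphism (f.trans g) where
  contDiff := hg.contDiff.comp hf.contDiff
  contDiff_symm := hf.contDiff_symm.comp hg.contDiff_symm
  omega_fderiv := by
    intro z u v
    have h1 : fderiv ℝ (⇑(f.trans g)) z = (fderiv ℝ g (f z)).comp (fderiv ℝ f z) := by
      have := fderiv_comp z (hg.contDiff.differentiable (by simp) (f z))
        (hf.contDiff.differentiable (by simp) z)
      exact this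
    rw [h1]
    simp only [ContinuousLinearMap.comp_apply]
    rw [hg.omega_fderiv, hf.omega_fderiv]

lemma IsSymplectomorphism.symm {f : E n ≃ₜ E n} (hf : IsSymplectomorphism f) :
    IsSymplectomorphism f.symm where
  contDiff := hf.contDiff_symm
  contDiff_symm := hf.contDiff
  omega_fderiv := by
    intro z u v
    have h1 : (fderiv ℝ f (f.symm z)).comp (fderiv ℝ f.symm z) = ContinuousLinearMap.id ℝ (E n) := by
      have := fderiv_comp z (hf.contDiff.differentiable (by simp) (f.symm z))
        (hf.contDiff_symm.differentiable (by simp) z)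
      rw [← this]
      have h2 : (⇑f ∘ ⇑f.symm) = id := by ext1 x; simp
      rw [h2, fderiv_id]
    have h2 : ∀ w, fderiv ℝ f (f.symm z) (fderiv ℝ f.symm z w) = w := fun w => by
      rw [← ContinuousLinearMap.comp_apply, h1]; rfl
    rw [← hf.omega_fderiv (f.symm z), h2, h2]

lemma isSymp_addRight (a : E n) : IsSymplectomorphism (Homeomorph.addRight a) where
  contDiff := contDiff_id.add contDiff_const
  contDiff_symm := by
    have : (⇑(Homeomorph.addRight a).symm) = fun x => x + (-a) := rfl
    rw [this]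
    exact contDiff_id.add contDiff_const
  omega_fderiv := by
    intro z u v
    have h : fderiv ℝ (⇑(Homeomorph.addRight a)) z = ContinuousLinearMap.id ℝ (E n) := by
      have : (⇑(Homeomorph.addRight a)) = fun x => x + a := rfl
      rw [this, fderiv_add_const, fderiv_fun_id]
    rw [h]; rfl

lemma isSymp_neg : IsSymplectomorphism (Homeomorph.neg (E n)) where
  contDiff := contDiff_neg
  contDiff_symm := contDiff_neg
  omega_fderiv := by
    intro z u v
    have h : fderiv ℝ (⇑(Homeomorph.neg (E n))) z = - ContinuousLinearMap.id ℝ (E n) := by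
      have : (⇑(Homeomorph.neg (E n))) = fun x => - x := rfl
      rw [this, fderiv_fun_neg, fderiv_fun_id]
    rw [h]
    simp [omega]

/-- The zoomed homeomorphism `z ↦ μ⁻¹ φ (μ z)`. -/
noncomputable def zoom (μ : ℝ) (hμ : μ ≠ 0) (φ : E n ≃ₜ E n) : E n ≃ₜ E n :=
  ((Homeomorph.smulOfNeZero μ hμ).trans φ).trans (Homeomorph.smulOfNeZero μ hμ).symm

@[simp] lemma zoom_apply (μ : ℝ) (hμ : μ ≠ 0) (φ : E n ≃ₜ E n) (z : E n) :
    zoom μ hμ φ z = μ⁻¹ • φ (μ • z) := rfl

lemma zoom_symm (μ : ℝ) (hμ : μ ≠ 0) (φ : E n ≃ₜ E n) :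
    (zoom μ hμ φ).symm = zoom μ hμ φ.symm := by
  ext1 z
  rw [Homeomorph.symm_apply_eq]
  simp [smul_smul, hμ]

lemma isSymp_zoom {f : E n ≃ₜ E n} (hf : IsSymplectomorphism f) (μ : ℝ) (hμ : μ ≠ 0) :
    IsSymplectomorphism (zoom μ hμ f) := by
  have key : ∀ {g : E n ≃ₜ E n}, ContDiff ℝ ∞ g → ContDiff ℝ ∞ (zoom μ hμ g) := by
    intro g hg
    have : (⇑(zoom μ hμ g)) = fun z => μ⁻¹ • g (μ • z) := rfl
    rw [this]
    exact (hg.comp (contDiff_const_smul μ)).const_smul μ⁻¹
  refine ⟨key hf.contDiff, ?_, ?_⟩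
  · rw [zoom_symm]; exact key hf.contDiff_symm
  · intro z u v
    have h : ∀ w, fderiv ℝ (⇑(zoom μ hμ f)) z w = fderiv ℝ f (μ • z) w := by
      intro w
      have h1 : HasFDerivAt f (fderiv ℝ f (μ • z)) (μ • z) :=
        (hf.contDiff.differentiable (by simp) (μ • z)).hasFDerivAt
      have h2 : HasFDerivAt (fun z : E n => μ • z) (μ • ContinuousLinearMap.id ℝ (E n)) z :=
        (hasFDerivAt_id z).const_smul μ
      have h3 := (h1.comp z h2).const_smul μ⁻¹
      have h4 : (⇑(zoom μ hμ f)) = (μ⁻¹ • (⇑f ∘ fun z : E n => μ • z)) := rfl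
      rw [h4, h3.fderiv]
      simp [smul_smul, hμ]
    rw [h, h, hf.omega_fderiv]

/-! ### Volume preservation -/

open MeasureTheory

lemma IsSymplectomorphism.volume_image {f : E n ≃ₜ E n} (hf : IsSymplectomorphism f)
    {s : Set (E n)} (hs : MeasurableSet s) : volume (f '' s) = volume s := by
  have h := lintegral_abs_det_fderiv_eq_addHaar_image (volume : Measure (E n)) hs
    (fun x _ => ((hf.contDiff.differentiable (by simp) x).hasFDerivAt).hasFDerivWithinAt)
    (f.injective.injOn)
  rw [← h]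
  have h1 : ∀ x, ENNReal.ofReal |(fderiv ℝ f x).det| = 1 := by
    intro x
    rw [abs_det_eq_one _ (hf.omega_fderiv x)]; simp
  simp [h1]

/-! ### Twist maps -/

/-- rotation by angle θ in each complex coordinate -/
noncomputable def rot (θ : ℝ) (z : E n) : E n := Real.cos θ • z + Real.sin θ • J n z

lemma rot_rot (a b : ℝ) (z : E n) : rot a (rot b z) = rot (a + b) z := by
  simp only [rot, map_add, map_smul, J_J, smul_add, smul_smul, Real.cos_add, Real.sin_add]
  module

@[simp] lemma rot_zero (z : E n) : rot 0 z = z := by simp [rot]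

lemma norm_rot (θ : ℝ) (z : E n) : ‖rot θ z‖ = ‖z‖ := by
  have h : ‖rot θ z‖ ^ 2 = ‖z‖ ^ 2 := by
    rw [← real_inner_self_eq_norm_sq, ← real_inner_self_eq_norm_sq, rot]
    simp only [inner_add_left, inner_add_right, real_inner_smul_left, real_inner_smul_right,
      inner_J_J]
    rw [real_inner_comm (J n z) z, inner_J_self]
    have := Real.sin_sq_add_cos_sq θ
    linear_combination (⟪z, z⟫) * this
  exact (sq_eq_sq₀ (norm_nonneg _) (norm_nonneg _)).1 h

lemma omega_rot (θ : ℝ) (u v : E n) : omega (rot θ u) (rot θ v) = omega u v := by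
  have h1 : omega (rot θ u) (rot θ v) = Real.cos θ * (Real.cos θ * omega u v)
      + Real.cos θ * (Real.sin θ * omega u (J n v)) + (Real.sin θ * (Real.cos θ * omega (J n u) v)
      + Real.sin θ * (Real.sin θ * omega (J n u) (J n v))) := by
    simp only [rot, omega_add_left, omega_add_right, omega_smul_left, omega_smul_right]
    ring
  rw [h1, omega_J_J, omega_J_left, omega_J_right]
  have := Real.sin_sq_add_cos_sq θ
  linear_combination (omega u v) * this

/-- the twist map `z ↦ e^{i κ(|z|²)} z` -/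
noncomputable def twistFun (κ : ℝ → ℝ) (z : E n) : E n := rot (κ (‖z‖ ^ 2)) z

lemma twistFun_neg_twistFun (κ : ℝ → ℝ) (z : E n) : twistFun (fun t => - κ t) (twistFun κ z) = z := by
  simp only [twistFun, norm_rot, rot_rot]
  simp

lemma twistFun_twistFun_neg (κ : ℝ → ℝ) (z : E n) : twistFun κ (twistFun (fun t => - κ t) z) = z := by
  simp only [twistFun, norm_rot, rot_rot]
  simp

lemma contDiff_twistFun {κ : ℝ → ℝ} (hκ : ContDiff ℝ ∞ κ) :
    ContDiff ℝ ∞ (twistFun κ : E n → E n) := by
  unfold twistFun rot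
  have h : ContDiff ℝ ∞ (fun z : E n => κ (‖z‖ ^ 2)) := hκ.comp (contDiff_norm_sq ℝ)
  exact ((Real.contDiff_cos.comp h).smul contDiff_id).add
    ((Real.contDiff_sin.comp h).smul (J n).contDiff)

lemma hasFDerivAt_twistFun {κ : ℝ → ℝ} (hκ : ContDiff ℝ ∞ κ) (z v : E n) :
    fderiv ℝ (twistFun κ : E n → E n) z v
      = rot (κ (‖z‖ ^ 2)) (v + (deriv κ (‖z‖ ^ 2) * (2 * ⟪z, v⟫)) • J n z) := by
  have h0 : HasFDerivAt (fun z : E n => ‖z‖ ^ 2) (2 • innerSL ℝ z) z :=
    (hasStrictFDerivAt_norm_sq z).hasFDerivAt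
  have h1 : HasDerivAt κ (deriv κ (‖z‖ ^ 2)) (‖z‖ ^ 2) :=
    (hκ.differentiable (by simp) _).hasDerivAt
  have h2 : HasFDerivAt (fun z : E n => κ (‖z‖ ^ 2)) (deriv κ (‖z‖ ^ 2) • (2 • innerSL ℝ z)) z :=
    h1.comp_hasFDerivAt z h0
  have h3 := (h2.cos.smul (hasFDerivAt_id z)).add (h2.sin.smul (J n).hasFDerivAt)
  have h4 : (twistFun κ : E n → E n) = (fun x : E n => Real.cos (κ (‖x‖ ^ 2))) • id
      + (fun x : E n => Real.sin (κ (‖x‖ ^ 2))) • ⇑(J n) := rfl
  rw [h4]
  rw [HasFDerivAt.fderiv h3]
  simp [rot, J_J, smul_smul]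
  module

/-- the twist as a homeomorphism -/
noncomputable def twist (κ : ℝ → ℝ) (hκ : ContDiff ℝ ∞ κ) : E n ≃ₜ E n where
  toFun := twistFun κ
  invFun := twistFun (fun t => - κ t)
  left_inv := twistFun_neg_twistFun κ
  right_inv := twistFun_twistFun_neg κ
  continuous_toFun := (contDiff_twistFun hκ).continuous
  continuous_invFun := (contDiff_twistFun hκ.neg).continuous

lemma coe_twist (κ : ℝ → ℝ) (hκ : ContDiff ℝ ∞ κ) :
    (⇑(twist κ hκ : E n ≃ₜ E n)) = twistFun κ := rfl

lemma coe_twist_symm (κ : ℝ → ℝ) (hκ : ContDiff ℝ ∞ κ) :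
    (⇑(twist κ hκ : E n ≃ₜ E n).symm) = twistFun (fun t => - κ t) := rfl

lemma isSymp_twist (κ : ℝ → ℝ) (hκ : ContDiff ℝ ∞ κ) :
    IsSymplectomorphism (twist κ hκ : E n ≃ₜ E n) where
  contDiff := by rw [coe_twist]; exact contDiff_twistFun hκ
  contDiff_symm := by
    rw [coe_twist_symm]
    have h : ContDiff ℝ ∞ (fun t => - κ t) := hκ.neg
    exact contDiff_twistFun h
  omega_fderiv := by
    intro z u v
    rw [coe_twist, hasFDerivAt_twistFun hκ, hasFDerivAt_twistFun hκ, omega_rot]
    rw [omega_add_left, omega_add_right, omega_add_right, omega_smul_left, omega_smul_left,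
      omega_smul_right, omega_smul_right, omega_J_left, omega_J_right, omega_self]
    rw [real_inner_comm z u]
    ring

end Pool.Agent.H68.Cap
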