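import Pool.Agent.H68.CapApprox

open scoped ENNReal ContDiff Pointwise RealInnerProductSpace Topology
open Filter MeasureTheory Metric

namespace Pool.Agent.H68.Cap

variable {n : ℕ}

lemma one_lt_rank [NeZero n] : 1 < Module.rank ℝ (E n) := by
  have h : Module.finrank ℝ (E n) = n * 2 := by simp
  have hn : 0 < n := Nat.pos_of_ne_zero (NeZero.ne n)
  rw [← Module.finrank_eq_rank, h]
  have : (1 : ℕ) < n * 2 := by omega
  exact_mod_cast this

instance nontrivialE [NeZero n] : Nontrivial (E n) :=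
  Module.nontrivial_of_finrank_pos (R := ℝ) (by
    have hn : 0 < n := Nat.pos_of_ne_zero (NeZero.ne n)
    simp; omega)

/-- product of an interval of radii with the unit sphere -/
lemma isPreconnected_radial [NeZero n] {s : Set ℝ} (hs : IsPreconnected s)
    (hpos : ∀ t ∈ s, 0 < t) : IsPreconnected {z : E n | ‖z‖ ∈ s} := by
  have h1 : IsPreconnected (s ×ˢ sphere (0 : E n) 1) :=
    hs.prod (isPreconnected_sphere one_lt_rank 0 1)
  have h2 : {z : E n | ‖z‖ ∈ s} = (fun p : ℝ × E n => p.1 • p.2) '' (s ×ˢ sphere (0 : E n) 1) := by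
    ext z
    constructor
    · intro hz
      have hz' : ‖z‖ ∈ s := hz
      have hpz := hpos _ hz'
      refine ⟨(‖z‖, ‖z‖⁻¹ • z), ⟨hz', ?_⟩, ?_⟩
      · simp only [mem_sphere_iff_norm, sub_zero]
        rw [norm_smul, norm_inv, norm_norm, inv_mul_cancel₀ hpz.ne']
      · simp only [smul_smul]
        rw [mul_inv_cancel₀ hpz.ne', one_smul]
    · rintro ⟨⟨t, u⟩, ⟨ht, hu⟩, rfl⟩
      simp only [mem_sphere_iff_norm, sub_zero] at hu
      show ‖t • u‖ ∈ s
      rw [norm_smul, hu, mul_one, Real.norm_of_nonneg (hpos t ht).le]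
      exact ht
  rw [h2]
  exact h1.image _ (by fun_prop)

lemma exists_unit [NeZero n] : ∃ u : E n, ‖u‖ = 1 := exists_norm_eq (E n) zero_le_one

/-- A homeomorphism mapping a sphere into a sphere maps it onto, and maps ball onto ball. -/
lemma sphere_sep [NeZero n] (h : E n ≃ₜ E n) {r ρ : ℝ} (hr : 0 < r) (hρ : 0 < ρ)
    (hs : h '' (sphere 0 r) ⊆ sphere 0 ρ) :
    h '' (sphere 0 r) = sphere 0 ρ ∧ h '' (ball 0 r) = ball 0 ρ := by
  set P := h '' (ball 0 r) with hP
  set P' := h '' {z | r < ‖z‖} with hP'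
  have hext_open : ∀ r : ℝ, IsOpen {z : E n | r < ‖z‖} := fun r =>
    isOpen_lt continuous_const continuous_norm
  have hPo : IsOpen P := h.isOpenMap _ isOpen_ball
  have hPo' : IsOpen P' := h.isOpenMap _ (hext_open r)
  have hPc : IsPreconnected P := isPreconnected_ball.image _ h.continuous.continuousOn
  have hextc : ∀ r : ℝ, 0 < r → IsPreconnected {z : E n | r < ‖z‖} := fun r hr =>
    isPreconnected_radial (s := Set.Ioi r) isPreconnected_Ioi fun t ht => hr.trans ht
  have hPc' : IsPreconnected P' := (hextc r hr).image _ h.continuous.continuousOn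
  have hdisj : Disjoint P P' := by
    rw [Set.disjoint_left]
    rintro x ⟨y, hy, rfl⟩ ⟨y', hy', hyy⟩
    have := h.injective hyy
    subst this
    have h1 : ‖y'‖ < r := by simpa using hy
    have h2 : r < ‖y'‖ := hy'
    linarith
  have hBX : Disjoint (ball (0 : E n) ρ) {z | ρ < ‖z‖} := by
    rw [Set.disjoint_left]
    intro x hx hx'
    have h1 : ‖x‖ < ρ := by simpa using hx
    have h2 : ρ < ‖x‖ := hx'
    linarith
  -- complement of h (sphere)
  have hcover : ∀ x, x ∉ h '' (sphere 0 r) → x ∈ P ∪ P' := by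
    intro x hx
    obtain ⟨y, rfl⟩ := h.surjective x
    rcases lt_trichotomy ‖y‖ r with h1 | h1 | h1
    · exact Or.inl ⟨y, by simpa using h1, rfl⟩
    · exact absurd ⟨y, by simpa using h1, rfl⟩ hx
    · exact Or.inr ⟨y, h1, rfl⟩
  have hB : ball (0 : E n) ρ ⊆ P ∪ P' := by
    intro x hx
    refine hcover x fun hx' => ?_
    have h1 := hs hx'
    have h2 : ‖x‖ = ρ := by simpa using h1
    have h3 : ‖x‖ < ρ := by simpa using hx
    linarith
  have hX : {z : E n | ρ < ‖z‖} ⊆ P ∪ P' := by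
    intro x hx
    refine hcover x fun hx' => ?_
    have h1 := hs hx'
    have h2 : ‖x‖ = ρ := by simpa using h1
    have h3 : ρ < ‖x‖ := hx
    linarith
  have hPne : P.Nonempty := ⟨h 0, ⟨0, by simpa using hr, rfl⟩⟩
  have hPne' : P'.Nonempty := by
    obtain ⟨u, hu⟩ := exists_unit (n := n)
    exact ⟨h ((r + 1) • u), ⟨(r + 1) • u, by
      show r < ‖(r + 1) • u‖
      rw [norm_smul, hu, mul_one, Real.norm_of_nonneg (by positivity)]; linarith, rfl⟩⟩
  have hBne : (0 : E n) ∈ ball (0 : E n) ρ := by simpa using hρ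
  -- step A
  have hA : sphere 0 ρ ⊆ h '' (sphere 0 r) := by
    intro q hq
    by_contra hq'
    have key : ∀ Q Q' : Set (E n), IsOpen Q → IsOpen Q' → Disjoint Q Q' → Q'.Nonempty →
        ball (0 : E n) ρ ⊆ Q ∪ Q' → {z : E n | ρ < ‖z‖} ⊆ Q ∪ Q' → q ∈ Q → False := by
      intro Q Q' hQ hQ' hd hne hB hX hqQ
      have hqn : ‖q‖ = ρ := by simpa using hq
      have hBQ : ball (0 : E n) ρ ⊆ Q := by
        rcases isPreconnected_ball.subset_or_subset hQ hQ' hd hB with h1 | h1
        · exact h1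
        · exfalso
          have h2 : q ∈ closure (ball (0 : E n) ρ) := by
            rw [closure_ball 0 hρ.ne']; simp [hqn]
          obtain ⟨x, hx1, hx2⟩ := mem_closure_iff.1 h2 Q hQ hqQ
          exact Set.disjoint_left.1 hd hx1 (h1 hx2)
      have hXQ : {z : E n | ρ < ‖z‖} ⊆ Q := by
        rcases (hextc ρ hρ).subset_or_subset hQ hQ' hd hX with h1 | h1
        · exact h1
        · exfalso
          have h2 : q ∈ closure {z : E n | ρ < ‖z‖} := by
            have h3 : Tendsto (fun t : ℝ => (1 + t) • q) (𝓝[>] 0) (𝓝 q) := by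
              have h4 : Tendsto (fun t : ℝ => (1 + t) • q) (𝓝 0) (𝓝 ((1 + (0 : ℝ)) • q)) :=
                Continuous.tendsto (by fun_prop) 0
              rw [add_zero, one_smul] at h4
              exact h4.mono_left nhdsWithin_le_nhds
            refine mem_closure_of_tendsto h3 ?_
            filter_upwards [self_mem_nhdsWithin] with t ht
            have ht' : 0 < t := ht
            show ρ < ‖(1 + t) • q‖
            rw [norm_smul, hqn, Real.norm_of_nonneg (by positivity)]
            nlinarith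
          obtain ⟨x, hx1, hx2⟩ := mem_closure_iff.1 h2 Q hQ hqQ
          exact Set.disjoint_left.1 hd hx1 (h1 hx2)
      have hQs : Q' ⊆ sphere (0 : E n) ρ := by
        intro x hx
        rcases lt_trichotomy ‖x‖ ρ with h1 | h1 | h1
        · exact absurd hx (Set.disjoint_left.1 hd (hBQ (by simpa using h1)))
        · simpa using h1
        · exact absurd hx (Set.disjoint_left.1 hd (hXQ h1))
      have h4 : Q' ⊆ interior (sphere (0 : E n) ρ) := hQ'.subset_interior_iff.2 hQs
      rw [interior_sphere 0 hρ.ne'] at h4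
      exact hne.ne_empty (Set.subset_empty_iff.1 h4)
    rcases hcover q hq' with h1 | h1
    · exact key P P' hPo hPo' hdisj hPne' hB hX h1
    · exact key P' P hPo' hPo hdisj.symm hPne (by rwa [Set.union_comm]) (by rwa [Set.union_comm]) h1
  have hS : h '' (sphere 0 r) = sphere 0 ρ := Set.Subset.antisymm hs hA
  refine ⟨hS, ?_⟩
  have hcov2 : ∀ x : E n, x ∉ sphere (0 : E n) ρ → x ∈ ball (0 : E n) ρ ∪ {z | ρ < ‖z‖} := by
    intro x hx
    rcases lt_trichotomy ‖x‖ ρ with h1 | h1 | h1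
    · exact Or.inl (by simpa using h1)
    · exact absurd (by simpa using h1) hx
    · exact Or.inr h1
  have hPsub : P ⊆ ball (0 : E n) ρ ∪ {z | ρ < ‖z‖} := by
    rintro x ⟨y, hy, rfl⟩
    refine hcov2 _ fun hx => ?_
    rw [← hS] at hx
    obtain ⟨y', hy', h1⟩ := hx
    have := h.injective h1
    subst this
    have h2 : ‖y'‖ = r := by simpa using hy'
    have h3 : ‖y'‖ < r := by simpa using hy
    linarith
  have hPsub' : P' ⊆ ball (0 : E n) ρ ∪ {z | ρ < ‖z‖} := by
    rintro x ⟨y, hy, rfl⟩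
    refine hcov2 _ fun hx => ?_
    rw [← hS] at hx
    obtain ⟨y', hy', h1⟩ := hx
    have := h.injective h1
    subst this
    have h2 : ‖y'‖ = r := by simpa using hy'
    have h3 : r < ‖y'‖ := hy
    linarith
  have hP'X : P' ⊆ {z | ρ < ‖z‖} := by
    rcases hPc'.subset_or_subset isOpen_ball (hext_open ρ) hBX hPsub' with h1 | h1
    · exfalso
      have h2 : {z : E n | r < ‖z‖} ⊆ h.symm '' (closedBall 0 ρ) := by
        intro z hz
        refine ⟨h z, ball_subset_closedBall (h1 ⟨z, hz, rfl⟩), by simp⟩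
      have h3 : Bornology.IsBounded {z : E n | r < ‖z‖} :=
        ((isCompact_closedBall 0 ρ).image h.symm.continuous).isBounded.subset h2
      obtain ⟨C, hC⟩ := h3.exists_norm_le
      obtain ⟨u, hu⟩ := exists_unit (n := n)
      have h4 : r < ‖(max r C + 1) • u‖ := by
        rw [norm_smul, hu, mul_one, Real.norm_of_nonneg (by positivity)]
        linarith [le_max_left r C]
      have h5 := hC _ h4
      rw [norm_smul, hu, mul_one, Real.norm_of_nonneg (by positivity)] at h5
      linarith [le_max_right r C]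
    · exact h1
  have hPB : P ⊆ ball (0 : E n) ρ := by
    rcases hPc.subset_or_subset isOpen_ball (hext_open ρ) hBX hPsub with h1 | h1
    · exact h1
    · exfalso
      rcases hB hBne with h2 | h2
      · exact Set.disjoint_left.1 hBX hBne (h1 h2)
      · exact Set.disjoint_left.1 hBX hBne (hP'X h2)
  refine Set.Subset.antisymm hPB fun x hx => ?_
  rcases hB hx with h2 | h2
  · exact h2
  · exact absurd (hP'X h2) (Set.disjoint_left.1 hBX hx)

/-! ### The model set -/

/-- the unit ball with the origin and the spheres of radii `rho j` removed -/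
def T0 (n : ℕ) : Set (E n) := {z | ‖z‖ < 1 ∧ z ≠ 0 ∧ ∀ j, ‖z‖ ≠ rho j}

lemma isOpen_T0 : IsOpen (T0 n) := by
  have h1 : IsClosed (insert (0 : ℝ) (Set.range rho)) :=
    tendsto_rho.isCompact_insert_range.isClosed
  have h2 : T0 n = {z : E n | ‖z‖ < 1} ∩ (fun z : E n => ‖z‖) ⁻¹' (insert (0 : ℝ) (Set.range rho))ᶜ := by
    ext z
    simp only [T0, Set.mem_ofPred_eq, Set.mem_inter_iff, Set.mem_preimage, Set.mem_compl_iff,
      Set.mem_insert_iff, Set.mem_range, not_or, not_exists, norm_eq_zero, ne_eq]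
    constructor
    · rintro ⟨h1, h2, h3⟩
      exact ⟨h1, h2, fun j hj => h3 j hj.symm⟩
    · rintro ⟨h1, h2, h3⟩
      exact ⟨h1, h2, fun j hj => h3 j hj.symm⟩
  rw [h2]
  exact (isOpen_lt continuous_norm continuous_const).inter
    (h1.isOpen_compl.preimage continuous_norm)

lemma T0_subset_ball : T0 n ⊆ ball 0 1 := by
  intro z hz
  simpa using hz.1

lemma closure_T0 [NeZero n] : closure (T0 n) = closedBall 0 1 := by
  refine Set.Subset.antisymm ?_ ?_
  · exact closure_minimal (T0_subset_ball.trans ball_subset_closedBall) isClosed_closedBall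
  · intro z hz
    have hz1 : ‖z‖ ≤ 1 := by simpa using hz
    obtain ⟨u, hu, hzu⟩ : ∃ u : E n, ‖u‖ = 1 ∧ z = ‖z‖ • u := by
      by_cases h0 : z = 0
      · obtain ⟨u, hu⟩ := exists_unit (n := n)
        exact ⟨u, hu, by simp [h0]⟩
      · have h1 : ‖z‖ ≠ 0 := norm_ne_zero_iff.2 h0
        refine ⟨‖z‖⁻¹ • z, ?_, ?_⟩
        · rw [norm_smul, norm_inv, norm_norm, inv_mul_cancel₀ h1]
        · rw [smul_smul, mul_inv_cancel₀ h1, one_smul]
    have hd : Dense (Set.range rho)ᶜ := (Set.countable_range rho).dense_compl ℝ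
    have h2 : ‖z‖ ∈ closure (Set.Ioo (0 : ℝ) 1 ∩ (Set.range rho)ᶜ) := by
      have h3 : Set.Ioo (0 : ℝ) 1 ⊆ closure (Set.Ioo (0 : ℝ) 1 ∩ (Set.range rho)ᶜ) :=
        hd.open_subset_closure_inter isOpen_Ioo
      have h4 := closure_minimal h3 isClosed_closure
      rw [closure_Ioo zero_ne_one] at h4
      exact h4 ⟨norm_nonneg _, hz1⟩
    rw [hzu]
    refine map_mem_closure (f := fun t : ℝ => t • u) (by fun_prop) h2 ?_
    rintro t ⟨⟨ht0, ht1⟩, ht2⟩
    have h5 : ‖t • u‖ = t := by rw [norm_smul, hu, mul_one, Real.norm_of_nonneg ht0.le]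
    refine ⟨by rw [h5]; exact ht1, ?_, ?_⟩
    · intro h6
      have h7 : t • u = 0 := h6
      rw [h7, norm_zero] at h5
      linarith
    · intro j hj
      rw [h5] at hj
      exact ht2 ⟨j, hj.symm⟩

/-- the clopen argument -/
lemma norm_const_of_avoid [NeZero n] (k : E n ≃ₜ E n) {r : ℝ} {j : ℕ}
    (hk : ∀ x ∈ sphere (0 : E n) r, k x ∉ T0 n) (hx : ∃ x ∈ sphere (0 : E n) r, ‖k x‖ = rho j) :
    ∀ x ∈ sphere (0 : E n) r, ‖k x‖ = rho j := by
  have hI : IsPreconnected ((fun x => ‖k x‖) '' (sphere (0 : E n) r)) :=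
    (isPreconnected_sphere one_lt_rank 0 r).image _ (by fun_prop)
  have hoc := hI.ordConnected
  obtain ⟨x₀, hx₀, hx₀'⟩ := hx
  intro x hx
  by_contra hne
  have hmem : ∀ w : ℝ, w ∈ Set.uIcc (‖k x‖) (rho j) → ∃ y ∈ sphere (0 : E n) r, ‖k y‖ = w := by
    intro w hw
    have h1 := hoc.uIcc_subset (Set.mem_image_of_mem (fun x => ‖k x‖) hx)
      (Set.mem_image_of_mem (fun x => ‖k x‖) hx₀)
    have h2 : Set.uIcc (‖k x‖) (‖k x₀‖) ⊆ (fun x => ‖k x‖) '' sphere 0 r := h1
    rw [hx₀'] at h2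
    exact h2 hw
  have havoid : ∀ w : ℝ, w ∈ Set.uIcc (‖k x‖) (rho j) → 0 < w → w < 1 → (∀ i, w ≠ rho i) → False := by
    intro w hw h0 h1 h2
    obtain ⟨y, hy, hyw⟩ := hmem w hw
    refine hk y hy ⟨by rw [hyw]; exact h1, ?_, fun i => by rw [hyw]; exact h2 i⟩
    intro h3
    rw [h3, norm_zero] at hyw
    linarith
  rcases lt_or_gt_of_ne hne with h | h
  · obtain ⟨w, hw1, hw2⟩ := exists_between (max_lt h (rho_succ_lt j))
    have h1 := (le_max_left (‖k x‖) (rho (j + 1))).trans_lt hw1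
    have h2 := (le_max_right (‖k x‖) (rho (j + 1))).trans_lt hw1
    refine havoid w ?_ ((rho_pos _).trans h2) (hw2.trans (rho_lt_one j)) fun i hi => ?_
    · rw [Set.uIcc_of_le h.le]; exact ⟨h1.le, hw2.le⟩
    · rcases Nat.lt_or_ge j i with h3 | h3
      · have := rho_strictAnti.antitone (Nat.succ_le_of_lt h3)
        simp only [Nat.succ_eq_add_one] at this
        linarith
      · have := rho_strictAnti.antitone h3
        linarith
  · have hgap : ∃ u, rho j < u ∧ u ≤ 1 ∧ ∀ i w, rho j < w → w < u → w ≠ rho i := by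
      rcases Nat.eq_zero_or_pos j with h0 | h0
      · subst h0
        refine ⟨1, rho_lt_one 0, le_rfl, fun i w h1 _ h3 => ?_⟩
        have := rho_strictAnti.antitone (Nat.zero_le i)
        linarith
      · obtain ⟨m, rfl⟩ : ∃ m, j = m + 1 := ⟨j - 1, by omega⟩
        refine ⟨rho m, rho_succ_lt m, (rho_lt_one m).le, fun i w h1 h2 h3 => ?_⟩
        rcases Nat.lt_or_ge m i with h4 | h4
        · have := rho_strictAnti.antitone (Nat.succ_le_of_lt h4)
          simp only [Nat.succ_eq_add_one] at this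
          linarith
        · have := rho_strictAnti.antitone h4
          linarith
    obtain ⟨u, hu1, hu2, hu3⟩ := hgap
    obtain ⟨w, hw1, hw2⟩ := exists_between (lt_min h hu1)
    have h1 := hw2.trans_le (min_le_left _ _)
    have h2 := hw2.trans_le (min_le_right _ _)
    refine havoid w ?_ ((rho_pos j).trans hw1) (h2.trans_le hu2) fun i => hu3 i w hw1 h2
    rw [Set.uIcc_of_ge h.le]; exact ⟨hw1.le, h1.le⟩

/-- spheres avoiding the model set inside the ball are mapped to the removed spheres -/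
lemma sphere_match [NeZero n] (k : E n ≃ₜ E n) {r : ℝ} (hr : 0 < r)
    (hk : ∀ x ∈ sphere (0 : E n) r, k x ∉ T0 n)
    (hx : ∃ x ∈ sphere (0 : E n) r, k x ∈ ball (0 : E n) 1 ∧ k x ≠ 0) :
    ∃ j, k '' (sphere 0 r) = sphere 0 (rho j) ∧ k '' (ball 0 r) = ball 0 (rho j) := by
  obtain ⟨x, hx, hx1, hx2⟩ := hx
  have h1 : ∃ j, ‖k x‖ = rho j := by
    by_contra hcon
    push Not at hcon
    exact hk x hx ⟨by simpa using hx1, hx2, hcon⟩
  obtain ⟨j, hj⟩ := h1
  refine ⟨j, sphere_sep k hr (rho_pos j) ?_⟩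
  rintro y ⟨z, hz, rfl⟩
  have := norm_const_of_avoid k hk ⟨x, hx, hj⟩ z hz
  simpa using this

/-- dichotomy for a ball avoiding the first sphere -/
lemma ball_dichotomy [NeZero n] (h : E n ≃ₜ E n)
    (hh : ∀ z : E n, ‖z‖ < 1 → z ≠ 0 → ‖h z‖ ≤ 1 ∧ ‖h z‖ ≠ rho 0) :
    h '' (closedBall 0 1) ⊆ closedBall 0 (rho 0) ∨
      h '' (closedBall 0 1) ⊆ {z | rho 0 ≤ ‖z‖ ∧ ‖z‖ ≤ 1} := by
  have h1 : IsPreconnected {z : E n | ‖z‖ ∈ Set.Ioo (0 : ℝ) 1} :=
    isPreconnected_radial isPreconnected_Ioo fun t ht => ht.1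
  have h2 : closedBall (0 : E n) 1 ⊆ closure {z : E n | ‖z‖ ∈ Set.Ioo (0 : ℝ) 1} := by
    rw [← closure_T0]
    refine closure_mono ?_
    intro z hz
    exact ⟨norm_pos_iff.2 hz.2.1, hz.1⟩
  have h3 : IsPreconnected (h '' {z : E n | ‖z‖ ∈ Set.Ioo (0 : ℝ) 1}) :=
    h1.image _ h.continuous.continuousOn
  have h4 : h '' {z : E n | ‖z‖ ∈ Set.Ioo (0 : ℝ) 1} ⊆ ball 0 (rho 0) ∪ {z | rho 0 < ‖z‖} := by
    rintro x ⟨z, hz, rfl⟩
    have h5 := (hh z hz.2 (norm_pos_iff.1 hz.1)).2
    rcases lt_or_gt_of_ne h5 with h6 | h6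
    · exact Or.inl (by simpa using h6)
    · exact Or.inr h6
  have hd : Disjoint (ball (0 : E n) (rho 0)) {z | rho 0 < ‖z‖} := by
    rw [Set.disjoint_left]
    intro x hx hx'
    have h1 : ‖x‖ < rho 0 := by simpa using hx
    have h2 : rho 0 < ‖x‖ := hx'
    linarith
  have h6 : h '' (closedBall 0 1) ⊆ closure (h '' {z : E n | ‖z‖ ∈ Set.Ioo (0 : ℝ) 1}) :=
    (Set.image_mono h2).trans (image_closure_subset_closure_image h.continuous)
  rcases h3.subset_or_subset isOpen_ball (isOpen_lt continuous_const continuous_norm) hd h4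
    with h5 | h5
  · left
    refine h6.trans (closure_minimal (h5.trans ball_subset_closedBall) isClosed_closedBall)
  · right
    refine h6.trans (closure_minimal ?_ ?_)
    · rintro x ⟨z, hz, rfl⟩
      have h7 : rho 0 < ‖h z‖ := h5 ⟨z, hz, rfl⟩
      exact ⟨h7.le, (hh z hz.2 (norm_pos_iff.1 hz.1)).1⟩
    · exact (isClosed_le continuous_const continuous_norm).inter
        (isClosed_le continuous_norm continuous_const)

end Pool.Agent.H68.Cap
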