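import Pool.Agent.H68.CeTower

/-!
# Towers with commuting conjugate copies are acyclic mod `p`
-/

set_option autoImplicit false

namespace Pool.Agent.H68.Ce

section

variable {A : ℕ → Type} [∀ n, Group (A n)]

/-- The product tower `A l × A a` over `A a`. -/
def prodSys (t : ∀ {a b : ℕ}, a ≤ b → (A a →* A b))
    (ht : ∀ {a b c : ℕ} (h : a ≤ b) (h' : b ≤ c) (x : A a), t h' (t h x) = t (h.trans h') x)
    (a : ℕ) : ExtSys (A a) where
  E l := A l × A a
  N l := A l
  κ l := MonoidHom.inl (A l) (A a)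
  π l := MonoidHom.snd (A l) (A a)
  inj l := fun x y h => (Prod.mk.inj h).1
  ex l := fun e => ⟨fun h => ⟨e.1, Prod.ext rfl h.symm⟩, fun ⟨x, hx⟩ => by rw [← hx]; rfl⟩
  surj l := fun y => ⟨(1, y), rfl⟩
  tE h := MonoidHom.prodMap (t h) (MonoidHom.id (A a))
  tN h := t h
  tE_trans h h' x := Prod.ext (ht h h' x.1) rfl
  comm h x := Prod.ext rfl rfl
  tπ h x := rfl

lemma one_comp' {E Q : Type} [Group E] [Group Q] {V : Type} [AddCommGroup V] (π : E →* Q) :
    ((1 : Q →* AddMonoid.End V).comp π) = 1 := rfl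

lemma trivial_coboundary {B G V : Type} [Group B] [Group G] [AddCommGroup V] (m : ℕ)
    (F : (Fin (m + 1) → G) → V) (hd : del (m + 1) F = 0) :
    ∃ K : (Fin m → B) → V, Eqv 1 K ∧
      (fun x : Fin (m + 1) → B => F ((1 : B →* G) ∘ x)) = del m K := by
  have h1 : del (m + 1) (fun x : Fin (m + 1) → B => F ((1 : B →* G) ∘ x)) = 0 := by
    rw [del_comp, hd]
    rfl
  exact ⟨_, fun e x => rfl, (cocycle_cone m _ h1 1).symm⟩

/-- Additivity of the action of commuting homomorphisms on cohomology, deep in the tower. -/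
theorem additivity (p : ℕ) (t : ∀ {a b : ℕ}, a ≤ b → (A a →* A b))
    (ht : ∀ {a b c : ℕ} (h : a ≤ b) (h' : b ≤ c) (x : A a), t h' (t h x) = t (h.trans h') x)
    (m : ℕ) (hk : ∀ i < m, Kill p A t i) (a : ℕ) :
    ∃ (b : ℕ) (h : a ≤ b), ∀ (G : Type) [Group G] (α : A b →* G) (β : A a →* G),
      (∀ x y, Commute (α x) (β y)) → ∀ (V : Type) [AddCommGroup V], (∀ v : V, p • v = 0) →
      ∀ F : (Fin (m + 1) → G) → V, Eqv 1 F → del (m + 1) F = 0 →
      ∃ K : (Fin m → A a) → V, Eqv 1 K ∧
        (fun x => F (fun i => α (t h (x i)) * β (x i)))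
          = (fun x => F (α ∘ (t h ∘ x))) + (fun x => F (β ∘ x)) + del m K := by
  obtain ⟨b, h, H⟩ := ext_surj p (prodSys t ht a) m hk a
  refine ⟨b, h, ?_⟩
  intro G _ α β hc V _ hV F hF hd
  let μ : (A b × A a) →* G := MonoidHom.noncommCoprod α β hc
  let fs : (A b × A a) →* G := α.comp (MonoidHom.fst (A b) (A a))
  have hF1 : Eqv ((1 : A a →* AddMonoid.End V).comp ((prodSys t ht a).π b))
      ((fun x : Fin (m + 1) → A b × A a => F (μ ∘ x)) - fun x => F (fs ∘ x)) :=
    (hF.comp μ).sub (hF.comp fs)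
  have hF1d : del (m + 1) ((fun x : Fin (m + 1) → A b × A a => F (μ ∘ x))
      - fun x => F (fs ∘ x)) = 0 := by
    rw [del_sub, del_comp, del_comp, hd]
    simp
  obtain ⟨f, g, hf, hfd, hg, -, hfg⟩ := H V hV 1 _ hF1 hF1d ⟨0, Eqv.zero, by
    rw [del_zero_fun]
    funext x
    show (0 : V) = F (μ ∘ (MonoidHom.inl (A b) (A a) ∘ x)) - F (fs ∘ (MonoidHom.inl (A b) (A a) ∘ x))
    have : μ ∘ (MonoidHom.inl (A b) (A a) ∘ x) = fs ∘ (MonoidHom.inl (A b) (A a) ∘ x) := by
      funext i
      show α (x i) * β 1 = α (x i)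
      rw [map_one, mul_one]
    rw [this, sub_self]⟩
  obtain ⟨K₀, hK₀, hK₀d⟩ := trivial_coboundary (B := A a) m F hd
  let g' : (Fin m → A a × A a) → V := g
  have hg' : Eqv 1 g' := hg
  have hfg' : ∀ x : Fin (m + 1) → A a × A a,
      F (fun i => α (t h (x i).1) * β (x i).2) - F (fun i => α (t h (x i).1))
        = f (fun i => (x i).2) + del m g' x := fun x => congrFun hfg x
  clear_value g'
  clear hfg hg H hF1 hF1d
  let dg : A a →* (A a × A a) := (MonoidHom.id (A a)).prod (MonoidHom.id (A a))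
  let ir : A a →* (A a × A a) := MonoidHom.inr (A a) (A a)
  refine ⟨(fun x => g' (dg ∘ x)) - (fun x => g' (ir ∘ x)) - K₀,
    ((hg'.comp dg).sub (hg'.comp ir)).sub hK₀, ?_⟩
  funext x
  have h1 := hfg' (dg ∘ x)
  have h2 := hfg' (ir ∘ x)
  have h3 := congrFun hK₀d x
  have h4 := congrFun (del_comp m dg g') x
  have h5 := congrFun (del_comp m ir g') x
  rw [del_sub, del_sub]
  simp only [Pi.add_apply, Pi.sub_apply]
  rw [h4, h5, ← h3]
  have e1 : F (fun i => α (t h (x i)) * β (x i))
      = F (fun i => α (t h ((dg ∘ x) i).1) * β ((dg ∘ x) i).2) := rfl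
  have e2 : F (α ∘ (t h ∘ x)) = F (fun i => α (t h ((dg ∘ x) i).1)) := rfl
  have e3 : F (β ∘ x) = F (fun i => α (t h ((ir ∘ x) i).1) * β ((ir ∘ x) i).2) := by
    congr 1
    funext i
    show β (x i) = α (t h 1) * β (x i)
    rw [map_one, map_one, one_mul]
  have e4 : F ((1 : A a →* G) ∘ x) = F (fun i => α (t h ((ir ∘ x) i).1)) := by
    congr 1
    funext i
    show (1 : G) = α (t h 1)
    rw [map_one, map_one]
  have e5 : f (fun i => ((dg ∘ x) i).2) = f (fun i => ((ir ∘ x) i).2) := rfl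
  rw [e1, e2, e3, e4, eq_add_of_sub_eq' h1, eq_add_of_sub_eq' h2, e5]
  abel

/-- Conjugation acts trivially on cohomology. -/
theorem conj_trivial {B G V : Type} [Group B] [Group G] [AddCommGroup V] (m : ℕ)
    (F : (Fin (m + 1) → G) → V) (hF : Eqv 1 F) (hd : del (m + 1) F = 0) (γ : B →* G) (s : G) :
    ∃ K : (Fin m → B) → V, Eqv 1 K ∧
      (fun x : Fin (m + 1) → B => F (fun i => s * γ (x i) * s⁻¹))
        = (fun x => F (γ ∘ x)) + del m K := by
  let rs : G → G := fun y => y * s⁻¹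
  have hinv : Eqv 1 (prism id rs m F) := by
    intro e x
    show prism id rs m F (lm e ∘ x) = prism id rs m F x
    rw [prism_comp_right]
    have e3 : (id ∘ lm e : G → G) = lm e ∘ id := rfl
    have e4 : rs ∘ lm e = lm e ∘ rs := by
      funext y
      simp [lm, rs, mul_assoc]
    rw [e3, e4, prism_comp_left]
    have e5 : (fun y => F (lm e ∘ y)) = F := by
      funext y
      exact hF e y
    rw [e5]
  refine ⟨fun x => prism id rs m F (γ ∘ x), hinv.comp γ, ?_⟩
  rw [del_comp]
  funext x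
  simp only [Pi.add_apply]
  have h2 := del_prism id rs m F (γ ∘ x)
  have h3 : prism id rs (m + 1) (0 : (Fin (m + 2) → G) → V) (γ ∘ x) = 0 := by
    have := prism_sub id rs (m + 1) (0 : (Fin (m + 2) → G) → V) 0
    rw [sub_self, sub_self] at this
    rw [this]
    rfl
  rw [hd, h3, add_zero] at h2
  have h4 : (fun i => s * γ (x i) * s⁻¹) = lm s ∘ (rs ∘ (γ ∘ x)) := by
    funext i
    simp [lm, rs, mul_assoc]
  rw [h2, h4, hF]
  show F (rs ∘ (γ ∘ x)) = F (γ ∘ x) + (F (rs ∘ (γ ∘ x)) - F (id ∘ (γ ∘ x)))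
  rw [Function.id_comp]
  abel

/-- Data of commuting conjugate copies. -/
structure Copies (p : ℕ) (A : ℕ → Type) [∀ n, Group (A n)]
    (t : ∀ {a b : ℕ}, a ≤ b → (A a →* A b)) where
  /-- the copies -/
  i : ∀ b : ℕ, ℕ → (A b →* A (b + 1))
  comm : ∀ b j k, j < k → k < p → ∀ x y, Commute (i b j x) (i b k y)
  prod : ∀ b x, ((List.range p).map (fun j => i b j x)).prod = t (Nat.le_succ b) x
  /-- the conjugating element -/
  s : ∀ b, A (b + 1)
  conj : ∀ b k x, s b * i b k x * (s b)⁻¹ = i b (k + 1) x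

/-- Partial products of the copies. -/
lemma exists_partial (p : ℕ) (t : ∀ {a b : ℕ}, a ≤ b → (A a →* A b)) (C : Copies p A t)
    (b k : ℕ) (hk : k ≤ p) :
    ∃ D : A b →* A (b + 1),
      (∀ x, D x = ((List.range k).map (fun j => C.i b j x)).prod) ∧
      ∀ j, k ≤ j → j < p → ∀ x y, Commute (D x) (C.i b j y) := by
  induction k with
  | zero =>
    exact ⟨1, fun x => by simp, fun j _ _ x y => Commute.one_left _⟩
  | succ k ih =>
    obtain ⟨D, hD, hc⟩ := ih (Nat.le_of_succ_le hk)
    refine ⟨{ toFun := fun x => D x * C.i b k x, map_one' := by simp, map_mul' := ?_ }, ?_, ?_⟩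
    · intro x y
      rw [map_mul, map_mul]
      have h1 := hc k le_rfl hk y x
      calc D x * D y * (C.i b k x * C.i b k y)
          = D x * (D y * C.i b k x) * C.i b k y := by group
        _ = D x * (C.i b k x * D y) * C.i b k y := by rw [h1.eq]
        _ = _ := by group
    · intro x
      show D x * C.i b k x = _
      rw [hD, List.range_succ, List.map_append, List.prod_append]
      simp
    · intro j hj hjp x y
      show Commute (D x * C.i b k x) _
      exact (hc j (Nat.le_of_succ_le hj) hjp x y).mul_left (C.comm b k j hj hjp x y)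

lemma copies_conj (p : ℕ) (t : ∀ {a b : ℕ}, a ≤ b → (A a →* A b)) (C : Copies p A t)
    (a b : ℕ) (h : a ≤ b) (m k : ℕ) {V : Type} [AddCommGroup V]
    (F : (Fin (m + 1) → A (b + 1)) → V) (hF : Eqv 1 F) (hd : del (m + 1) F = 0) :
    ∃ K : (Fin m → A a) → V, Eqv 1 K ∧
      (fun x => F (C.i b k ∘ (t h ∘ x))) = (fun x => F (C.i b 0 ∘ (t h ∘ x))) + del m K := by
  induction k with
  | zero => exact ⟨0, Eqv.zero, by rw [del_zero_fun, add_zero]⟩
  | succ k ih =>
    obtain ⟨K, hK, hKd⟩ := ih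
    obtain ⟨K', hK', hKd'⟩ := conj_trivial m F hF hd ((C.i b k).comp (t h)) (C.s b)
    refine ⟨K + K', hK.add hK', ?_⟩
    have e1 : (fun x : Fin (m + 1) → A a => F (C.i b (k + 1) ∘ (t h ∘ x)))
        = fun x => F (fun i => C.s b * ((C.i b k).comp (t h)) (x i) * (C.s b)⁻¹) := by
      funext x
      congr 1
      funext i
      exact (C.conj b k _).symm
    rw [e1, hKd', del_add, ← add_assoc, ← hKd]
    rfl

theorem kill_step (p : ℕ) (t : ∀ {a b : ℕ}, a ≤ b → (A a →* A b))
    (ht : ∀ {a b c : ℕ} (h : a ≤ b) (h' : b ≤ c) (x : A a), t h' (t h x) = t (h.trans h') x)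
    (C : Copies p A t) (m : ℕ) (hk : ∀ i < m, Kill p A t i) : Kill p A t m := by
  intro a
  obtain ⟨b, h, H⟩ := additivity p t ht m hk a
  refine ⟨b + 1, h.trans (Nat.le_succ b), fun V _ hV F hF hd => ?_⟩
  have key : ∀ k ≤ p, ∃ K : (Fin m → A a) → V, Eqv 1 K ∧
      (fun x : Fin (m + 1) → A a =>
        F (fun i => ((List.range k).map (fun j => C.i b j (t h (x i)))).prod))
        = k • (fun x => F (C.i b 0 ∘ (t h ∘ x))) + del m K := by
    intro k
    induction k with
    | zero =>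
      intro _
      obtain ⟨K, hK, hKd⟩ := trivial_coboundary (B := A a) m F hd
      refine ⟨K, hK, ?_⟩
      rw [zero_smul, zero_add, ← hKd]
      rfl
    | succ k ih =>
      intro hkp
      obtain ⟨K, hK, hKd⟩ := ih (Nat.le_of_succ_le hkp)
      obtain ⟨D, hD, hDc⟩ := exists_partial p t C b k (Nat.le_of_succ_le hkp)
      obtain ⟨K₁, hK₁, hK₁d⟩ := H (A (b + 1)) (C.i b k) (D.comp (t h))
        (fun x y => (hDc k le_rfl hkp (t h y) x).symm) V hV F hF hd
      obtain ⟨K₂, hK₂, hK₂d⟩ := copies_conj p t C a b h m k F hF hd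
      refine ⟨K + K₁ + K₂, (hK.add hK₁).add hK₂, ?_⟩
      have e1 : (fun x : Fin (m + 1) → A a =>
          F (fun i => ((List.range (k + 1)).map (fun j => C.i b j (t h (x i)))).prod))
          = fun x => F (fun i => C.i b k (t h (x i)) * (D.comp (t h)) (x i)) := by
        funext x
        congr 1
        funext i
        rw [List.range_succ, List.map_append, List.prod_append]
        simp only [List.map_cons, List.map_nil, List.prod_cons, List.prod_nil, mul_one]
        rw [← hD]
        exact (hDc k le_rfl hkp _ _).eq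
      have e2 : (fun x : Fin (m + 1) → A a => F ((D.comp (t h)) ∘ x))
          = fun x => F (fun i => ((List.range k).map (fun j => C.i b j (t h (x i)))).prod) := by
        funext x
        congr 1
        funext i
        exact hD _
      rw [e1, hK₁d, hK₂d, e2, hKd, del_add, del_add, succ_nsmul]
      abel
  obtain ⟨K, hK, hKd⟩ := key p le_rfl
  refine ⟨K, hK, ?_⟩
  have e1 : (fun x : Fin (m + 1) → A a => F (t (h.trans (Nat.le_succ b)) ∘ x))
      = fun x => F (fun i => ((List.range p).map (fun j => C.i b j (t h (x i)))).prod) := by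
    funext x
    congr 1
    funext i
    rw [C.prod]
    exact (ht _ _ _).symm
  have e2 : p • (fun x : Fin (m + 1) → A a => F (C.i b 0 ∘ (t h ∘ x))) = 0 := by
    funext x
    exact hV _
  rw [e1, hKd, e2, zero_add]

/-- A tower with commuting conjugate copies is acyclic mod `p`. -/
theorem kill_all (p : ℕ) (t : ∀ {a b : ℕ}, a ≤ b → (A a →* A b))
    (ht : ∀ {a b c : ℕ} (h : a ≤ b) (h' : b ≤ c) (x : A a), t h' (t h x) = t (h.trans h') x)
    (C : Copies p A t) (m : ℕ) : Kill p A t m := by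
  induction m using Nat.strong_induction_on with
  | _ m ih => exact kill_step p t ht C m ih

end

end Pool.Agent.H68.Ce
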