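import Pool.Agent.H68.CeGroup
import Pool.Agent.H68.CeKill

/-!
# The tower of finite `p`-groups for MP_ce8751_gt
-/

set_option autoImplicit false

open CategoryTheory

namespace Pool.Agent.H68.Ce

/-- A stage of the tower. -/
structure Stage (p : ℕ) [Fact p.Prime] where
  /-- the group -/
  P : Type
  [grp : Group P]
  [fin : Finite P]
  isP : IsPGroup p P
  /-- projection -/
  π : P →* Multiplicative (ZMod p)
  surj : Function.Surjective π
  star : ∀ g : P, g ^ p = 1 → π g = 1

attribute [instance] Stage.grp Stage.fin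

variable (p : ℕ) [hp : Fact p.Prime]

/-- The next stage. -/
def Stage.next (S : Stage p) : Stage p where
  P := Nxt (p := p) S.π
  isP := nxt_isPGroup S.π S.isP
  π := nxtProj S.π
  surj := nxtProj_surjective S.π S.surj
  star := fun x hx => star_nxt S.π S.star x hx

/-- The projection `ℤ/p² → ℤ/p`. -/
def baseHom : Multiplicative (ZMod (p ^ 2)) →* Multiplicative (ZMod p) :=
  AddMonoidHom.toMultiplicative (ZMod.castHom (dvd_pow_self p two_ne_zero) (ZMod p)).toAddMonoidHom

/-- The first stage. -/
def Stage.base : Stage p where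
  P := Multiplicative (ZMod (p ^ 2))
  fin := by
    have : NeZero (p ^ 2) := ⟨pow_ne_zero 2 hp.1.ne_zero⟩
    infer_instance
  isP := by
    have : NeZero (p ^ 2) := ⟨pow_ne_zero 2 hp.1.ne_zero⟩
    exact IsPGroup.of_card (n := 2) (Nat.card_zmod (p ^ 2))
  π := baseHom p
  surj := by
    intro x
    obtain ⟨y, hy⟩ := ZMod.castHom_surjective (dvd_pow_self p two_ne_zero)
      (Multiplicative.toAdd x)
    exact ⟨Multiplicative.ofAdd y, hy⟩
  star := by
    intro g hg
    have : NeZero (p ^ 2) := ⟨pow_ne_zero 2 hp.1.ne_zero⟩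
    have h1 : (p : ZMod (p ^ 2)) * Multiplicative.toAdd g = 0 := by
      have : p • Multiplicative.toAdd g = 0 := hg
      rwa [nsmul_eq_mul] at this
    set x : ZMod (p ^ 2) := Multiplicative.toAdd g with hx
    have h2 : ((p * x.val : ℕ) : ZMod (p ^ 2)) = 0 := by
      push_cast
      rw [ZMod.natCast_zmod_val]
      exact h1
    rw [ZMod.natCast_eq_zero_iff] at h2
    have h3 : p ∣ x.val := Nat.dvd_of_mul_dvd_mul_left hp.1.pos
      (dvd_trans (dvd_of_eq (pow_two p).symm) h2)
    show Multiplicative.ofAdd (ZMod.castHom (dvd_pow_self p two_ne_zero) (ZMod p) x) = 1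
    rw [← ofAdd_zero]
    congr 1
    rw [ZMod.castHom_apply, ZMod.cast_eq_val]
    exact (ZMod.natCast_eq_zero_iff _ _).2 h3

/-- The tower. -/
def stage : ℕ → Stage p
  | 0 => Stage.base p
  | n + 1 => (stage n).next

/-- The embedding of a stage in the next one. -/
def stageEmb (n : ℕ) : (stage p n).P →* (stage p (n + 1)).P := nxtEmb (stage p n).π

lemma stageEmb_injective (n : ℕ) : Function.Injective (stageEmb p n) :=
  nxtEmb_injective (stage p n).π

lemma stageEmb_proj (n : ℕ) (x : (stage p n).P) :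
    (stage p (n + 1)).π (stageEmb p n x) = (stage p n).π x := rfl

/-- The tower as a functor. -/
noncomputable def tower : ℕ ⥤ GrpCat.{0} :=
  Functor.ofSequence (X := fun n => GrpCat.of (stage p n).P)
    (fun n => GrpCat.ofHom (stageEmb p n))

/-- The transition homomorphisms. -/
noncomputable def tr {a b : ℕ} (h : a ≤ b) : (stage p a).P →* (stage p b).P :=
  ((tower p).map (homOfLE h)).hom

lemma tr_trans {a b c : ℕ} (h : a ≤ b) (h' : b ≤ c) (x : (stage p a).P) :
    tr p h' (tr p h x) = tr p (h.trans h') x := by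
  have : (tower p).map (homOfLE (h.trans h'))
      = (tower p).map (homOfLE h) ≫ (tower p).map (homOfLE h') := by
    rw [← Functor.map_comp]
    rfl
  show _ = ((tower p).map (homOfLE (h.trans h'))).hom x
  rw [this]
  rfl

lemma tr_self (a : ℕ) (x : (stage p a).P) : tr p (le_refl a) x = x := by
  exact congrArg (fun f : (tower p).obj a ⟶ (tower p).obj a => f.hom x) ((tower p).map_id a)

lemma tr_succ (a : ℕ) : tr p (Nat.le_succ a) = stageEmb p a := by
  have := Functor.ofSequence_map_homOfLE_succ (X := fun n => GrpCat.of (stage p n).P)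
    (fun n => GrpCat.ofHom (stageEmb p n)) a
  exact congrArg (fun f => f.hom) this

lemma tr_proj {a b : ℕ} (h : a ≤ b) (x : (stage p a).P) :
    (stage p b).π (tr p h x) = (stage p a).π x := by
  induction b, h using Nat.le_induction with
  | base => rw [tr_self]
  | succ b h ih =>
    rw [← tr_trans p h (Nat.le_succ b), tr_succ, stageEmb_proj, ih]

lemma tr_injective {a b : ℕ} (h : a ≤ b) : Function.Injective (tr p h) := by
  induction b, h using Nat.le_induction with
  | base =>
    intro x y hxy
    rwa [tr_self, tr_self] at hxy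
  | succ b h ih =>
    intro x y hxy
    rw [← tr_trans p h (Nat.le_succ b), ← tr_trans p h (Nat.le_succ b), tr_succ] at hxy
    exact ih (stageEmb_injective p b hxy)

/-- The transition maps of the kernels. -/
noncomputable def trK {a b : ℕ} (h : a ≤ b) : (stage p a).π.ker →* (stage p b).π.ker :=
  ((tr p h).comp (stage p a).π.ker.subtype).codRestrict _ (fun x => by
    show (stage p b).π (tr p h x) = 1
    rw [tr_proj]
    exact x.2)

lemma trK_coe {a b : ℕ} (h : a ≤ b) (x : (stage p a).π.ker) :
    ((trK p h x : (stage p b).π.ker) : (stage p b).P) = tr p h x := rfl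

lemma trK_trans {a b c : ℕ} (h : a ≤ b) (h' : b ≤ c) (x : (stage p a).π.ker) :
    trK p h' (trK p h x) = trK p (h.trans h') x := by
  apply Subtype.ext
  exact tr_trans p h h' x

/-- The commuting conjugate copies. -/
noncomputable def copies : Copies p (fun n => (stage p n).π.ker) (trK p) where
  i b k := copyHom (stage p b).π k
  comm b j k hjk hk x y := copyHom_comm (stage p b).π j k hjk hk x y
  prod b x := by
    apply Subtype.ext
    rw [trK_coe, tr_succ]
    exact copies_prod (stage p b).π x
  s b := conjElt (stage p b).π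
  conj b k x := conjElt_conj (stage p b).π k x

theorem kill_tower (m : ℕ) : Kill p (fun n => (stage p n).π.ker) (trK p) m :=
  kill_all p (trK p) (trK_trans p) (copies p) m

/-- The tower of extensions. -/
noncomputable def towerSys : ExtSys (Multiplicative (ZMod p)) where
  E n := (stage p n).P
  N n := (stage p n).π.ker
  κ n := (stage p n).π.ker.subtype
  π n := (stage p n).π
  inj n := Subtype.val_injective
  ex n e := ⟨fun h => ⟨⟨e, h⟩, rfl⟩, fun ⟨x, hx⟩ => by rw [← hx]; exact x.2⟩
  surj n := (stage p n).surj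
  tE h := tr p h
  tN h := trK p h
  tE_trans h h' x := tr_trans p h h' x
  comm h x := rfl
  tπ h x := tr_proj p h x

/-- Surjectivity on the cohomology of the tower. -/
theorem tower_surj (m a : ℕ) : ∃ (b : ℕ) (h : a ≤ b),
    ∀ F : (Fin (m + 1) → (stage p b).P) → ZMod p, Eqv 1 F → del (m + 1) F = 0 →
      ∃ (f : (Fin (m + 1) → Multiplicative (ZMod p)) → ZMod p) (g : (Fin m → (stage p a).P) → ZMod p),
        Eqv 1 f ∧ del (m + 1) f = 0 ∧ Eqv 1 g ∧
        (fun x => F (tr p h ∘ x)) = (fun x => f ((stage p a).π ∘ x)) + del m g := by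
  obtain ⟨b, h, H⟩ := ext_surj p (towerSys p) m (fun i _ => kill_tower p i) a
  obtain ⟨c, h', H'⟩ := kill_tower p m b
  refine ⟨c, h.trans h', fun F hF hd => ?_⟩
  have hV : ∀ v : ZMod p, p • v = 0 := by
    intro v
    rw [nsmul_eq_mul, CharP.cast_eq_zero, zero_mul]
  have hN : Eqv 1 (fun x => F ((stage p c).π.ker.subtype ∘ x)) := hF.comp _
  have hNd : del (m + 1) (fun x => F ((stage p c).π.ker.subtype ∘ x)) = 0 := by
    have := del_comp (m + 1) (stage p c).π.ker.subtype F
    rw [hd] at this
    exact this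
  obtain ⟨G, hG, hGd⟩ := H' (ZMod p) hV _ hN hNd
  have hFb : Eqv 1 (fun x => F (tr p h' ∘ x)) := hF.comp (tr p h')
  have hFbd : del (m + 1) (fun x => F (tr p h' ∘ x)) = 0 := by
    have := del_comp (m + 1) (tr p h') F
    rw [hd] at this
    exact this
  obtain ⟨f, g, hf, hfd, hg, -, hfg⟩ := H (ZMod p) hV 1 (fun x => F (tr p h' ∘ x)) hFb hFbd
    ⟨G, hG, hGd⟩
  refine ⟨f, g, hf, hfd, hg, ?_⟩
  have e : (fun x => F (tr p (h.trans h') ∘ x)) = fun x => F (tr p h' ∘ ((towerSys p).tE h ∘ x)) := by
    funext x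
    congr 1
    funext i
    exact (tr_trans p h h' (x i)).symm
  rw [e]
  exact hfg

/-- Injectivity on the cohomology of the tower. -/
theorem tower_inj (m : ℕ) (f : (Fin (m + 2) → Multiplicative (ZMod p)) → ZMod p)
    (hf : Eqv 1 f) (hd : del (m + 2) f = 0)
    (hall : ∀ b, ∃ g : (Fin (m + 1) → (stage p b).P) → ZMod p, Eqv 1 g ∧
      (fun x => f ((stage p b).π ∘ x)) = del (m + 1) g) :
    ∃ g' : (Fin (m + 1) → Multiplicative (ZMod p)) → ZMod p, Eqv 1 g' ∧ del (m + 1) g' = f := by
  obtain ⟨b, -, H⟩ := ext_inj p (towerSys p) m (fun i _ => kill_tower p i) 0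
  have hV : ∀ v : ZMod p, p • v = 0 := by
    intro v
    rw [nsmul_eq_mul, CharP.cast_eq_zero, zero_mul]
  obtain ⟨g, hg, hfg⟩ := hall b
  exact H (ZMod p) hV 1 f hf hd g hg hfg

end Pool.Agent.H68.Ce
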