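import Pool.Agent.H68.CeNerve
import Pool.Agent.H68.CeSys

/-!
# The colimit of the classifying spaces of the tower
-/

set_option autoImplicit false

open CategoryTheory Limits Simplicial Opposite

namespace Pool.Agent.H68.Ce

/-- The classifying space functor. -/
def BFun : GrpCat.{0} ⥤ SSet.{0} where
  obj G := BG G
  map f := BGMap f.hom
  map_id G := by
    ext n x
    rfl
  map_comp f g := by
    ext n x
    rfl

section Generic

variable {k : Type} [Field k] (F : ℕ ⥤ SSet.{0}) (c : Cocone F) (hc : IsColimit c)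

include hc in
lemma exists_simplex {n : ℕ} (x : c.pt _⦋n⦌) : ∃ (a : ℕ) (y : (F.obj a) _⦋n⦌),
    (c.ι.app a).app _ y = x := by
  have h := isColimitOfPreserves ((evaluation _ _).obj (op ⦋n⦌)) hc
  obtain ⟨a, y, hy⟩ := Types.jointly_surjective _ h x
  exact ⟨a, y, hy⟩

include hc in
lemma simplex_eq {n : ℕ} (a : ℕ) (x y : (F.obj a) _⦋n⦌)
    (h : (c.ι.app a).app _ x = (c.ι.app a).app _ y) :
    ∃ (b : ℕ) (h : a ≤ b), (F.map (homOfLE h)).app _ x = (F.map (homOfLE h)).app _ y := by
  have hh := isColimitOfPreserves ((evaluation _ _).obj (op ⦋n⦌)) hc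
  obtain ⟨b, f, hf⟩ := (Types.FilteredColimit.isColimit_eq_iff' hh x y).1 h
  exact ⟨b, leOfHom f, hf⟩

lemma leg_comp {a b : ℕ} (h : a ≤ b) : F.map (homOfLE h) ≫ c.ι.app b = c.ι.app a := c.w _

/-- chain map shorthand -/
noncomputable abbrev cm (k : Type) [Field k] {X Y : SSet.{0}} (f : X ⟶ Y) (n : ℕ) :
    (X.chainComplex (RR k)).X n →ₗ[k] (Y.chainComplex (RR k)).X n :=
  ((SSet.chainComplexMap f (RR k)).f n).hom

/-- differential shorthand -/
noncomputable abbrev dd (k : Type) [Field k] (X : SSet.{0}) (i j : ℕ) :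
    (X.chainComplex (RR k)).X i →ₗ[k] (X.chainComplex (RR k)).X j :=
  ((X.chainComplex (RR k)).d i j).hom

lemma cm_comp {X Y Z : SSet.{0}} (f : X ⟶ Y) (g : Y ⟶ Z) (n : ℕ)
    (z : (X.chainComplex (RR k)).X n) : cm k (f ≫ g) n z = cm k g n (cm k f n z) := by
  have h : SSet.chainComplexMap (f ≫ g) (RR k)
      = SSet.chainComplexMap f (RR k) ≫ SSet.chainComplexMap g (RR k) := Functor.map_comp _ _ _
  show ((SSet.chainComplexMap (f ≫ g) (RR k)).f n).hom z = _
  rw [h]
  rfl

lemma cm_dd {X Y : SSet.{0}} (f : X ⟶ Y) (i j : ℕ)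
    (z : (X.chainComplex (RR k)).X i) : cm k f j (dd k X i j z) = dd k Y i j (cm k f i z) := by
  have h := (SSet.chainComplexMap f (RR k)).comm i j
  exact (congrArg (fun g => g.hom z) h).symm

include hc in
lemma exists_chain {n : ℕ} (z : (c.pt.chainComplex (RR k)).X n) :
    ∃ (a : ℕ) (w : ((F.obj a).chainComplex (RR k)).X n), cm k (c.ι.app a) n w = z := by
  -- the submodule of liftable chains
  let S : Submodule k ((c.pt.chainComplex (RR k)).X n) :=
    { carrier := {z | ∃ (a : ℕ) (w : ((F.obj a).chainComplex (RR k)).X n),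
        cm k (c.ι.app a) n w = z}
      zero_mem' := ⟨0, 0, map_zero _⟩
      add_mem' := by
        rintro z z' ⟨a, w, rfl⟩ ⟨a', w', rfl⟩
        refine ⟨max a a', cm k (F.map (homOfLE (le_max_left a a'))) n w
          + cm k (F.map (homOfLE (le_max_right a a'))) n w', ?_⟩
        rw [map_add, ← cm_comp, ← cm_comp, leg_comp, leg_comp]
      smul_mem' := by
        rintro r z ⟨a, w, rfl⟩
        exact ⟨a, r • w, map_smul _ _ _⟩ }
  by_contra hz
  have hzS : z ∉ S := hz
  obtain ⟨φ, hφ, hφz⟩ := exists_functional S z hzS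
  apply hφz
  have : φ = 0 := by
    apply linearMap_ext
    intro x
    obtain ⟨a, y, hy⟩ := exists_simplex F c hc x
    rw [LinearMap.zero_apply]
    apply hφ
    refine ⟨a, el k y, ?_⟩
    show (SSet.chainComplexMap (c.ι.app a) (RR k)).f n (el k y) = _
    rw [map_el, hy]
  rw [this, LinearMap.zero_apply]

/-- The chain map of a map which is injective on simplices is injective. -/
lemma cm_injective {X Y : SSet.{0}} (f : X ⟶ Y) (n : ℕ)
    (hf : Function.Injective (fun s : X _⦋n⦌ => f.app _ s)) :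
    Function.Injective (cm k f n) := by
  rw [injective_iff_map_eq_zero]
  intro z hz
  by_contra hne
  obtain ⟨φ, -, hφz⟩ := exists_functional (k := k) (⊥ : Submodule k _) z
    (by rwa [Submodule.mem_bot])
  apply hφz
  classical
  let F' : Y _⦋n⦌ → k := fun y => if h : ∃ x, f.app _ x = y then φ (el k h.choose) else 0
  have h1 : φ = fn (fun x => F' (f.app _ x)) := by
    apply linearMap_ext
    intro x
    rw [fn_el]
    have hx : ∃ x', f.app _ x' = f.app _ x := ⟨x, rfl⟩
    have h2 : hx.choose = x := hf hx.choose_spec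
    simp only [F', dif_pos hx, h2]
  rw [h1, ← fn_map]
  show fn F' (cm k f n z) = 0
  rw [hz, map_zero]

include hc in
/-- The main criterion. -/
theorem criterion {Y : SSet.{0}} (g : c.pt ⟶ Y) (n : ℕ)
    (hmono : ∀ (a b : ℕ) (h : a ≤ b) (m : ℕ),
      Function.Injective (fun s : (F.obj a) _⦋m⦌ => (F.map (homOfLE h)).app _ s))
    (hS : ∀ a, ∃ (b : ℕ) (h : a ≤ b), ∀ φ : (F.obj b) _⦋n⦌ → k, dX φ = 0 →
      ∃ ψ : Y _⦋n⦌ → k, dX ψ = 0 ∧ ∀ z : ((F.obj a).chainComplex (RR k)).X n,
        dd k (F.obj a) n ((ComplexShape.down ℕ).next n) z = 0 →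
        fn φ (cm k (F.map (homOfLE h)) n z) = fn ψ (cm k (c.ι.app a ≫ g) n z))
    (hI : ∀ ψ : Y _⦋n⦌ → k, dX ψ = 0 →
      (∀ b (z : ((F.obj b).chainComplex (RR k)).X n),
        dd k (F.obj b) n ((ComplexShape.down ℕ).next n) z = 0 →
        fn ψ (cm k (c.ι.app b ≫ g) n z) = 0) →
      ∀ y : (Y.chainComplex (RR k)).X n, dd k Y n ((ComplexShape.down ℕ).next n) y = 0 →
        fn ψ y = 0) :
    IsIso (SSet.homologyMap g (RR k) n) := by
  have hmono' : ∀ (a m : ℕ), Function.Injective (fun s : (F.obj a) _⦋m⦌ => (c.ι.app a).app _ s) := by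
    intro a m x y hxy
    obtain ⟨b, h, hb⟩ := simplex_eq F c hc a x y hxy
    exact hmono a b h m hb
  have hcoc : ∀ (X : SSet.{0}) (φ : (X.chainComplex (RR k)).X n →ₗ[k] k),
      (∀ w : (X.chainComplex (RR k)).X (n + 1), φ (dd k X (n + 1) n w) = 0) →
      dX (fun x => φ (el k x)) = 0 := by
    intro X φ h
    funext x
    have h1 := fn_d (fun x => φ (el k x)) (el k x)
    rw [fn_el, fn_of_linear] at h1
    rw [← h1]
    exact h _
  apply isIso_homologyMap
  · rintro z hz ⟨y, hy⟩
    obtain ⟨a, w, rfl⟩ := exists_chain (k := k) F c hc z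
    have hw : dd k (F.obj a) n ((ComplexShape.down ℕ).next n) w = 0 := by
      apply cm_injective (k := k) (c.ι.app a) _ (hmono' a _)
      rw [cm_dd, map_zero]
      exact hz
    obtain ⟨b, h, H⟩ := hS a
    have hb : cm k (F.map (homOfLE h)) n w ∈ LinearMap.range (dd k (F.obj b) (n + 1) n) := by
      by_contra hne
      obtain ⟨φ, hφ, hφz⟩ := exists_functional _ _ hne
      apply hφz
      have hφc := hcoc (F.obj b) φ (fun w => hφ _ ⟨w, rfl⟩)
      obtain ⟨ψ, hψ, hψz⟩ := H _ hφc
      have h2 := hψz w hw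
      rw [fn_of_linear] at h2
      rw [h2, cm_comp]
      have h3 : cm k g n (cm k (c.ι.app a) n w) = dd k Y (n + 1) n y := hy.symm
      rw [h3]
      have h4 := fn_d ψ y
      rw [hψ] at h4
      rw [show fn ψ (dd k Y (n + 1) n y) = fn 0 y from h4]
      have : fn (0 : Y _⦋n + 1⦌ → k) = 0 := by
        apply linearMap_ext
        intro x
        simp
      rw [this]
      rfl
    obtain ⟨v, hv⟩ := hb
    refine ⟨cm k (c.ι.app b) (n + 1) v, ?_⟩
    show dd k c.pt (n + 1) n (cm k (c.ι.app b) (n + 1) v) = cm k (c.ι.app a) n w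
    rw [← cm_dd, hv, ← cm_comp, leg_comp]
  · intro y hy
    -- boundaries and images of cycles
    let U : Submodule k ((Y.chainComplex (RR k)).X n) :=
      LinearMap.range (dd k Y (n + 1) n) ⊔
        Submodule.map (cm k g n) (LinearMap.ker (dd k c.pt n ((ComplexShape.down ℕ).next n)))
    have hyU : y ∈ U := by
      by_contra hne
      obtain ⟨φ, hφ, hφz⟩ := exists_functional _ _ hne
      apply hφz
      have hφc := hcoc Y φ (fun w => hφ _ (Submodule.mem_sup_left ⟨w, rfl⟩))
      have h1 := hI _ hφc (by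
        intro b z hz
        rw [fn_of_linear, cm_comp]
        apply hφ
        apply Submodule.mem_sup_right
        refine ⟨cm k (c.ι.app b) n z, ?_, rfl⟩
        show dd k c.pt n ((ComplexShape.down ℕ).next n) (cm k (c.ι.app b) n z) = 0
        rw [← cm_dd, hz, map_zero]) y hy
      rwa [fn_of_linear] at h1
    obtain ⟨_, ⟨w, rfl⟩, _, ⟨x, hx, rfl⟩, hxy⟩ := Submodule.mem_sup.1 hyU
    refine ⟨x, hx, w, ?_⟩
    rw [← hxy, add_comm]

end Generic

section Tower

variable (p : ℕ) [hp : Fact p.Prime]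

/-- The projections of the tower as a cocone. -/
noncomputable def towerCocone : Cocone (tower p) where
  pt := GrpCat.of (Multiplicative (ZMod p))
  ι :=
    { app := fun n => GrpCat.ofHom (stage p n).π
      naturality := fun a b h => by
        ext x
        exact tr_proj p (leOfHom h) x }

/-- The map from the colimit of the classifying spaces to `B(ℤ/p)`. -/
noncomputable def colimMap : colimit (tower p ⋙ BFun) ⟶ BG (Multiplicative (ZMod p)) :=
  colimit.desc (tower p ⋙ BFun) (BFun.mapCocone (towerCocone p))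

lemma ι_colimMap (a : ℕ) :
    (colimit.cocone (tower p ⋙ BFun)).ι.app a ≫ colimMap p = BGMap (stage p a).π :=
  colimit.ι_desc _ _

lemma map_tower {a b : ℕ} (h : a ≤ b) :
    (tower p ⋙ BFun).map (homOfLE h) = BGMap (tr p h) := rfl

/-- Cochains on cycles. -/
lemma fn_coboundary {k : Type} [Field k] {X : SSet.{0}} {n : ℕ} (χ : X _⦋n⦌ → k)
    (z : (X.chainComplex (RR k)).X (n + 1))
    (hz : dd k X (n + 1) ((ComplexShape.down ℕ).next (n + 1)) z = 0) : fn (dX χ) z = 0 := by
  rw [← fn_d]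
  have h1 : (ComplexShape.down ℕ).next (n + 1) = n := ComplexShape.next_eq' _ (by simp)
  rw [h1] at hz
  show fn χ (dd k X (n + 1) n z) = 0
  rw [hz, map_zero]

lemma helperS_zero (a : ℕ) (φ : (BG (stage p a).P) _⦋0⦌ → ZMod p) :
    ∃ ψ : (BG (Multiplicative (ZMod p))) _⦋0⦌ → ZMod p, dX ψ = 0 ∧
      ∀ z : ((BG (stage p a).P).chainComplex (RR (ZMod p))).X 0,
        fn φ (cm (ZMod p) (BGMap (tr p (le_refl a))) 0 z)
          = fn ψ (cm (ZMod p) (BGMap (stage p a).π) 0 z) := by
  refine ⟨fun _ => φ (ev 1), ?_, ?_⟩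
  · funext s
    unfold dX
    simp [Fin.sum_univ_two]
  · intro z
    have h1 : (fun s : (BG (stage p a).P) _⦋0⦌ => φ ((BGMap (tr p (le_refl a))).app _ s))
        = (fun s : (BG (stage p a).P) _⦋0⦌ => φ (ev 1)) := by
      funext s
      obtain ⟨x, rfl⟩ := ev_surjective s
      rw [map_ev]
      congr 1
      rw [ev_eq_iff]
      refine ⟨(tr p (le_refl a) (x 0))⁻¹, ?_⟩
      funext i
      have : i = 0 := Fin.fin_one_eq_zero i
      subst this
      simp [lm]
    have h2 := fn_map (BGMap (tr p (le_refl a))) φ z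
    have h3 := fn_map (BGMap (stage p a).π)
      (fun _ : (BG (Multiplicative (ZMod p))) _⦋0⦌ => φ (ev 1)) z
    rw [h1] at h2
    exact h2.trans h3.symm

lemma helperS (n a : ℕ) : ∃ (b : ℕ) (h : a ≤ b),
    ∀ φ : (BG (stage p b).P) _⦋n⦌ → ZMod p, dX φ = 0 →
    ∃ ψ : (BG (Multiplicative (ZMod p))) _⦋n⦌ → ZMod p, dX ψ = 0 ∧
      ∀ z : ((BG (stage p a).P).chainComplex (RR (ZMod p))).X n,
        dd (ZMod p) (BG (stage p a).P) n ((ComplexShape.down ℕ).next n) z = 0 →
        fn φ (cm (ZMod p) (BGMap (tr p h)) n z)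
          = fn ψ (cm (ZMod p) (BGMap (stage p a).π) n z) := by
  cases n with
  | zero =>
    refine ⟨a, le_rfl, fun φ _ => ?_⟩
    obtain ⟨ψ, h1, h2⟩ := helperS_zero p a φ
    exact ⟨ψ, h1, fun z _ => h2 z⟩
  | succ n =>
    obtain ⟨b, h, H⟩ := tower_surj p (n + 1) a
    refine ⟨b, h, fun φ hφ => ?_⟩
    have hφ' := (dX_eq_iff (G := (stage p b).P) φ 0).1 hφ
    obtain ⟨f, g, hf, hfd, hg, hfg⟩ := H (fun x => φ (ev x)) (eqv_ev φ) hφ'
    obtain ⟨ψ, hψ⟩ := exists_of_eqv f hf
    obtain ⟨χ, hχ⟩ := exists_of_eqv g hg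
    have hψ' : (fun x => ψ (ev x)) = f := funext hψ
    have hχ' : (fun x => χ (ev x)) = g := funext hχ
    refine ⟨ψ, ?_, ?_⟩
    · rw [dX_eq_iff, hψ', hfd]
      rfl
    · intro z hz
      have h2 := fn_map (BGMap (tr p h)) φ z
      have h3 := fn_map (BGMap (stage p a).π) ψ z
      have h4 : (fun s : (BG (stage p a).P) _⦋n + 1⦌ => φ ((BGMap (tr p h)).app _ s))
          = (fun s => ψ ((BGMap (stage p a).π).app _ s)) + dX χ := by
        funext s
        obtain ⟨x, rfl⟩ := ev_surjective s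
        rw [Pi.add_apply, map_ev, map_ev, dX_ev, hχ', hψ]
        exact congrFun hfg x
      have h5 : fn ((fun s : (BG (stage p a).P) _⦋n + 1⦌ => ψ ((BGMap (stage p a).π).app _ s))
          + dX χ) = fn (fun s => ψ ((BGMap (stage p a).π).app _ s)) + fn (dX χ) := by
        apply linearMap_ext
        intro x
        simp
      rw [h4, h5, LinearMap.add_apply] at h2
      have h6 := fn_coboundary χ z hz
      rw [h6, add_zero, ← h3] at h2
      exact h2

lemma helperI (n : ℕ) (ψ : (BG (Multiplicative (ZMod p))) _⦋n⦌ → ZMod p) (hψ : dX ψ = 0)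
    (hall : ∀ b (z : ((BG (stage p b).P).chainComplex (RR (ZMod p))).X n),
        dd (ZMod p) (BG (stage p b).P) n ((ComplexShape.down ℕ).next n) z = 0 →
        fn ψ (cm (ZMod p) (BGMap (stage p b).π) n z) = 0)
    (y : ((BG (Multiplicative (ZMod p))).chainComplex (RR (ZMod p))).X n)
    (hy : dd (ZMod p) (BG (Multiplicative (ZMod p))) n ((ComplexShape.down ℕ).next n) y = 0) :
    fn ψ y = 0 := by
  cases n with
  | zero =>
    have h0 : ψ = 0 := by
      funext s
      obtain ⟨x, rfl⟩ := ev_surjective s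
      have h1 := hall 0 (el (ZMod p) (ev (G := (stage p 0).P) (n := 0) 1)) (by
        have h1 : (ComplexShape.down ℕ).next 0 = 0 := by
          apply ComplexShape.next_eq_self
          simp
        rw [h1]
        show (((BG (stage p 0).P).chainComplex (RR (ZMod p))).d 0 0).hom _ = 0
        rw [HomologicalComplex.shape _ _ _ (by simp)]
        rfl)
      have h2 : fn ψ ((SSet.chainComplexMap (BGMap (stage p 0).π) (RR (ZMod p))).f 0
        (el (ZMod p) (ev (G := (stage p 0).P) (n := 0) 1))) = 0 := h1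
      rw [map_el, fn_el, map_ev] at h2
      rw [Pi.zero_apply, ← h2]
      congr 1
      rw [ev_eq_iff]
      refine ⟨(x 0)⁻¹, ?_⟩
      funext i
      have : i = 0 := Fin.fin_one_eq_zero i
      subst this
      simp [lm]
    rw [h0]
    have : fn (0 : (BG (Multiplicative (ZMod p))) _⦋0⦌ → ZMod p) = 0 := by
      apply linearMap_ext
      intro x
      simp
    rw [this]
    rfl
  | succ n =>
    have hψ' := (dX_eq_iff (G := Multiplicative (ZMod p)) ψ 0).1 hψ
    obtain ⟨g', hg', hgd'⟩ := tower_inj p n (fun x => ψ (ev x)) (eqv_ev ψ) hψ' (by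
      intro b
      obtain ⟨χ, hχ⟩ := factor_functional (k := ZMod p) (dd (ZMod p) (BG (stage p b).P) (n + 1) n)
        (fn ψ ∘ₗ cm (ZMod p) (BGMap (stage p b).π) (n + 1)) (by
          intro z hz
          exact hall b z (by
            have h1 : (ComplexShape.down ℕ).next (n + 1) = n := ComplexShape.next_eq' _ (by simp)
            rw [h1]
            exact hz))
      refine ⟨fun x => χ (el (ZMod p) (ev x)), eqv_ev (fun s => χ (el (ZMod p) s)), ?_⟩
      have h2 : dX (fun s : (BG (stage p b).P) _⦋n⦌ => χ (el (ZMod p) s))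
          = fun s => ψ ((BGMap (stage p b).π).app _ s) := by
        funext s
        have h3 := fn_d (fun s : (BG (stage p b).P) _⦋n⦌ => χ (el (ZMod p) s)) (el (ZMod p) s)
        rw [fn_el, fn_of_linear] at h3
        rw [← h3]
        have h4 := congrArg (fun f => f (el (ZMod p) s)) hχ
        simp only [LinearMap.comp_apply] at h4
        have h5 : fn ψ ((SSet.chainComplexMap (BGMap (stage p b).π) (RR (ZMod p))).f (n + 1)
          (el (ZMod p) s)) = ψ ((BGMap (stage p b).π).app _ s) := by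
          rw [map_el, fn_el]
        rw [← h5]
        exact h4.symm
      rw [(dX_eq_iff _ _).1 h2]
      funext x
      rw [map_ev])
    obtain ⟨χ, hχ⟩ := exists_of_eqv g' hg'
    have hχ' : (fun x => χ (ev x)) = g' := funext hχ
    have h1 : dX χ = ψ := by
      rw [dX_eq_iff, hχ', hgd']
    rw [← h1]
    exact fn_coboundary χ y hy

theorem colimMap_modPEquiv : ModPEquiv p (colimMap p) := by
  intro n
  refine criterion (k := ZMod p) (tower p ⋙ BFun) (colimit.cocone _) (colimit.isColimit _)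
    (colimMap p) n ?_ ?_ ?_
  · intro a b h m
    exact bgMap_injective (tr p h) (tr_injective p h)
  · intro a
    obtain ⟨b, h, H⟩ := helperS p n a
    refine ⟨b, h, fun φ hφ => ?_⟩
    obtain ⟨ψ, h1, h2⟩ := H φ hφ
    refine ⟨ψ, h1, fun z hz => ?_⟩
    rw [ι_colimMap]
    exact h2 z hz
  · intro ψ hψ hall y hy
    refine helperI p n ψ hψ (fun b z hz => ?_) y hy
    have := hall b z hz
    rw [ι_colimMap] at this
    exact this

end Tower

end Pool.Agent.H68.Ce
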