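import Mathlib

/-!
# Definitions for MP_ce8751_gt: classifying spaces, mod `p` equivalences, `p`-completion

Spaces are simplicial sets.  `BG G` is the nerve of the group `G` (one object category).
-/

set_option autoImplicit false

open CategoryTheory Limits Simplicial Opposite

namespace Pool.Agent.H68.Ce

/-- The classifying space of a group, as a simplicial set: the nerve of the one object
category of `G`. -/
abbrev BG (G : Type) [Group G] : SSet.{0} := nerve (SingleObj G)

/-- The map of classifying spaces induced by a group homomorphism. -/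
abbrev BGMap {G H : Type} [Group G] [Group H] (f : G →* H) : BG G ⟶ BG H :=
  nerveMap (SingleObj.mapHom G H f)

/-- A map of simplicial sets is a mod `p` equivalence if it induces isomorphisms on all
simplicial homology groups with coefficients in `ℤ/p`. -/
def ModPEquiv (p : ℕ) {X Y : SSet.{0}} (f : X ⟶ Y) : Prop :=
  ∀ n : ℕ, IsIso (SSet.homologyMap f (ModuleCat.of (ZMod p) (ZMod p)) n)

/-- A simplicial set is `p`-complete if it is a Kan complex which is local with respect to
mod `p` equivalences: precomposition with a mod `p` equivalence is a bijection on homotopy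
classes of maps. -/
structure PComplete (p : ℕ) (Z : SSet.{0}) : Prop where
  /-- `Z` is a Kan complex -/
  kan : SSet.KanComplex Z
  /-- extension of maps up to homotopy -/
  ext : ∀ {A B : SSet.{0}} (f : A ⟶ B), ModPEquiv p f → ∀ u : A ⟶ Z,
    ∃ v : B ⟶ Z, Nonempty (SSet.Homotopy (f ≫ v) u)
  /-- uniqueness of the extension up to homotopy -/
  uniq : ∀ {A B : SSet.{0}} (f : A ⟶ B), ModPEquiv p f → ∀ v v' : B ⟶ Z,
    Nonempty (SSet.Homotopy (f ≫ v) (f ≫ v')) → Nonempty (SSet.Homotopy v v')

/-- `η : X ⟶ Y` is a `p`-completion: a mod `p` equivalence to a `p`-complete space. -/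
def IsPCompletion (p : ℕ) {X Y : SSet.{0}} (η : X ⟶ Y) : Prop :=
  PComplete p Y ∧ ModPEquiv p η

end Pool.Agent.H68.Ce
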