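import Pool.Agent.H68.CeDefs

/-!
# Definitions for MP_ce8751_gt: loop spaces, `p`-compact groups, direct systems
-/

set_option autoImplicit false

open CategoryTheory Limits Simplicial Opposite MonoidalCategory

namespace Pool.Agent.H68.Ce

/-- The (simplicial) loop space of `X` at the vertex `b`: an `n`-simplex is a map
`Δ[n] × Δ[1] ⟶ X` which is constant with value `b` on `Δ[n] × {0}` and on `Δ[n] × {1}`.
For a Kan complex this is the usual model of the based loop space. -/
noncomputable def loopSpace (X : SSet.{0}) (b : X _⦋0⦌) : SSet.{0} where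
  obj n := {h : SSet.stdSimplex.{0}.obj n.unop ⊗ Δ[1] ⟶ X //
    SSet.ι₀ ≫ h = SSet.const b ∧ SSet.ι₁ ≫ h = SSet.const b}
  map f := ↾fun h => ⟨(SSet.stdSimplex.map f.unop ▷ Δ[1]) ≫ h.1,
    by rw [SSet.ι₀_comp_assoc, h.2.1, SSet.comp_const],
    by rw [SSet.ι₁_comp_assoc, h.2.2, SSet.comp_const]⟩
  map_id n := by
    refine ConcreteCategory.hom_ext _ _ fun h => Subtype.ext ?_
    show (SSet.stdSimplex.map (𝟙 n.unop) ▷ Δ[1]) ≫ h.1 = h.1
    rw [CategoryTheory.Functor.map_id, id_whiskerRight, Category.id_comp]
  map_comp f g := by
    refine ConcreteCategory.hom_ext _ _ fun h => Subtype.ext ?_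
    show (SSet.stdSimplex.map (g.unop ≫ f.unop) ▷ Δ[1]) ≫ h.1 =
      (SSet.stdSimplex.map g.unop ▷ Δ[1]) ≫ (SSet.stdSimplex.map f.unop ▷ Δ[1]) ≫ h.1
    rw [Functor.map_comp, comp_whiskerRight, Category.assoc]

/-- The `n`-th simplicial homology group of `X` with coefficients in `ℤ/p`. -/
noncomputable abbrev modPHomology (p : ℕ) (X : SSet.{0}) (n : ℕ) : ModuleCat.{0} (ZMod p) :=
  X.homology (ModuleCat.of (ZMod p) (ZMod p)) n

/-- The mod `p` homology of `X` is finite: each homology group with coefficients in `ℤ/p`
is finite dimensional and almost all of them vanish.  (Equivalently, since we are over a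
field, the mod `p` cohomology of `X` is finite.) -/
def HomologyFinite (p : ℕ) (X : SSet.{0}) : Prop :=
  (∀ n : ℕ, Module.Finite (ZMod p) (modPHomology p X n)) ∧
    ∃ N : ℕ, ∀ n : ℕ, N ≤ n → IsZero (modPHomology p X n)

/-- `B` is the classifying space of a `p`-compact group: it is a connected `p`-complete
space whose loop space has finite mod `p` homology. -/
structure IsPCompactBX (p : ℕ) (B : SSet.{0}) : Prop where
  /-- `B` is `p`-complete -/
  complete : PComplete p B
  /-- `B` is connected -/
  connected : B.IsConnected
  /-- the loop space has finite mod `p` homology -/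
  finite : ∀ b : B _⦋0⦌, HomologyFinite p (loopSpace B b)

/-- A direct system `B₀ ⟶ B₁ ⟶ ...` of classifying spaces of finite groups, completed at
`p`, whose transition maps are injective (so that its colimit is also its homotopy
colimit), together with a `p`-completion `η` of the colimit which is the classifying space
`BX` of a `p`-compact group. -/
structure DirectSystem (p : ℕ) where
  /-- the direct system -/
  D : ℕ ⥤ SSet.{0}
  /-- the transition maps are injective -/
  mono : ∀ {a b : ℕ} (f : a ⟶ b), Mono (D.map f)
  /-- the `m`-th space is a `p`-completion of the classifying space of a finite group -/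
  stages : ∀ m : ℕ, ∃ (P : Type) (_ : Group P) (_ : Finite P) (θ : BG P ⟶ D.obj m),
    IsPCompletion p θ
  /-- the classifying space of the `p`-compact group -/
  BX : SSet.{0}
  /-- it is the classifying space of a `p`-compact group -/
  pcompact : IsPCompactBX p BX
  /-- the completion map -/
  η : colimit D ⟶ BX
  /-- it is a `p`-completion -/
  completion : IsPCompletion p η

/-- The map `ι m : D m ⟶ colim D ⟶ BX`. -/
noncomputable def DirectSystem.ι {p : ℕ} (S : DirectSystem p) (m : ℕ) : S.D.obj m ⟶ S.BX :=
  colimit.ι S.D m ≫ S.η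

end Pool.Agent.H68.Ce
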