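import Mathlib

/-!
# Cochains on tuples

`del n F` is the alternating coboundary of a function `F` on `n`-tuples, defined by recursion.
-/

set_option autoImplicit false

namespace Pool.Agent.H68.Ce

section Del

variable {X Y Z : Type} {V W : Type} [AddCommGroup V] [AddCommGroup W]

/-- The alternating coboundary of a function on `n`-tuples. -/
def del : (n : ℕ) → ((Fin n → X) → V) → ((Fin (n + 1) → X) → V)
  | 0, F => fun x => F (Fin.tail x)
  | n + 1, F => fun x =>
      F (Fin.tail x) - del n (fun y => F (Fin.cons (x 0) y)) (Fin.tail x)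

lemma del_zero_apply (F : (Fin 0 → X) → V) (x : Fin 1 → X) :
    del 0 F x = F (Fin.tail x) := rfl

lemma del_succ_apply (n : ℕ) (F : (Fin (n + 1) → X) → V) (x : Fin (n + 2) → X) :
    del (n + 1) F x =
      F (Fin.tail x) - del n (fun y => F (Fin.cons (x 0) y)) (Fin.tail x) := rfl

lemma del_succ_cons (n : ℕ) (F : (Fin (n + 1) → X) → V) (a : X) (x : Fin (n + 1) → X) :
    del (n + 1) F (Fin.cons a x) = F x - del n (fun y => F (Fin.cons a y)) x := by
  rw [del_succ_apply, Fin.tail_cons, Fin.cons_zero]

lemma del_add (n : ℕ) (F F' : (Fin n → X) → V) : del n (F + F') = del n F + del n F' := by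
  induction n with
  | zero => rfl
  | succ n ih =>
    funext x
    have h := ih (fun y => F (Fin.cons (x 0) y)) (fun y => F' (Fin.cons (x 0) y))
    have h' := congrFun h (Fin.tail x)
    simp only [Pi.add_apply] at h'
    simp only [Pi.add_apply, del_succ_apply]
    have e : (fun y : Fin n → X => F (Fin.cons (x 0) y) + F' (Fin.cons (x 0) y))
        = (fun y => F (Fin.cons (x 0) y)) + (fun y => F' (Fin.cons (x 0) y)) := rfl
    rw [e, h']
    abel

/-- `del` is natural in the coefficients. -/
lemma del_coeff (n : ℕ) (T : V →+ W) (F : (Fin n → X) → V) :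
    del n (fun x => T (F x)) = fun x => T (del n F x) := by
  induction n with
  | zero => rfl
  | succ n ih =>
    funext x
    simp only [del_succ_apply]
    have h := congrFun (ih (fun y => F (Fin.cons (x 0) y))) (Fin.tail x)
    rw [h, map_sub]

lemma del_neg (n : ℕ) (F : (Fin n → X) → V) : del n (-F) = - del n F :=
  del_coeff n (-AddMonoidHom.id V) F

lemma del_sub (n : ℕ) (F F' : (Fin n → X) → V) : del n (F - F') = del n F - del n F' := by
  rw [sub_eq_add_neg, del_add, del_neg, ← sub_eq_add_neg]

lemma del_zero_fun (n : ℕ) : del n (0 : (Fin n → X) → V) = 0 :=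
  del_coeff n (0 : V →+ V) 0

lemma del_nsmul (n k : ℕ) (F : (Fin n → X) → V) : del n (k • F) = k • del n F :=
  del_coeff n (nsmulAddMonoidHom k) F

/-- `del` is natural in the set. -/
lemma del_comp (n : ℕ) (α : X → Y) (F : (Fin n → Y) → V) :
    del n (fun x => F (α ∘ x)) = fun x => del n F (α ∘ x) := by
  induction n with
  | zero =>
    funext x
    simp only [del_zero_apply, Fin.comp_tail]
  | succ n ih =>
    funext x
    simp only [del_succ_apply, Fin.comp_tail]
    have h := congrFun (ih (fun y => F (Fin.cons (α (x 0)) y))) (Fin.tail x)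
    have e : (fun y : Fin n → X => F (α ∘ (Fin.cons (x 0) y : Fin (n + 1) → X)))
        = fun y => F (Fin.cons (α (x 0)) (α ∘ y)) := by
      funext y
      rw [Fin.comp_cons]
    rw [e, h, Fin.comp_tail]
    rfl

lemma del_del (n : ℕ) (F : (Fin n → X) → V) : del (n + 1) (del n F) = 0 := by
  induction n with
  | zero =>
    funext x
    simp [del_succ_apply, del_zero_apply, Fin.tail_cons]
  | succ n ih =>
    funext x
    rw [del_succ_apply]
    have e : (fun y : Fin (n + 1) → X => del (n + 1) F (Fin.cons (x 0) y))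
        = F - del n (fun y => F (Fin.cons (x 0) y)) := by
      funext y
      rw [del_succ_cons]
      rfl
    rw [e, del_sub, ih]
    simp

/-- The cone construction: a cocycle is the coboundary of its cone. -/
lemma cocycle_cone (n : ℕ) (F : (Fin (n + 1) → X) → V) (hF : del (n + 1) F = 0) (a : X) :
    del n (fun y => F (Fin.cons a y)) = F := by
  funext x
  have h := congrFun hF (Fin.cons a x)
  rw [del_succ_cons] at h
  simp only [Pi.zero_apply] at h
  exact (sub_eq_zero.1 h).symm

/-- The prism operator. -/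
def prism (α β : X → Y) : (n : ℕ) → ((Fin (n + 1) → Y) → V) → ((Fin n → X) → V)
  | 0, _ => 0
  | n + 1, F => fun x =>
      F (Fin.cons (α (x 0)) (β ∘ x)) - prism α β n (fun y => F (Fin.cons (α (x 0)) y)) (Fin.tail x)

lemma prism_zero (α β : X → Y) (F : (Fin 1 → Y) → V) : prism α β 0 F = 0 := rfl

lemma prism_succ_apply (α β : X → Y) (n : ℕ) (F : (Fin (n + 2) → Y) → V) (x : Fin (n + 1) → X) :
    prism α β (n + 1) F x = F (Fin.cons (α (x 0)) (β ∘ x))
      - prism α β n (fun y => F (Fin.cons (α (x 0)) y)) (Fin.tail x) := rfl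

lemma prism_sub (α β : X → Y) (n : ℕ) (F F' : (Fin (n + 1) → Y) → V) :
    prism α β n (F - F') = prism α β n F - prism α β n F' := by
  induction n with
  | zero => simp [prism_zero]
  | succ n ih =>
    funext x
    have h := congrFun (ih (fun y => F (Fin.cons (α (x 0)) y))
      (fun y => F' (Fin.cons (α (x 0)) y))) (Fin.tail x)
    simp only [Pi.sub_apply, prism_succ_apply]
    simp only [Pi.sub_apply] at h
    have e : (fun y : Fin (n + 1) → Y => F (Fin.cons (α (x 0)) y) - F' (Fin.cons (α (x 0)) y))
        = (fun y => F (Fin.cons (α (x 0)) y)) - (fun y => F' (Fin.cons (α (x 0)) y)) := rfl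
    rw [e, h]
    abel

/-- The prism identity. -/
lemma del_prism (α β : X → Y) (n : ℕ) (F : (Fin (n + 1) → Y) → V) (x : Fin (n + 1) → X) :
    del n (prism α β n F) x + prism α β (n + 1) (del (n + 1) F) x = F (β ∘ x) - F (α ∘ x) := by
  induction n with
  | zero =>
    have e1 : (Fin.cons (α (x 0)) (Fin.tail (β ∘ x)) : Fin 1 → Y) = α ∘ x := by
      funext i
      have : i = 0 := Fin.fin_one_eq_zero i
      subst this
      rfl
    rw [prism_zero, prism_succ_apply, del_succ_cons, del_zero_fun, prism_zero, del_zero_apply, e1]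
    simp
  | succ n ih =>
    rw [del_succ_apply, prism_succ_apply α β (n + 1) (del (n + 1 + 1) F) x, del_succ_cons]
    have e1 : (fun y : Fin n → X => prism α β (n + 1) F (Fin.cons (x 0) y))
        = (fun y => F (Fin.cons (α (x 0)) (Fin.cons (β (x 0)) (β ∘ y))))
          - prism α β n (fun y => F (Fin.cons (α (x 0)) y)) := by
      funext y
      rw [prism_succ_apply, Fin.comp_cons]
      rfl
    have e2 : (fun y : Fin (n + 2) → Y => del (n + 1 + 1) F (Fin.cons (α (x 0)) y))
        = F - del (n + 1) (fun y => F (Fin.cons (α (x 0)) y)) := by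
      funext y
      rw [del_succ_cons]
      rfl
    have e3 : β ∘ x = Fin.cons (β (x 0)) (β ∘ Fin.tail x) := by
      rw [← Fin.comp_cons, Fin.cons_self_tail]
    have e4 := congrFun (del_comp n β
      (fun y => F (Fin.cons (α (x 0)) (Fin.cons (β (x 0)) y)))) (Fin.tail x)
    have e5 : del (n + 1) (fun y => F (Fin.cons (α (x 0)) y)) (β ∘ x)
        = F (Fin.cons (α (x 0)) (β ∘ Fin.tail x))
          - del n (fun y => F (Fin.cons (α (x 0)) (Fin.cons (β (x 0)) y))) (β ∘ Fin.tail x) := by
      rw [e3, del_succ_cons]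
    have e6 : α ∘ x = Fin.cons (α (x 0)) (α ∘ Fin.tail x) := by
      rw [← Fin.comp_cons, Fin.cons_self_tail]
    have h := ih (fun y => F (Fin.cons (α (x 0)) y)) (Fin.tail x)
    rw [e1, e2, del_sub, prism_sub, e5, e6]
    simp only [Pi.sub_apply]
    rw [e4]
    have h' : prism α β (n + 1) (del (n + 1) fun y => F (Fin.cons (α (x 0)) y)) (Fin.tail x)
        = F (Fin.cons (α (x 0)) (β ∘ Fin.tail x)) - F (Fin.cons (α (x 0)) (α ∘ Fin.tail x))
          - del n (prism α β n fun y => F (Fin.cons (α (x 0)) y)) (Fin.tail x) := by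
      rw [← h]; abel
    rw [h']
    abel

lemma prism_comp_right (α β : X → Y) (γ : Z → X) (n : ℕ) (F : (Fin (n + 1) → Y) → V)
    (x : Fin n → Z) :
    prism α β n F (γ ∘ x) = prism (α ∘ γ) (β ∘ γ) n F x := by
  induction n with
  | zero => rfl
  | succ n ih =>
    rw [prism_succ_apply, prism_succ_apply, ← Fin.comp_tail, ih]
    rfl

lemma prism_comp_left (α β : X → Y) (γ : Y → Z) (n : ℕ) (F : (Fin (n + 1) → Z) → V)
    (x : Fin n → X) :
    prism (γ ∘ α) (γ ∘ β) n F x = prism α β n (fun y => F (γ ∘ y)) x := by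
  induction n with
  | zero => rfl
  | succ n ih =>
    rw [prism_succ_apply, prism_succ_apply]
    have e : (fun y : Fin (n + 1) → Y => F (γ ∘ (Fin.cons (α (x 0)) y : Fin (n + 2) → Y)))
        = fun y => F (Fin.cons (γ (α (x 0))) (γ ∘ y)) := by
      funext y
      rw [Fin.comp_cons]
    have h := ih (fun y => F (Fin.cons (γ (α (x 0))) y)) (Fin.tail x)
    rw [e, Fin.comp_cons]
    simp only [Function.comp_apply]
    rw [h]
    rfl

/-- `del` as an alternating sum over the faces. -/
lemma del_eq_sum (n : ℕ) (F : (Fin n → X) → V) (x : Fin (n + 1) → X) :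
    del n F x = ∑ i : Fin (n + 1), (-1 : ℤ) ^ (i : ℕ) • F (x ∘ i.succAbove) := by
  induction n with
  | zero =>
    rw [del_zero_apply, Fin.sum_univ_one]
    simp only [Fin.val_zero, pow_zero, one_smul]
    exact congrArg F (funext fun i => i.elim0)
  | succ n ih =>
    rw [del_succ_apply, Fin.sum_univ_succ, ih, sub_eq_add_neg, ← Finset.sum_neg_distrib]
    congr 1
    · simp only [Fin.val_zero, pow_zero, one_smul]
      rfl
    · refine Finset.sum_congr rfl fun i _ => ?_
      have e : (Fin.cons (x 0) (Fin.tail x ∘ i.succAbove) : Fin (n + 1) → X)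
          = x ∘ i.succ.succAbove := by
        funext j
        refine Fin.cases ?_ (fun j => ?_) j
        · simp
        · simp [Fin.tail, Fin.succ_succAbove_succ]
      rw [e, Fin.val_succ, pow_succ, mul_neg, mul_one, neg_smul]

end Del

end Pool.Agent.H68.Ce
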