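import Pool.Agent.H68.CeDel

/-!
# Equivariant cochains and inflation-restriction for towers of group extensions
-/

set_option autoImplicit false

namespace Pool.Agent.H68.Ce

section Eqv

variable {E Q N : Type} [Group E] [Group Q] [Group N] {V W : Type} [AddCommGroup V]
  [AddCommGroup W]

/-- Left multiplication. -/
def lm (e : E) : E → E := fun y => e * y

lemma lm_mul_comp (e f : E) {n : ℕ} (x : Fin n → E) : lm (e * f) ∘ x = lm e ∘ (lm f ∘ x) := by
  funext i
  simp [lm, mul_assoc]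

lemma lm_one_comp {n : ℕ} (x : Fin n → E) : lm (1 : E) ∘ x = x := by
  funext i
  simp [lm]

lemma hom_lm (π : E →* Q) (e : E) {n : ℕ} (x : Fin n → E) : π ∘ (lm e ∘ x) = lm (π e) ∘ (π ∘ x) := by
  funext i
  simp [lm]

/-- Equivariant cochains with respect to an action on the coefficients. -/
def Eqv (a : E →* AddMonoid.End V) {n : ℕ} (F : (Fin n → E) → V) : Prop :=
  ∀ (e : E) (x : Fin n → E), F (lm e ∘ x) = a e (F x)

lemma Eqv.add {a : E →* AddMonoid.End V} {n : ℕ} {F G : (Fin n → E) → V}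
    (hF : Eqv a F) (hG : Eqv a G) : Eqv a (F + G) := by
  intro e x
  simp only [Pi.add_apply, hF e x, hG e x, map_add]

lemma Eqv.sub {a : E →* AddMonoid.End V} {n : ℕ} {F G : (Fin n → E) → V}
    (hF : Eqv a F) (hG : Eqv a G) : Eqv a (F - G) := by
  intro e x
  simp only [Pi.sub_apply, hF e x, hG e x, map_sub]

lemma Eqv.zero {a : E →* AddMonoid.End V} {n : ℕ} : Eqv a (0 : (Fin n → E) → V) := by
  intro e x
  simp

lemma Eqv.del {a : E →* AddMonoid.End V} {n : ℕ} {F : (Fin n → E) → V}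
    (hF : Eqv a F) : Eqv a (Ce.del n F) := by
  intro e x
  have h := congrFun (del_comp n (lm e) F) x
  have h2 : (fun x => F (lm e ∘ x)) = fun x => a e (F x) := by
    funext y
    exact hF e y
  rw [h2] at h
  rw [← h]
  exact congrFun (del_coeff n (a e) F) x

lemma Eqv.comp {a : E →* AddMonoid.End V} {n : ℕ} {F : (Fin n → E) → V} (hF : Eqv a F)
    (φ : N →* E) : Eqv (a.comp φ) (fun x => F (φ ∘ x)) := by
  intro e x
  show F (φ ∘ (lm e ∘ x)) = _
  rw [hom_lm, hF]
  rfl

lemma Eqv.coeff {a : E →* AddMonoid.End V} {a' : E →* AddMonoid.End W} {n : ℕ}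
    {F : (Fin n → E) → V} (hF : Eqv a F) (T : V →+ W) (hT : ∀ e v, T (a e v) = a' e (T v)) :
    Eqv a' (fun x => T (F x)) := by
  intro e x
  show T (F (lm e ∘ x)) = _
  rw [hF, hT]

/-- A cocycle on `1`-tuples is constant. -/
lemma const_of_cocycle (F : (Fin 1 → E) → V) (h : del 1 F = 0) (x y : Fin 1 → E) : F x = F y := by
  have h1 := congrFun (cocycle_cone 0 F h (1 : E)) x
  have h2 := congrFun (cocycle_cone 0 F h (1 : E)) y
  rw [← h1, ← h2, del_zero_apply, del_zero_apply]
  congr 2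
  funext i
  exact i.elim0

/-- Lifting equivariant cochains along an equivariant surjection. -/
lemma exists_lift_eqv {a : E →* AddMonoid.End W} {a' : E →* AddMonoid.End V}
    (T : W →+ V) (hT : ∀ e v, T (a e v) = a' e (T v)) (hs : Function.Surjective T)
    {n : ℕ} (F : (Fin (n + 1) → E) → V) (hF : Eqv a' F) :
    ∃ G : (Fin (n + 1) → E) → W, Eqv a G ∧ ∀ x, T (G x) = F x := by
  refine ⟨fun x => a (x 0) (Function.surjInv hs (F (lm (x 0)⁻¹ ∘ x))), ?_, ?_⟩
  · intro e x
    have h1 : lm ((lm e ∘ x) 0)⁻¹ ∘ (lm e ∘ x) = lm (x 0)⁻¹ ∘ x := by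
      funext i
      simp [lm, mul_assoc]
    have h2 : (lm e ∘ x) 0 = e * x 0 := rfl
    show a ((lm e ∘ x) 0) (Function.surjInv hs (F (lm ((lm e ∘ x) 0)⁻¹ ∘ (lm e ∘ x)))) = _
    rw [h1, h2, map_mul]
    rfl
  · intro x
    show T (a (x 0) (Function.surjInv hs (F (lm (x 0)⁻¹ ∘ x)))) = F x
    rw [hT, Function.surjInv_eq hs, ← hF, ← lm_mul_comp, mul_inv_cancel, lm_one_comp]

/-- Restricting the values along an equivariant injection. -/
lemma exists_restrict_eqv {a : E →* AddMonoid.End W} {a' : E →* AddMonoid.End V}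
    (j : V →+ W) (hj : ∀ e v, j (a' e v) = a e (j v)) (hi : Function.Injective j)
    {n : ℕ} (F : (Fin n → E) → W) (hF : Eqv a F) (hr : ∀ x, ∃ v, j v = F x) :
    ∃ G : (Fin n → E) → V, Eqv a' G ∧ ∀ x, j (G x) = F x := by
  choose G hG using hr
  refine ⟨G, ?_, hG⟩
  intro e x
  apply hi
  rw [hG, hF, hj, hG]

/-- The coinduced action on functions `Q → V`. -/
def coind (Q V : Type) [Group Q] [AddCommGroup V] : Q →* AddMonoid.End (Q → V) where
  toFun q :=
    { toFun := fun φ q' => φ (q' * q)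
      map_zero' := rfl
      map_add' := fun _ _ => rfl }
  map_one' := by
    ext φ q'
    show φ (q' * 1) = φ q'
    rw [mul_one]
  map_mul' q r := by
    ext φ q'
    show φ (q' * (q * r)) = φ (q' * q * r)
    rw [mul_assoc]

@[simp] lemma coind_apply (q : Q) (φ : Q → V) (q' : Q) : coind Q V q φ q' = φ (q' * q) := rfl

/-- The embedding of a module in the coinduced one. -/
def coindEmb (ρ : Q →* AddMonoid.End V) : V →+ (Q → V) where
  toFun v q' := ρ q' v
  map_zero' := by
    funext q'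
    simp
  map_add' v w := by
    funext q'
    simp

@[simp] lemma coindEmb_apply (ρ : Q →* AddMonoid.End V) (v : V) (q' : Q) :
    coindEmb ρ v q' = ρ q' v := rfl

lemma coindEmb_eqv (ρ : Q →* AddMonoid.End V) (q : Q) (v : V) :
    coindEmb ρ (ρ q v) = coind Q V q (coindEmb ρ v) := by
  funext q'
  simp only [coindEmb_apply, coind_apply, map_mul]
  rfl

lemma coindEmb_injective (ρ : Q →* AddMonoid.End V) : Function.Injective (coindEmb ρ) := by
  intro v w h
  have := congrFun h 1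
  simpa using this

/-- The quotient module. -/
abbrev Quo (ρ : Q →* AddMonoid.End V) : Type := (Q → V) ⧸ (coindEmb ρ).range

/-- The action on the quotient module. -/
def quoAct (ρ : Q →* AddMonoid.End V) : Q →* AddMonoid.End (Quo ρ) where
  toFun q := QuotientAddGroup.map _ _ (coind Q V q) (by
    rintro _ ⟨v, rfl⟩
    exact ⟨ρ q v, coindEmb_eqv ρ q v⟩)
  map_one' := by
    apply QuotientAddGroup.addMonoidHom_ext
    ext φ
    show (QuotientAddGroup.mk ((coind Q V 1) φ) : Quo ρ) = QuotientAddGroup.mk φ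
    rw [map_one]
    rfl
  map_mul' q r := by
    apply QuotientAddGroup.addMonoidHom_ext
    ext φ
    show (QuotientAddGroup.mk ((coind Q V (q * r)) φ) : Quo ρ)
      = QuotientAddGroup.mk (coind Q V q (coind Q V r φ))
    rw [map_mul]
    rfl

/-- The projection to the quotient module. -/
def quoMk (ρ : Q →* AddMonoid.End V) : (Q → V) →+ Quo ρ := QuotientAddGroup.mk' _

lemma quoMk_surjective (ρ : Q →* AddMonoid.End V) : Function.Surjective (quoMk ρ) :=
  QuotientAddGroup.mk'_surjective _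

lemma quoMk_eqv (ρ : Q →* AddMonoid.End V) (q : Q) (φ : Q → V) :
    quoMk ρ (coind Q V q φ) = quoAct ρ q (quoMk ρ φ) := rfl

lemma quoMk_eq_zero (ρ : Q →* AddMonoid.End V) (φ : Q → V) :
    quoMk ρ φ = 0 ↔ ∃ v, coindEmb ρ v = φ := by
  unfold quoMk
  rw [QuotientAddGroup.mk'_apply, QuotientAddGroup.eq_zero_iff]
  rfl

lemma quoMk_emb (ρ : Q →* AddMonoid.End V) (v : V) : quoMk ρ (coindEmb ρ v) = 0 :=
  (quoMk_eq_zero ρ _).2 ⟨v, rfl⟩

lemma quo_torsion (p : ℕ) (hV : ∀ v : V, p • v = 0) (ρ : Q →* AddMonoid.End V) (v : Quo ρ) :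
    p • v = 0 := by
  obtain ⟨φ, rfl⟩ := quoMk_surjective ρ v
  rw [← map_nsmul]
  have : p • φ = 0 := by
    funext q
    exact hV (φ q)
  rw [this, map_zero]

/-- Existence of an equivariant retraction on the kernel. -/
lemma exists_retraction (κ : N →* E) (π : E →* Q)
    (hκ : Function.Injective κ) (hex : ∀ e, π e = 1 ↔ ∃ x, κ x = e)
    (hπ : Function.Surjective π) :
    ∃ r : E → N, ∀ n x, r (κ n * x) = n * r x := by
  have hc : ∀ x : E, ∃ n : N, κ n = x * (Function.surjInv hπ (π x))⁻¹ := by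
    intro x
    rw [← hex, map_mul, map_inv, Function.surjInv_eq hπ, mul_inv_cancel]
  choose r hr using hc
  refine ⟨r, fun n x => ?_⟩
  apply hκ
  have h1 : π (κ n * x) = π x := by
    rw [map_mul, (hex (κ n)).2 ⟨n, rfl⟩, one_mul]
  rw [hr, h1, map_mul, hr, mul_assoc]

/-- A cocycle with values in the coinduced module whose associated cocycle on the kernel is a
coboundary is itself a coboundary. -/
lemma coind_coboundary (κ : N →* E) (π : E →* Q)
    (hκ : Function.Injective κ) (hex : ∀ e, π e = 1 ↔ ∃ x, κ x = e)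
    (hπ : Function.Surjective π) {m : ℕ}
    (Φ : (Fin (m + 1) → E) → (Q → V)) (hΦ : Eqv ((coind Q V).comp π) Φ)
    (hd : del (m + 1) Φ = 0) (ψ₀ : (Fin m → N) → V) (hψ : Eqv 1 ψ₀)
    (h : del m ψ₀ = fun x => Φ (κ ∘ x) 1) :
    ∃ Ψ : (Fin m → E) → (Q → V), Eqv ((coind Q V).comp π) Ψ ∧ del m Ψ = Φ := by
  obtain ⟨r, hr⟩ := exists_retraction κ π hκ hex hπ
  have hr' : ∀ (n : N) {l : ℕ} (x : Fin l → E), r ∘ (lm (κ n) ∘ x) = lm n ∘ (r ∘ x) := by
    intro n l x
    funext i
    exact hr n (x i)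
  -- the associated cocycle with plain coefficients
  let ev : (Q → V) →+ V :=
    { toFun := fun φ => φ 1
      map_zero' := rfl
      map_add' := fun _ _ => rfl }
  let φ : (Fin (m + 1) → E) → V := fun x => ev (Φ x)
  have hφinv : ∀ (n : N) (x : Fin (m + 1) → E), φ (lm (κ n) ∘ x) = φ x := by
    intro n x
    show (Φ (lm (κ n) ∘ x)) 1 = Φ x 1
    rw [hΦ]
    show (Φ x) (1 * π (κ n)) = Φ x 1
    rw [(hex (κ n)).2 ⟨n, rfl⟩, one_mul]
  have hφd : del (m + 1) φ = 0 := by
    have := del_coeff (m + 1) ev Φ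
    rw [hd] at this
    exact this
  let ψ : (Fin m → E) → V := fun x => ψ₀ (r ∘ x) - prism id (κ ∘ r) m φ x
  have hψd : del m ψ = φ := by
    have e1 : ψ = (fun x => ψ₀ (r ∘ x)) - prism id (κ ∘ r) m φ := rfl
    rw [e1, del_sub, del_comp, h]
    funext x
    have h2 := del_prism id (κ ∘ r) m φ x
    rw [hφd] at h2
    have h3 : prism id (κ ∘ r) (m + 1) (0 : (Fin (m + 2) → E) → V) x = 0 := by
      have := prism_sub id (κ ∘ r) (m + 1) (0 : (Fin (m + 2) → E) → V) 0
      rw [sub_self, sub_self] at this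
      rw [this]
      rfl
    rw [h3, add_zero] at h2
    simp only [Pi.sub_apply]
    rw [h2]
    show φ (κ ∘ (r ∘ x)) - (φ ((κ ∘ r) ∘ x) - φ (id ∘ x)) = φ x
    rw [Function.comp_assoc, Function.id_comp]
    abel
  have hψinv : ∀ (n : N) (x : Fin m → E), ψ (lm (κ n) ∘ x) = ψ x := by
    intro n x
    show ψ₀ (r ∘ (lm (κ n) ∘ x)) - prism id (κ ∘ r) m φ (lm (κ n) ∘ x) = _
    rw [hr', hψ n]
    have e2 : prism id (κ ∘ r) m φ (lm (κ n) ∘ x) = prism id (κ ∘ r) m φ x := by
      rw [prism_comp_right]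
      have e3 : (id ∘ lm (κ n) : E → E) = lm (κ n) ∘ id := rfl
      have e4 : (κ ∘ r) ∘ lm (κ n) = lm (κ n) ∘ (κ ∘ r) := by
        funext y
        simp [lm, hr]
      rw [e3, e4, prism_comp_left]
      have e5 : (fun y => φ (lm (κ n) ∘ y)) = φ := by
        funext y
        exact hφinv n y
      rw [e5]
    rw [e2]
    rfl
  -- independence of the lift
  have hlift : ∀ (e e' : E) (x : Fin m → E), π e = π e' → ψ (lm e ∘ x) = ψ (lm e' ∘ x) := by
    intro e e' x he
    obtain ⟨n, hn⟩ := (hex (e * e'⁻¹)).1 (by rw [map_mul, map_inv, he, mul_inv_cancel])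
    have : e = κ n * e' := by rw [hn]; group
    rw [this, lm_mul_comp, hψinv]
  refine ⟨fun x q => ψ (lm (Function.surjInv hπ q) ∘ x), ?_, ?_⟩
  · intro e x
    funext q
    show ψ (lm (Function.surjInv hπ q) ∘ (lm e ∘ x)) = ψ (lm (Function.surjInv hπ (q * π e)) ∘ x)
    rw [← lm_mul_comp]
    apply hlift
    rw [map_mul, Function.surjInv_eq hπ, Function.surjInv_eq hπ]
  · funext x
    funext q
    let evq : (Q → V) →+ V :=
      { toFun := fun φ => φ q
        map_zero' := rfl
        map_add' := fun _ _ => rfl }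
    have h1 := congrFun (del_coeff m evq
      (fun x q => ψ (lm (Function.surjInv hπ q) ∘ x))) x
    have h2 : del m (fun (x : Fin m → E) (q : Q) => ψ (lm (Function.surjInv hπ q) ∘ x)) x q
        = evq (del m (fun (x : Fin m → E) (q : Q) => ψ (lm (Function.surjInv hπ q) ∘ x)) x) := rfl
    rw [h2, ← h1]
    show del m (fun x => ψ (lm (Function.surjInv hπ q) ∘ x)) x = Φ x q
    rw [del_comp, hψd]
    show (Φ (lm (Function.surjInv hπ q) ∘ x)) 1 = Φ x q
    rw [hΦ]
    show (Φ x) (1 * π (Function.surjInv hπ q)) = Φ x q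
    rw [Function.surjInv_eq hπ, one_mul]

end Eqv

end Pool.Agent.H68.Ce
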