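import Mathlib

/-!
# The group construction for MP_ce8751_gt
-/

set_option autoImplicit false

namespace Pool.Agent.H68.Ce

open Finset

section

variable {p : ℕ} {P : Type} [Group P]

/-- The big group: quadruples `(c, g, s, q)`. -/
@[ext] structure Big (p : ℕ) (P : Type) [Group P] (π : P →* Multiplicative (ZMod p)) where
  /-- edge chain -/
  c : ZMod p → ZMod p → ZMod p → ZMod p
  /-- coordinates -/
  g : ZMod p → P
  /-- shift -/
  s : ZMod p
  /-- quotient coordinate -/
  q : ZMod p

namespace Big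

variable {π : P →* Multiplicative (ZMod p)}

/-- additive version of `π` -/
def pa (π : P →* Multiplicative (ZMod p)) (g : P) : ZMod p := Multiplicative.toAdd (π g)

@[simp] lemma pa_mul (g h : P) : pa π (g * h) = pa π g + pa π h := by
  simp [pa]

@[simp] lemma pa_one : pa π (1 : P) = 0 := by
  simp [pa]

@[simp] lemma pa_inv (g : P) : pa π g⁻¹ = - pa π g := by
  simp [pa]

lemma pa_eq_zero (g : P) : pa π g = 0 ↔ π g = 1 := by
  simp [pa]

instance : Mul (Big p P π) where
  mul x x' :=
    { c := fun t y b => x.c t y b + x'.c (t - x.s) (y - pa π (x.g t) + x.q) (b - x.q)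
      g := fun i => x.g i * x'.g (i - x.s)
      s := x.s + x'.s
      q := x.q + x'.q }

instance : One (Big p P π) where
  one := { c := fun _ _ _ => 0, g := fun _ => 1, s := 0, q := 0 }

instance : Inv (Big p P π) where
  inv x :=
    { c := fun t y b => - x.c (t + x.s) (y + pa π (x.g (t + x.s)) - x.q) (b + x.q)
      g := fun i => (x.g (i + x.s))⁻¹
      s := - x.s
      q := - x.q }

@[simp] lemma mul_c (x x' : Big p P π) (t y b : ZMod p) : (x * x').c t y b
    = x.c t y b + x'.c (t - x.s) (y - pa π (x.g t) + x.q) (b - x.q) := rfl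
@[simp] lemma mul_g (x x' : Big p P π) (i : ZMod p) : (x * x').g i = x.g i * x'.g (i - x.s) := rfl
@[simp] lemma mul_s (x x' : Big p P π) : (x * x').s = x.s + x'.s := rfl
@[simp] lemma mul_q (x x' : Big p P π) : (x * x').q = x.q + x'.q := rfl
@[simp] lemma one_c (t y b : ZMod p) : (1 : Big p P π).c t y b = 0 := rfl
@[simp] lemma one_g (i : ZMod p) : (1 : Big p P π).g i = 1 := rfl
@[simp] lemma one_s : (1 : Big p P π).s = 0 := rfl
@[simp] lemma one_q : (1 : Big p P π).q = 0 := rfl
@[simp] lemma inv_c (x : Big p P π) (t y b : ZMod p) : (x⁻¹).c t y b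
    = - x.c (t + x.s) (y + pa π (x.g (t + x.s)) - x.q) (b + x.q) := rfl
@[simp] lemma inv_g (x : Big p P π) (i : ZMod p) : (x⁻¹).g i = (x.g (i + x.s))⁻¹ := rfl
@[simp] lemma inv_s (x : Big p P π) : (x⁻¹).s = - x.s := rfl
@[simp] lemma inv_q (x : Big p P π) : (x⁻¹).q = - x.q := rfl

lemma ext' {x y : Big p P π} (hc : ∀ t u b, x.c t u b = y.c t u b) (hg : ∀ i, x.g i = y.g i)
    (hs : x.s = y.s) (hq : x.q = y.q) : x = y := by
  apply Big.ext
  · funext t u b
    exact hc t u b
  · funext i
    exact hg i
  · exact hs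
  · exact hq

instance : Group (Big p P π) :=
  Group.ofLeftAxioms
    (by
      intro x y z
      apply ext'
      · intro t u b
        simp only [mul_c, mul_g, mul_s, mul_q, pa_mul]
        rw [add_assoc]
        congr 2
        congr 1 <;> ring
      · intro i
        simp only [mul_g, mul_s]
        rw [mul_assoc, sub_sub]
      · simp [add_assoc]
      · simp [add_assoc])
    (by
      intro x
      apply ext' <;> intros <;> simp)
    (by
      intro x
      apply ext'
      · intro t u b
        simp only [mul_c, inv_c, inv_s, inv_g, inv_q, one_c, pa_inv, sub_neg_eq_add]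
        have h : u + pa π (x.g (t + x.s)) + -x.q = u + pa π (x.g (t + x.s)) - x.q := by ring
        rw [h]
        ring
      · intro i
        simp
      · simp
      · simp)

lemma pow_s (x : Big p P π) (n : ℕ) : (x ^ n).s = n * x.s := by
  induction n with
  | zero => simp
  | succ n ih =>
    rw [pow_succ, mul_s, ih]
    push_cast
    ring

lemma pow_g_of_s (x : Big p P π) (hs : x.s = 0) (n : ℕ) (i : ZMod p) :
    (x ^ n).g i = (x.g i) ^ n := by
  induction n with
  | zero => simp
  | succ n ih =>
    rw [pow_succ', mul_g, hs, sub_zero, ih, pow_succ']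

/-- The shift action on triples. -/
def T (x : Big p P π) (v : ZMod p × ZMod p × ZMod p) : ZMod p × ZMod p × ZMod p :=
  (v.1 - x.s, v.2.1 - pa π (x.g v.1) + x.q, v.2.2 - x.q)

lemma pow_c (x : Big p P π) (n : ℕ) (v : ZMod p × ZMod p × ZMod p) :
    (x ^ n).c v.1 v.2.1 v.2.2
      = ∑ j ∈ range n, x.c ((x.T)^[j] v).1 ((x.T)^[j] v).2.1 ((x.T)^[j] v).2.2 := by
  induction n generalizing v with
  | zero => simp
  | succ n ih =>
    rw [pow_succ', mul_c, sum_range_succ']
    have h := ih (x.T v)
    simp only [T] at h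
    rw [h, add_comm]
    rfl

end Big

/-- The indicator function of the base vertex. -/
def e0 (t y : ZMod p) : ZMod p := if t = 0 ∧ y = 0 then 1 else 0

variable (π : P →* Multiplicative (ZMod p))

/-- The subgroup of `Big` given by the boundary conditions. -/
def NxtSub [NeZero p] : Subgroup (Big p P π) where
  carrier := {x | (∀ t y, ∑ b, x.c t y b = e0 t y - e0 (t - x.s) (y - Big.pa π (x.g t) + x.q)) ∧
    ∀ b, ∑ t, ∑ y, x.c t y b = 0}
  mul_mem' := by
    rintro x x' ⟨hr, hc⟩ ⟨hr', hc'⟩
    refine ⟨fun t y => ?_, fun b => ?_⟩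
    · simp only [Big.mul_c, Big.mul_g, Big.mul_s, Big.mul_q, Big.pa_mul, sum_add_distrib]
      have h0 := Equiv.sum_comp (Equiv.subRight x.q)
        (fun b => x'.c (t - x.s) (y - Big.pa π (x.g t) + x.q) b)
      simp only [Equiv.subRight_apply] at h0
      rw [hr, h0, hr']
      have h1 : t - x.s - x'.s = t - (x.s + x'.s) := by ring
      have h2 : y - Big.pa π (x.g t) + x.q - Big.pa π (x'.g (t - x.s)) + x'.q
          = y - (Big.pa π (x.g t) + Big.pa π (x'.g (t - x.s))) + (x.q + x'.q) := by ring
      rw [h1, h2]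
      ring
    · simp only [Big.mul_c, sum_add_distrib]
      rw [hc, zero_add]
      have h1 : ∀ t, ∑ y, x'.c (t - x.s) (y - Big.pa π (x.g t) + x.q) (b - x.q)
          = ∑ y, x'.c (t - x.s) y (b - x.q) := by
        intro t
        have := Equiv.sum_comp ((Equiv.subRight (Big.pa π (x.g t))).trans (Equiv.addRight x.q))
          (fun y => x'.c (t - x.s) y (b - x.q))
        simpa using this
      simp only [h1]
      have := Equiv.sum_comp (Equiv.subRight x.s)
          (fun t => ∑ y, x'.c t y (b - x.q))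
      simp only [Equiv.subRight_apply] at this
      rw [this, hc']
  one_mem' := by
    refine ⟨fun t y => ?_, fun b => ?_⟩
    · simp
    · simp
  inv_mem' := by
    rintro x ⟨hr, hc⟩
    refine ⟨fun t y => ?_, fun b => ?_⟩
    · simp only [Big.inv_c, Big.inv_g, Big.inv_s, Big.inv_q, Big.pa_inv, sum_neg_distrib]
      have h1 := Equiv.sum_comp (Equiv.addRight x.q)
        (fun b => x.c (t + x.s) (y + Big.pa π (x.g (t + x.s)) - x.q) b)
      simp only [Equiv.coe_addRight] at h1
      rw [h1, hr]
      have h2 : t + x.s - x.s = t := by ring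
      have h3 : y + Big.pa π (x.g (t + x.s)) - x.q - Big.pa π (x.g (t + x.s)) + x.q = y := by ring
      have h4 : t - -x.s = t + x.s := by ring
      have h5 : y - -Big.pa π (x.g (t + x.s)) + -x.q = y + Big.pa π (x.g (t + x.s)) - x.q := by ring
      rw [h2, h3, h4, h5]
      ring
    · simp only [Big.inv_c, sum_neg_distrib]
      have h1 : ∀ t, ∑ y, x.c (t + x.s) (y + Big.pa π (x.g (t + x.s)) - x.q) (b + x.q)
          = ∑ y, x.c (t + x.s) y (b + x.q) := by
        intro t
        have := Equiv.sum_comp ((Equiv.addRight (Big.pa π (x.g (t + x.s)))).trans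
          (Equiv.subRight x.q)) (fun y => x.c (t + x.s) y (b + x.q))
        simpa using this
      simp only [h1]
      have := Equiv.sum_comp (Equiv.addRight x.s)
          (fun t => ∑ y, x.c t y (b + x.q))
      simp only [Equiv.coe_addRight] at this
      rw [this, hc, neg_zero]

/-- The next group. -/
abbrev Nxt [NeZero p] : Type := NxtSub (p := p) π

end

section Props

variable {p : ℕ} [hp : Fact p.Prime] {P : Type} [Group P] (π : P →* Multiplicative (ZMod p))

/-- `Big` as a product type. -/
def bigEquiv : Big p P π ≃ ((ZMod p → ZMod p → ZMod p → ZMod p) × (ZMod p → P) × ZMod p × ZMod p) where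
  toFun x := (x.c, x.g, x.s, x.q)
  invFun y := ⟨y.1, y.2.1, y.2.2.1, y.2.2.2⟩
  left_inv _ := rfl
  right_inv _ := rfl

instance big_finite [Finite P] : Finite (Big p P π) :=
  Finite.of_equiv _ (bigEquiv π).symm

lemma big_isPGroup [Finite P] (hP : IsPGroup p P) : IsPGroup p (Big p P π) := by
  obtain ⟨n, hn⟩ := IsPGroup.iff_card.1 hP
  rw [IsPGroup.iff_card]
  refine ⟨p * p * p + (n * p + (1 + 1)), ?_⟩
  rw [Nat.card_congr (bigEquiv π), Nat.card_prod, Nat.card_prod, Nat.card_prod, Nat.card_fun,
    Nat.card_fun, Nat.card_fun, Nat.card_fun, hn, Nat.card_zmod]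
  simp only [pow_add, pow_mul, pow_one]

instance nxt_finite [Finite P] : Finite (Nxt (p := p) π) := inferInstance

lemma nxt_isPGroup [Finite P] (hP : IsPGroup p P) : IsPGroup p (Nxt (p := p) π) :=
  (big_isPGroup π hP).to_subgroup _

/-- Summation over the fibres of a translation. -/
lemma sum_indicator (b q : ZMod p) (hq : q ≠ 0) :
    ∑ j ∈ range p, (if b + (j : ZMod p) * q = 0 then (1 : ZMod p) else 0) = 1 := by
  rw [Finset.sum_eq_single ((-b * q⁻¹).val)]
  · rw [ZMod.natCast_zmod_val, mul_assoc, inv_mul_cancel₀ hq, mul_one, add_neg_cancel, if_pos rfl]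
  · intro j hj hne
    rw [if_neg]
    intro h
    apply hne
    have h1 : (j : ZMod p) = -b * q⁻¹ := by
      field_simp
      linear_combination h
    rw [← h1, ZMod.val_natCast, Nat.mod_eq_of_lt (Finset.mem_range.1 hj)]
  · intro h
    exact absurd (Finset.mem_range.2 (ZMod.val_lt _)) h

lemma sum_reindex (Φ : ZMod p → ZMod p → ZMod p) (s q : ZMod p) (a : ZMod p → ZMod p) :
    ∑ t, ∑ y, Φ (t - s) (y - a t + q) = ∑ t, ∑ y, Φ t y := by
  have h1 : ∀ t, ∑ y, Φ (t - s) (y - a t + q) = ∑ y, Φ (t - s) y := by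
    intro t
    have := Equiv.sum_comp ((Equiv.subRight (a t)).trans (Equiv.addRight q))
      (fun y => Φ (t - s) y)
    simpa using this
  simp only [h1]
  exact Equiv.sum_comp (Equiv.subRight s) (fun t => ∑ y, Φ t y)

lemma sum_e0 (Φ : ZMod p → ZMod p → ZMod p) : ∑ t, ∑ y, Φ t y * e0 (p := p) t y = Φ 0 0 := by
  rw [Finset.sum_eq_single 0, Finset.sum_eq_single 0]
  · simp [e0]
  · intro y _ hy
    simp [e0, hy]
  · intro h
    exact absurd (Finset.mem_univ _) h
  · intro t _ ht
    apply Finset.sum_eq_zero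
    intro y _
    simp [e0, ht]
  · intro h
    exact absurd (Finset.mem_univ _) h

/-- The main property: elements of order `p` lie in the kernel. -/
theorem star_next (hs : ∀ g : P, g ^ p = 1 → π g = 1) (x : Big p P π) (hx : x ∈ NxtSub π)
    (hxp : x ^ p = 1) : x.q = 0 := by
  by_contra hq
  obtain ⟨hr, hc⟩ := hx
  -- the potential
  obtain ⟨u, hu⟩ : ∃ u : ZMod p → ZMod p → ZMod p,
      ∀ t y, u (t - x.s) (y - Big.pa π (x.g t) + x.q) = u t y - x.q := by
    by_cases hs0 : x.s = 0
    · refine ⟨fun _ y => - y, fun t y => ?_⟩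
      have h1 : (x ^ p).g t = (x.g t) ^ p := Big.pow_g_of_s x hs0 p t
      rw [hxp] at h1
      have h2 : Big.pa π (x.g t) = 0 := (Big.pa_eq_zero _).2 (hs _ h1.symm)
      rw [h2]
      ring
    · refine ⟨fun t _ => x.q * x.s⁻¹ * t, fun t y => ?_⟩
      show x.q * x.s⁻¹ * (t - x.s) = x.q * x.s⁻¹ * t - x.q
      rw [mul_sub, mul_assoc x.q x.s⁻¹ x.s, inv_mul_cancel₀ hs0, mul_one]
  -- the orbit sums vanish
  have horb : ∀ v : ZMod p × ZMod p × ZMod p,
      ∑ j ∈ range p, x.c ((x.T)^[j] v).1 ((x.T)^[j] v).2.1 ((x.T)^[j] v).2.2 = 0 := by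
    intro v
    rw [← Big.pow_c, hxp]
    rfl
  let w : ZMod p × ZMod p × ZMod p → ZMod p := fun v => u v.1 v.2.1 - v.2.2
  have hw : ∀ v, w (x.T v) = w v := by
    intro v
    show u (v.1 - x.s) (v.2.1 - Big.pa π (x.g v.1) + x.q) - (v.2.2 - x.q) = u v.1 v.2.1 - v.2.2
    rw [hu]
    ring
  have hwj : ∀ j v, w ((x.T)^[j] v) = w v := by
    intro j
    induction j with
    | zero => intro v; rfl
    | succ j ih =>
      intro v
      rw [Function.iterate_succ_apply', hw, ih]
  have hbj : ∀ j v, ((x.T)^[j] v).2.2 = v.2.2 - j * x.q := by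
    intro j
    induction j with
    | zero => intro v; simp
    | succ j ih =>
      intro v
      rw [Function.iterate_succ_apply']
      show ((x.T)^[j] v).2.2 - x.q = _
      rw [ih]
      push_cast
      ring
  have hTb : Function.Bijective x.T := by
    refine Function.bijective_iff_has_inverse.2
      ⟨fun v => (v.1 + x.s, v.2.1 + Big.pa π (x.g (v.1 + x.s)) - x.q, v.2.2 + x.q), ?_, ?_⟩
    · intro v
      apply Prod.ext
      · show v.1 - x.s + x.s = v.1
        ring
      · apply Prod.ext
        · show v.2.1 - Big.pa π (x.g v.1) + x.q + Big.pa π (x.g (v.1 - x.s + x.s)) - x.q = v.2.1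
          rw [sub_add_cancel]
          ring
        · show v.2.2 - x.q + x.q = v.2.2
          ring
    · intro v
      apply Prod.ext
      · show v.1 + x.s - x.s = v.1
        ring
      · apply Prod.ext
        · show v.2.1 + Big.pa π (x.g (v.1 + x.s)) - x.q - Big.pa π (x.g (v.1 + x.s)) + x.q = v.2.1
          ring
        · show v.2.2 + x.q - x.q = v.2.2
          ring
  have hTj : ∀ j, Function.Bijective ((x.T)^[j]) := fun j => hTb.iterate j
  let cf : ZMod p × ZMod p × ZMod p → ZMod p := fun v => x.c v.1 v.2.1 v.2.2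
  -- total weighted sum is zero
  have hzero : ∑ v, cf v * w v = 0 := by
    have h1 : ∑ v : ZMod p × ZMod p × ZMod p, (if v.2.2 = 0 then (1 : ZMod p) else 0) *
        ∑ j ∈ range p, cf ((x.T)^[j] v) * w ((x.T)^[j] v) = 0 := by
      apply Finset.sum_eq_zero
      intro v _
      have : ∑ j ∈ range p, cf ((x.T)^[j] v) * w ((x.T)^[j] v) = 0 := by
        simp only [hwj]
        rw [← Finset.sum_mul]
        have := horb v
        simp only [cf]
        rw [this, zero_mul]
      rw [this, mul_zero]
    rw [← h1]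
    simp only [Finset.mul_sum]
    rw [Finset.sum_comm]
    have h2 : ∀ j : ℕ, ∑ v : ZMod p × ZMod p × ZMod p, (if v.2.2 = 0 then (1 : ZMod p) else 0) *
        (cf ((x.T)^[j] v) * w ((x.T)^[j] v))
        = ∑ v : ZMod p × ZMod p × ZMod p, (if v.2.2 + j * x.q = 0 then (1 : ZMod p) else 0) *
          (cf v * w v) := by
      intro j
      rw [← Function.Bijective.sum_comp (hTj j) (fun v : ZMod p × ZMod p × ZMod p =>
        (if v.2.2 + j * x.q = 0 then (1 : ZMod p) else 0) * (cf v * w v))]
      refine Finset.sum_congr rfl fun v _ => ?_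
      rw [hbj, sub_add_cancel]
    simp only [h2]
    rw [Finset.sum_comm]
    refine Finset.sum_congr rfl fun v _ => ?_
    rw [← Finset.sum_mul, sum_indicator _ _ hq, one_mul]
  -- direct computation
  have hval : ∑ v, cf v * w v = - x.q := by
    have h1 : ∑ v, cf v * w v = ∑ t, ∑ y, ∑ b, x.c t y b * (u t y - b) := by
      rw [Fintype.sum_prod_type]
      refine Finset.sum_congr rfl fun t _ => ?_
      rw [Fintype.sum_prod_type]
    have h2 : ∑ t, ∑ y, ∑ b, x.c t y b * (u t y - b)
        = ∑ t, ∑ y, u t y * (∑ b, x.c t y b) - ∑ b, b * (∑ t, ∑ y, x.c t y b) := by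
      simp only [mul_sub, Finset.sum_sub_distrib, Finset.mul_sum]
      congr 1
      · refine Finset.sum_congr rfl fun t _ => Finset.sum_congr rfl fun y _ =>
          Finset.sum_congr rfl fun b _ => mul_comm _ _
      · calc ∑ t, ∑ y, ∑ b, x.c t y b * b
            = ∑ t, ∑ b, ∑ y, b * x.c t y b := by
              refine Finset.sum_congr rfl fun t _ => ?_
              rw [Finset.sum_comm]
              refine Finset.sum_congr rfl fun b _ => Finset.sum_congr rfl fun y _ => mul_comm _ _
          _ = ∑ b, ∑ t, ∑ y, b * x.c t y b := Finset.sum_comm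
    rw [h1, h2]
    simp only [hc, hr, mul_zero, Finset.sum_const_zero, sub_zero, mul_sub,
      Finset.sum_sub_distrib]
    have h3 : ∑ t, ∑ y, u t y * e0 (p := p) t y = u 0 0 := sum_e0 u
    have h4 : ∑ t, ∑ y, u t y * e0 (t - x.s) (y - Big.pa π (x.g t) + x.q) = u 0 0 + x.q := by
      have h5 := sum_reindex (fun t y => (u t y + x.q) * e0 t y) x.s x.q
        (fun t => Big.pa π (x.g t))
      have h6 := sum_e0 (fun t y => u t y + x.q)
      rw [h6] at h5
      rw [← h5]
      refine Finset.sum_congr rfl fun t _ => Finset.sum_congr rfl fun y _ => ?_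
      rw [hu, sub_add_cancel]
    rw [h3, h4]
    ring
  rw [hval] at hzero
  exact hq (neg_eq_zero.1 hzero)

/-- The projection of the next group. -/
def nxtProj : Nxt (p := p) π →* Multiplicative (ZMod p) where
  toFun x := Multiplicative.ofAdd x.1.q
  map_one' := rfl
  map_mul' _ _ := rfl

/-- The embedding in the next group. -/
def nxtEmb : P →* Nxt (p := p) π where
  toFun g := ⟨⟨fun _ _ _ => 0, fun _ => g, 0, Big.pa π g⟩, by
    refine ⟨fun t y => ?_, fun b => ?_⟩
    · simp
    · simp⟩
  map_one' := by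
    apply Subtype.ext
    apply Big.ext' <;> intros <;> simp
  map_mul' g h := by
    apply Subtype.ext
    apply Big.ext' <;> intros <;> simp

lemma nxtProj_emb (g : P) : nxtProj (p := p) π (nxtEmb π g) = π g := rfl

lemma nxtEmb_injective : Function.Injective (nxtEmb (p := p) π) := by
  intro g h hgh
  have := congrArg (fun x => x.1.g 0) hgh
  exact this

lemma nxtProj_surjective (hπ : Function.Surjective π) : Function.Surjective (nxtProj (p := p) π) := by
  intro q
  obtain ⟨g, hg⟩ := hπ q
  exact ⟨nxtEmb π g, by rw [nxtProj_emb, hg]⟩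

lemma star_nxt (hs : ∀ g : P, g ^ p = 1 → π g = 1) (x : Nxt (p := p) π) (hx : x ^ p = 1) :
    nxtProj π x = 1 := by
  have h1 : (x.1) ^ p = 1 := by
    have := congrArg Subtype.val hx
    simpa using this
  have := star_next π hs x.1 x.2 h1
  show Multiplicative.ofAdd x.1.q = 1
  rw [this]
  rfl

/-- A copy of the kernel. -/
def copyHom (k : ℕ) : π.ker →* (nxtProj (p := p) π).ker where
  toFun h := ⟨⟨⟨fun _ _ _ => 0, Pi.mulSingle (k : ZMod p) (h : P), 0, 0⟩, by
    refine ⟨fun t y => ?_, fun b => ?_⟩
    · have h1 : Big.pa π ((Pi.mulSingle (k : ZMod p) (h : P) : ZMod p → P) t) = 0 := by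
        rw [Big.pa_eq_zero]
        by_cases ht : t = k
        · subst ht
          rw [Pi.mulSingle_eq_same]
          exact h.2
        · rw [Pi.mulSingle_eq_of_ne ht, map_one]
      simp only [Finset.sum_const_zero, h1]
      ring_nf
    · simp⟩, rfl⟩
  map_one' := by
    apply Subtype.ext
    apply Subtype.ext
    apply Big.ext' <;> intros <;> simp
  map_mul' g h := by
    apply Subtype.ext
    apply Subtype.ext
    apply Big.ext' <;> intros <;> simp [Pi.mulSingle_mul]

@[simp] lemma copyHom_c (k : ℕ) (h : π.ker) (t y b : ZMod p) : (copyHom (p := p) π k h).1.1.c t y b = 0 := rfl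
@[simp] lemma copyHom_g (k : ℕ) (h : π.ker) : (copyHom (p := p) π k h).1.1.g = Pi.mulSingle (k : ZMod p) (h : P) := rfl
@[simp] lemma copyHom_s (k : ℕ) (h : π.ker) : (copyHom (p := p) π k h).1.1.s = 0 := rfl
@[simp] lemma copyHom_q (k : ℕ) (h : π.ker) : (copyHom (p := p) π k h).1.1.q = 0 := rfl

lemma pa_mulSingle (k : ZMod p) (h : π.ker) (t : ZMod p) :
    Big.pa π ((Pi.mulSingle k (h : P) : ZMod p → P) t) = 0 := by
  rw [Big.pa_eq_zero]
  by_cases ht : t = k
  · subst ht
    rw [Pi.mulSingle_eq_same]
    exact h.2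
  · rw [Pi.mulSingle_eq_of_ne ht, map_one]

lemma copyHom_comm (j k : ℕ) (hjk : j < k) (hk : k < p) (x y : π.ker) :
    Commute (copyHom (p := p) π j x) (copyHom π k y) := by
  have hne : (j : ZMod p) ≠ (k : ZMod p) := by
    intro h
    have := (ZMod.natCast_eq_natCast_iff' j k p).1 h
    rw [Nat.mod_eq_of_lt (hjk.trans hk), Nat.mod_eq_of_lt hk] at this
    omega
  show _ * _ = _ * _
  apply Subtype.ext
  apply Subtype.ext
  apply Big.ext'
  · intros; simp
  · intro i
    simp only [Subgroup.coe_mul, Big.mul_g, copyHom_g, copyHom_s, sub_zero]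
    exact congrFun ((Pi.mulSingle_commute (f := fun _ : ZMod p => P) hne x.1 y.1).eq) i
  · simp
  · simp

/-- The conjugating element. -/
def conjElt : (nxtProj (p := p) π).ker :=
  ⟨⟨⟨fun t y b => if b = 0 then e0 t y - e0 (t - 1) y else 0, 1, 1, 0⟩, by
    refine ⟨fun t y => ?_, fun b => ?_⟩
    · simp
    · by_cases hb : b = 0
      · simp only [hb, if_true, Finset.sum_sub_distrib]
        have h1 := sum_reindex (fun t y => e0 (p := p) t y) 1 0 (fun _ => 0)
        simp only [sub_zero, add_zero] at h1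
        rw [h1, sub_self]
      · simp [hb]⟩, rfl⟩

lemma conjElt_conj (k : ℕ) (x : π.ker) :
    conjElt (p := p) π * copyHom π k x * (conjElt π)⁻¹ = copyHom π (k + 1) x := by
  rw [mul_inv_eq_iff_eq_mul]
  apply Subtype.ext
  apply Subtype.ext
  apply Big.ext'
  · intro t y b
    simp only [Subgroup.coe_mul, Big.mul_c, copyHom_c, copyHom_g, copyHom_s, copyHom_q,
      pa_mulSingle]
    simp
  · intro i
    simp only [Subgroup.coe_mul, Big.mul_g, copyHom_g, copyHom_s, sub_zero]
    show 1 * (Pi.mulSingle (k : ZMod p) (x : P) : ZMod p → P) (i - 1)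
      = (Pi.mulSingle ((k + 1 : ℕ) : ZMod p) (x : P) : ZMod p → P) i * 1
    rw [one_mul, mul_one]
    by_cases hi : i = ((k + 1 : ℕ) : ZMod p)
    · have h2 : i - 1 = (k : ZMod p) := by
        rw [hi]
        push_cast
        ring
      rw [h2, hi, Pi.mulSingle_eq_same, Pi.mulSingle_eq_same]
    · have h2 : i - 1 ≠ (k : ZMod p) := by
        intro h
        apply hi
        push_cast
        rw [← h]
        ring
      rw [Pi.mulSingle_eq_of_ne h2, Pi.mulSingle_eq_of_ne hi]
  · simp [conjElt]
  · simp [conjElt]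

lemma copies_prod_aux (x : π.ker) (k : ℕ) (hk : k ≤ p) :
    (((List.range k).map (fun j => copyHom (p := p) π j x)).prod).1.1.s = 0 ∧
    (((List.range k).map (fun j => copyHom (p := p) π j x)).prod).1.1.q = 0 ∧
    (∀ t y b, (((List.range k).map (fun j => copyHom (p := p) π j x)).prod).1.1.c t y b = 0) ∧
    (∀ i, (((List.range k).map (fun j => copyHom (p := p) π j x)).prod).1.1.g i
      = if i.val < k then (x : P) else 1) := by
  induction k with
  | zero =>
    refine ⟨rfl, rfl, fun _ _ _ => rfl, fun i => ?_⟩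
    rw [if_neg (Nat.not_lt_zero _)]
    rfl
  | succ k ih =>
    obtain ⟨h1, h2, h3, h4⟩ := ih (Nat.le_of_succ_le hk)
    rw [List.range_succ, List.map_append, List.prod_append]
    simp only [List.map_cons, List.map_nil, List.prod_cons, List.prod_nil, mul_one]
    generalize ((List.range k).map (fun j => copyHom (p := p) π j x)).prod = Y at h1 h2 h3 h4 ⊢
    refine ⟨?_, ?_, ?_, ?_⟩
    · simp [h1]
    · simp [h2]
    · intro t y b
      simp [h3]
    · intro i
      simp only [Subgroup.coe_mul, Big.mul_g, h1, h4, sub_zero, copyHom_g]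
      by_cases hi : i.val = k
      · have h5 : (k : ZMod p) = i := by rw [← hi, ZMod.natCast_zmod_val]
        rw [if_neg (by omega), if_pos (by omega), h5, Pi.mulSingle_eq_same, one_mul]
      · have h5 : i ≠ (k : ZMod p) := by
          intro h
          apply hi
          rw [h, ZMod.val_natCast, Nat.mod_eq_of_lt (Nat.lt_of_succ_le hk)]
        rw [Pi.mulSingle_eq_of_ne h5, mul_one]
        by_cases hlt : i.val < k
        · rw [if_pos hlt, if_pos (by omega)]
        · rw [if_neg hlt, if_neg (by omega)]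

lemma copies_prod (x : π.ker) :
    ((((List.range p).map (fun j => copyHom (p := p) π j x)).prod).1 : Nxt (p := p) π)
      = nxtEmb π (x : P) := by
  obtain ⟨h1, h2, h3, h4⟩ := copies_prod_aux π x p le_rfl
  apply Subtype.ext
  apply Big.ext'
  · intro t y b
    rw [h3]
    rfl
  · intro i
    rw [h4, if_pos (ZMod.val_lt i)]
    rfl
  · rw [h1]
    rfl
  · rw [h2]
    exact ((Big.pa_eq_zero _).2 x.2).symm

end Props

end Pool.Agent.H68.Ce
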