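import Pool.Agent.H68.CeDefs

/-!
# Elementwise tools for the homology of simplicial sets over a field
-/

set_option autoImplicit false

open CategoryTheory Limits Simplicial Opposite

namespace Pool.Agent.H68.Ce

variable {k : Type} [Field k]

lemma exists_cycle (K : ChainComplex (ModuleCat.{0} k) ℕ) (n : ℕ) (x : K.X n)
    (hx : K.d n ((ComplexShape.down ℕ).next n) x = 0) : ∃ c : K.cycles n, K.iCycles n c = x := by
  exact ⟨K.cyclesMk x _ rfl hx, K.i_cyclesMk x _ rfl hx⟩

lemma homologyπ_eq_zero (K : ChainComplex (ModuleCat.{0} k) ℕ) (n : ℕ) (c : K.cycles n)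
    (hc : K.homologyπ n c = 0) : ∃ y : K.X (n + 1), K.d (n + 1) n y = K.iCycles n c := by
  have hex := ShortComplex.exact_of_g_is_cokernel
    (ShortComplex.mk (K.toCycles (n + 1) n) (K.homologyπ n) (K.toCycles_comp_homologyπ (n + 1) n))
    (K.homologyIsCokernel (n + 1) n (by simp))
  rw [ShortComplex.moduleCat_exact_iff] at hex
  obtain ⟨y, hy⟩ := hex c hc
  refine ⟨y, ?_⟩
  have h2 := K.toCycles_i (n + 1) n
  rw [← hy, ← h2]
  rfl

section

variable {K L : ChainComplex (ModuleCat.{0} k) ℕ} (f : K ⟶ L) (n : ℕ)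

lemma homologyMap_π (c : K.cycles n) : HomologicalComplex.homologyMap f n (K.homologyπ n c)
      = L.homologyπ n (HomologicalComplex.cyclesMap f n c) := by
  have := HomologicalComplex.homologyπ_naturality f n
  exact (congrArg (fun g => g.hom c) this)

lemma iCycles_cyclesMap (c : K.cycles n) : L.iCycles n (HomologicalComplex.cyclesMap f n c)
      = f.f n (K.iCycles n c) := by
  have := HomologicalComplex.cyclesMap_i f n
  exact (congrArg (fun g => g.hom c) this)

lemma d_iCycles (K : ChainComplex (ModuleCat.{0} k) ℕ) (n j : ℕ) (c : K.cycles n) :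
    K.d n j (K.iCycles n c) = 0 := by
  have := K.iCycles_d n j
  exact (congrArg (fun g => g.hom c) this)

lemma π_toCycles (K : ChainComplex (ModuleCat.{0} k) ℕ) (n : ℕ) (w : K.X (n + 1)) :
    K.homologyπ n (K.toCycles (n + 1) n w) = 0 := by
  have := K.toCycles_comp_homologyπ (n + 1) n
  exact (congrArg (fun g => g.hom w) this)

lemma i_toCycles (K : ChainComplex (ModuleCat.{0} k) ℕ) (n : ℕ) (w : K.X (n + 1)) :
    K.iCycles n (K.toCycles (n + 1) n w) = K.d (n + 1) n w := by
  have := K.toCycles_i (n + 1) n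
  exact (congrArg (fun g => g.hom w) this)

lemma homologyπ_surjective (K : ChainComplex (ModuleCat.{0} k) ℕ) (n : ℕ) :
    Function.Surjective (K.homologyπ n) := (ModuleCat.epi_iff_surjective _).1 inferInstance

lemma iCycles_injective (K : ChainComplex (ModuleCat.{0} k) ℕ) (n : ℕ) :
    Function.Injective (K.iCycles n) := (ModuleCat.mono_iff_injective _).1 inferInstance

lemma isIso_homologyMap
    (hinj : ∀ x : K.X n, K.d n ((ComplexShape.down ℕ).next n) x = 0 →
      (∃ y : L.X (n + 1), L.d (n + 1) n y = f.f n x) → ∃ w : K.X (n + 1), K.d (n + 1) n w = x)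
    (hsurj : ∀ y : L.X n, L.d n ((ComplexShape.down ℕ).next n) y = 0 →
      ∃ x : K.X n, K.d n ((ComplexShape.down ℕ).next n) x = 0 ∧
        ∃ w : L.X (n + 1), y = f.f n x + L.d (n + 1) n w) :
    IsIso (HomologicalComplex.homologyMap f n) := by
  rw [ConcreteCategory.isIso_iff_bijective]
  constructor
  · rw [injective_iff_map_eq_zero]
    intro a ha
    obtain ⟨c, rfl⟩ := homologyπ_surjective K n a
    rw [homologyMap_π] at ha
    obtain ⟨y, hy⟩ := homologyπ_eq_zero L n _ ha
    rw [iCycles_cyclesMap] at hy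
    obtain ⟨w, hw⟩ := hinj _ (d_iCycles K n _ c) ⟨y, hy⟩
    have : c = K.toCycles (n + 1) n w := by
      apply iCycles_injective
      rw [i_toCycles, hw]
    rw [this, π_toCycles]
  · intro b
    obtain ⟨c, rfl⟩ := homologyπ_surjective L n b
    obtain ⟨x, hx, w, hw⟩ := hsurj _ (d_iCycles L n _ c)
    obtain ⟨c', hc'⟩ := exists_cycle K n x hx
    refine ⟨K.homologyπ n c', ?_⟩
    rw [homologyMap_π]
    have : c = HomologicalComplex.cyclesMap f n c' + L.toCycles (n + 1) n w := by
      apply iCycles_injective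
      rw [map_add, iCycles_cyclesMap, hc', i_toCycles, hw]
    rw [this, map_add, π_toCycles, add_zero]

/-- Conversely, an isomorphism in homology is injective on classes. -/
lemma inj_of_isIso (h : IsIso (HomologicalComplex.homologyMap f n))
    (x : K.X n) (hx : K.d n ((ComplexShape.down ℕ).next n) x = 0)
    (y : L.X (n + 1)) (hy : L.d (n + 1) n y = f.f n x) : ∃ w : K.X (n + 1), K.d (n + 1) n w = x := by
  obtain ⟨c, hc⟩ := exists_cycle K n x hx
  have hb := ((ConcreteCategory.isIso_iff_bijective _).1 h).1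
  rw [injective_iff_map_eq_zero] at hb
  have h1 : HomologicalComplex.cyclesMap f n c = L.toCycles (n + 1) n y := by
    apply iCycles_injective
    rw [iCycles_cyclesMap, hc, i_toCycles, hy]
  obtain ⟨w, hw⟩ := homologyπ_eq_zero K n c (hb _ (by rw [homologyMap_π, h1, π_toCycles]))
  exact ⟨w, by rw [hw, hc]⟩

lemma surj_of_isIso (h : IsIso (HomologicalComplex.homologyMap f n))
    (y : L.X n) (hy : L.d n ((ComplexShape.down ℕ).next n) y = 0) :
      ∃ x : K.X n, K.d n ((ComplexShape.down ℕ).next n) x = 0 ∧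
        ∃ w : L.X (n + 1), y = f.f n x + L.d (n + 1) n w := by
  obtain ⟨c, hc⟩ := exists_cycle L n y hy
  obtain ⟨a, ha⟩ := ((ConcreteCategory.isIso_iff_bijective _).1 h).2 (L.homologyπ n c)
  obtain ⟨c', rfl⟩ := homologyπ_surjective K n a
  rw [homologyMap_π] at ha
  obtain ⟨w, hw⟩ := homologyπ_eq_zero L n (c - HomologicalComplex.cyclesMap f n c') (by
    rw [map_sub, ha, sub_self])
  refine ⟨K.iCycles n c', d_iCycles K n _ c', w, ?_⟩
  rw [hw, map_sub, iCycles_cyclesMap, hc]
  abel

end

section SSet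

variable (k)

/-- The coefficient object. -/
abbrev RR : ModuleCat.{0} k := ModuleCat.of k k

variable {k} {X Y : SSet.{0}} {n : ℕ}

/-- The basis element of a simplex. -/
noncomputable def el (k : Type) [Field k] {X : SSet.{0}} {n : ℕ} (x : X _⦋n⦌) :
    (X.chainComplex (RR k)).X n :=
  (X.ιChainComplex (R := RR k) x).hom (1 : k)

lemma linearMap_ext {M : Type} [AddCommGroup M] [Module k M]
    (f g : (X.chainComplex (RR k)).X n →ₗ[k] M) (h : ∀ x : X _⦋n⦌, f (el k x) = g (el k x)) :
    f = g := by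
  have : (ModuleCat.ofHom f : (X.chainComplex (RR k)).X n ⟶ ModuleCat.of k M)
      = ModuleCat.ofHom g := by
    apply SSet.chainComplex_hom_ext
    intro x
    apply ModuleCat.hom_ext
    apply LinearMap.ext_ring
    exact h x
  exact congrArg (fun f => f.hom) this

/-- The functional defined by a function on simplices. -/
noncomputable def fn (F : X _⦋n⦌ → k) : (X.chainComplex (RR k)).X n →ₗ[k] k :=
  (Cofan.IsColimit.desc (X.isColimitChainComplexXCofan (RR k) n)
    (fun x => (ModuleCat.ofHom (F x • LinearMap.id) : RR k ⟶ RR k))).hom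

@[simp] lemma fn_el (F : X _⦋n⦌ → k) (x : X _⦋n⦌) : fn F (el k x) = F x := by
  have h := Cofan.IsColimit.fac (X.isColimitChainComplexXCofan (RR k) n)
    (fun x => (ModuleCat.ofHom (F x • LinearMap.id) : RR k ⟶ RR k)) x
  have h2 := congrArg (fun g => g.hom (1 : k)) h
  have h3 : (ModuleCat.ofHom (F x • LinearMap.id) : RR k ⟶ RR k).hom (1 : k) = F x := by
    show F x • (1 : k) = F x
    simp
  exact h2.trans h3

lemma fn_of_linear (φ : (X.chainComplex (RR k)).X n →ₗ[k] k) : fn (fun x => φ (el k x)) = φ :=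
  linearMap_ext _ _ fun x => by simp

/-- The coboundary of a function on simplices. -/
def dX (F : X _⦋n⦌ → k) : X _⦋n + 1⦌ → k :=
  fun x => ∑ i : Fin (n + 2), (-1 : k) ^ (i : ℕ) * F (X.δ i x)

lemma d_el (x : X _⦋n + 1⦌) :
    (X.chainComplex (RR k)).d (n + 1) n (el k x)
      = ∑ i : Fin (n + 2), (-1 : ℤ) ^ (i : ℕ) • el k (X.δ i x) := by
  have h := SSet.ιChainComplex_d (X := X) (R := RR k) x
  have h2 := congrArg (fun g => g.hom (1 : k)) h
  simp only [ModuleCat.hom_sum, ModuleCat.hom_zsmul] at h2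
  rw [LinearMap.sum_apply] at h2
  simp only [LinearMap.smul_apply] at h2
  exact h2

lemma fn_d (F : X _⦋n⦌ → k) (w : (X.chainComplex (RR k)).X (n + 1)) :
    fn F ((X.chainComplex (RR k)).d (n + 1) n w) = fn (dX F) w := by
  have : (fn F) ∘ₗ ((X.chainComplex (RR k)).d (n + 1) n).hom = fn (dX F) := by
    apply linearMap_ext
    intro x
    rw [fn_el]
    show fn F ((X.chainComplex (RR k)).d (n + 1) n (el k x)) = _
    rw [d_el, map_sum]
    unfold dX
    refine Finset.sum_congr rfl fun i _ => ?_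
    rw [map_zsmul, fn_el, zsmul_eq_mul]
    push_cast
    rfl
  exact congrArg (fun g => g w) this

lemma map_el (f : X ⟶ Y) (x : X _⦋n⦌) :
    (SSet.chainComplexMap f (RR k)).f n (el k x) = el k (f.app _ x) := by
  have h := SSet.ι_chainComplexMap_f X Y f (RR k) x
  exact congrArg (fun g => g.hom (1 : k)) h

lemma fn_map (f : X ⟶ Y) (F : Y _⦋n⦌ → k) (w : (X.chainComplex (RR k)).X n) :
    fn F ((SSet.chainComplexMap f (RR k)).f n w) = fn (fun x => F (f.app _ x)) w := by
  have : (fn F) ∘ₗ ((SSet.chainComplexMap f (RR k)).f n).hom = fn (fun x => F (f.app _ x)) := by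
    apply linearMap_ext
    intro x
    rw [fn_el]
    show fn F ((SSet.chainComplexMap f (RR k)).f n (el k x)) = _
    rw [map_el, fn_el]
  exact congrArg (fun g => g w) this

/-- Functionals separate points from submodules. -/
lemma exists_functional {M : Type} [AddCommGroup M] [Module k M] (B : Submodule k M) (z : M)
    (hz : z ∉ B) : ∃ φ : M →ₗ[k] k, (∀ b ∈ B, φ b = 0) ∧ φ z ≠ 0 := by
  obtain ⟨φ, hφ, hφB⟩ := Submodule.exists_dual_map_eq_bot_of_notMem hz inferInstance
  refine ⟨φ, fun b hb => ?_, hφ⟩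
  have : φ b ∈ Submodule.map φ B := ⟨b, hb, rfl⟩
  rw [hφB] at this
  exact (Submodule.mem_bot k).1 this

/-- A functional vanishing on the kernel of a linear map factors through it. -/
lemma factor_functional {M N : Type} [AddCommGroup M] [Module k M] [AddCommGroup N] [Module k N]
    (d : M →ₗ[k] N) (φ : M →ₗ[k] k) (h : ∀ x, d x = 0 → φ x = 0) :
    ∃ χ : N →ₗ[k] k, φ = χ ∘ₗ d := by
  have h1 : φ ∈ LinearMap.range d.dualMap := by
    rw [LinearMap.range_dualMap_eq_dualAnnihilator_ker]
    rw [Submodule.mem_dualAnnihilator]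
    intro x hx
    exact h x hx
  obtain ⟨χ, hχ⟩ := h1
  exact ⟨χ, hχ.symm⟩

end SSet

end Pool.Agent.H68.Ce
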