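import Pool.Agent.H68.CeColim
import Pool.Agent.H78.CePComplete

/-!
# No map from `B(ℤ/p)` to a stage of the tower lifts the identity
-/

set_option autoImplicit false

open CategoryTheory Limits Simplicial Opposite MonoidalCategory

namespace Pool.Agent.H68.Ce

open Pool.Agent.H78.Ce

section

variable {G H K : Type} [Group G] [Group H] [Group K]

lemma bg_subsingleton : Subsingleton ((BG G) _⦋0⦌) := by
  constructor
  intro s t
  obtain ⟨x, rfl⟩ := ev_surjective s
  obtain ⟨y, rfl⟩ := ev_surjective t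
  rw [ev_eq_iff]
  refine ⟨y 0 * (x 0)⁻¹, ?_⟩
  funext i
  have : i = 0 := Fin.fin_one_eq_zero i
  subst this
  simp [lm]

/-- The homomorphism read off from a map of classifying spaces. -/
def homOf (u : BG G ⟶ BG H) : G →* H :=
  MonoidHom.mk' (fun g => val u (ev ![g, 1])) (by
    intro g h
    have h1 := val_isCoc u (ev ![g * h, g, 1])
    rw [ev_δ, ev_δ, ev_δ] at h1
    have e1 : (![g * h, g, 1] : Fin 3 → G) ∘ (1 : Fin 3).succAbove = ![g * h, 1] := by
      funext i
      fin_cases i <;> rfl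
    have e0 : (![g * h, g, 1] : Fin 3 → G) ∘ (0 : Fin 3).succAbove = ![g, 1] := by
      funext i
      fin_cases i <;> rfl
    have e2 : (![g * h, g, 1] : Fin 3 → G) ∘ (2 : Fin 3).succAbove = lm g ∘ ![h, 1] := by
      funext i
      fin_cases i <;> simp [lm] <;> rfl
    rw [e0, e1, e2, ev_lm] at h1
    exact h1)

lemma homOf_apply (u : BG G ⟶ BG H) (g : G) : homOf u g = val u (ev ![g, 1]) := rfl

lemma val_id_ev (g : G) : val (𝟙 (BG G)) (ev ![g, 1]) = g := by
  show (1 : G)⁻¹ * g = g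
  simp

lemma val_comp_map (X : SSet.{0}) (u : X ⟶ BG H) (f : H →* K) (e : X _⦋1⦌) :
    val (u ≫ BGMap f) e = f (val u e) := rfl

/-- If `u : BG ⟶ BH` followed by `Bπ` is homotopic to the identity of `BG`, with `G`
abelian, then `π ∘ homOf u` is the identity. -/
lemma homOf_section {A : Type} [CommGroup A] (u : BG A ⟶ BG H) (π : H →* A)
    (h : Nonempty (SSet.Homotopy (u ≫ BGMap π) (𝟙 _))) (a : A) : π (homOf u a) = a := by
  obtain ⟨hh⟩ := h
  obtain ⟨b, hb⟩ := gauge_of_homotopy _ _ hh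
  have h1 := hb (ev ![a, 1])
  rw [val_id_ev, val_comp_map] at h1
  have : Subsingleton ((BG A) _⦋0⦌) := bg_subsingleton
  have h2 : (BG A).δ 1 (ev ![a, 1]) = (BG A).δ 0 (ev ![a, 1]) := Subsingleton.elim _ _
  rw [h2, mul_comm] at h1
  exact (mul_left_cancel h1).symm

end

theorem no_section (p : ℕ) [hp : Fact p.Prime] (m : ℕ) :
    ¬ ∃ u : BG (Multiplicative (ZMod p)) ⟶ BG (stage p m).P,
      Nonempty (SSet.Homotopy (u ≫ BGMap (stage p m).π) (𝟙 _)) := by
  rintro ⟨u, hu⟩
  set g : Multiplicative (ZMod p) := Multiplicative.ofAdd 1 with hg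
  have h1 : (stage p m).π (homOf u g) = g := homOf_section u _ hu g
  have h2 : (homOf u g) ^ p = 1 := by
    rw [← map_pow]
    have : g ^ p = 1 := by
      rw [hg, ← ofAdd_nsmul]
      simp
    rw [this, map_one]
  have h3 := (stage p m).star _ h2
  rw [h1] at h3
  have h4 : (1 : ZMod p) = 0 := h3
  exact one_ne_zero h4

end Pool.Agent.H68.Ce
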