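import Pool.Agent.H68.CeDefs2
import Pool.Agent.H68.CeNoFactor

/-!
# The loop space of the classifying space of a group is discrete
-/

set_option autoImplicit false

open CategoryTheory Limits Simplicial Opposite MonoidalCategory

namespace Pool.Agent.H68.Ce

open Pool.Agent.H78.Ce

section Homology

variable {k : Type} [Field k] {X : SSet.{0}}

/-- A submodule containing all the simplices is everything. -/
lemma submodule_eq_top {n : ℕ} (S : Submodule k ((X.chainComplex (RR k)).X n))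
    (h : ∀ x : X _⦋n⦌, el k x ∈ S) (z : (X.chainComplex (RR k)).X n) : z ∈ S := by
  by_contra hz
  obtain ⟨φ, hφ, hφz⟩ := exists_functional S z hz
  apply hφz
  have : φ = 0 := by
    apply linearMap_ext
    intro x
    rw [LinearMap.zero_apply]
    exact hφ _ (h x)
  rw [this, LinearMap.zero_apply]

lemma chain_finite {n : ℕ} [Finite (X _⦋n⦌)] :
    Module.Finite k ((X.chainComplex (RR k)).X n) := by
  refine ⟨⟨Set.Finite.toFinset (Set.finite_range (fun x : X _⦋n⦌ => el k x)), ?_⟩⟩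
  rw [eq_top_iff]
  intro z _
  refine submodule_eq_top _ (fun x => ?_) z
  apply Submodule.subset_span
  simp

lemma homology_finite {n : ℕ} [Finite (X _⦋n⦌)] :
    Module.Finite k ((X.chainComplex (RR k)).homology n) := by
  have h1 : Module.Finite k ((X.chainComplex (RR k)).X n) := chain_finite
  have h2 : Module.Finite k ((X.chainComplex (RR k)).cycles n) :=
    Module.Finite.of_injective ((X.chainComplex (RR k)).iCycles n).hom (iCycles_injective _ n)
  exact Module.Finite.of_surjective ((X.chainComplex (RR k)).homologyπ n).hom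
    (homologyπ_surjective _ n)

lemma isZero_homology (n : ℕ)
    (h : ∀ x : (X.chainComplex (RR k)).X n,
      (X.chainComplex (RR k)).d n ((ComplexShape.down ℕ).next n) x = 0 →
      ∃ w : (X.chainComplex (RR k)).X (n + 1), (X.chainComplex (RR k)).d (n + 1) n w = x) :
    IsZero ((X.chainComplex (RR k)).homology n) := by
  have : Subsingleton ((X.chainComplex (RR k)).homology n) := by
    refine subsingleton_of_forall_eq 0 fun b => ?_
    obtain ⟨c, rfl⟩ := homologyπ_surjective (X.chainComplex (RR k)) n b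
    obtain ⟨w, hw⟩ := h _ (d_iCycles _ n _ c)
    have : c = (X.chainComplex (RR k)).toCycles (n + 1) n w := by
      apply iCycles_injective
      rw [i_toCycles, hw]
    rw [this, π_toCycles]
  exact ModuleCat.isZero_of_subsingleton _

lemma alt_sum (k : Type) [Field k] (m : ℕ) :
    ∑ i : Fin m, (-1 : k) ^ (i : ℕ) = if Even m then 0 else 1 := by
  rw [Fin.sum_univ_eq_sum_range (fun i => (-1 : k) ^ i) m]
  exact neg_one_geom_sum

lemma alt_sum_int (m : ℕ) :
    ∑ i : Fin m, (-1 : ℤ) ^ (i : ℕ) = if Even m then 0 else 1 := by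
  rw [Fin.sum_univ_eq_sum_range (fun i => (-1 : ℤ) ^ i) m]
  exact neg_one_geom_sum

/-- A simplicial set all of whose face maps are equal bijections has no homology in
positive degrees. -/
lemma isZero_of_discrete
    (hδ : ∀ (n : ℕ) (i : Fin (n + 2)) (x : X _⦋n + 1⦌), X.δ i x = X.δ 0 x)
    (hbij : ∀ n : ℕ, Function.Bijective (fun x : X _⦋n + 1⦌ => X.δ 0 x)) (n : ℕ) :
    IsZero ((X.chainComplex (RR k)).homology (n + 1)) := by
  apply isZero_homology
  intro x hx
  rcases Nat.even_or_odd n with hn | hn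
  · -- the differential from degree `n + 2` is surjective
    have h1 : x ∈ LinearMap.range ((X.chainComplex (RR k)).d (n + 1 + 1) (n + 1)).hom := by
      refine submodule_eq_top _ (fun t => ?_) x
      obtain ⟨s, hs⟩ := (hbij (n + 1)).2 t
      refine ⟨el k s, ?_⟩
      show (X.chainComplex (RR k)).d (n + 1 + 1) (n + 1) (el k s) = _
      rw [d_el]
      simp only [hδ (n + 1) _ s]
      rw [← Finset.sum_smul, alt_sum_int, if_neg, one_smul]
      · exact congrArg _ hs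
      · rw [Nat.not_even_iff_odd]
        obtain ⟨m, hm⟩ := hn
        exact ⟨m + 1, by omega⟩
    exact h1
  · -- the differential from degree `n + 1` is injective
    have h1 : (ComplexShape.down ℕ).next (n + 1) = n := ComplexShape.next_eq' _ (by simp)
    rw [h1] at hx
    have h2 : x = 0 := by
      by_contra hne
      obtain ⟨φ, -, hφz⟩ := exists_functional (k := k) (⊥ : Submodule k _) x
        (by rwa [Submodule.mem_bot])
      apply hφz
      let e := Equiv.ofBijective _ (hbij n)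
      have h3 : φ = fn (dX (fun t : X _⦋n⦌ => φ (el k (e.symm t)))) := by
        apply linearMap_ext
        intro s
        rw [fn_el]
        unfold dX
        simp only [hδ n _ s]
        rw [← Finset.sum_mul, alt_sum, if_neg, one_mul]
        · have : e.symm (X.δ 0 s) = s := e.symm_apply_apply s
          rw [this]
        · rw [Nat.not_even_iff_odd]
          obtain ⟨m, hm⟩ := hn
          exact ⟨m + 1, by omega⟩
      rw [h3, ← fn_d, hx, map_zero]
    exact ⟨0, by rw [map_zero, h2]⟩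

end Homology

section Loop

variable {G : Type} [Group G]

/-- The map `Δ[1] ⟶ BG` given by an element of the group. -/
def vmap (g : G) : Δ[1] ⟶ BG G := SSet.yonedaEquiv.symm (ev ![g, 1])

lemma eq_const {X : SSet.{0}} (y y' : (BG G) _⦋0⦌) :
    (SSet.const y : X ⟶ BG G) = SSet.const y' := by
  have : Subsingleton ((BG G) _⦋0⦌) := bg_subsingleton
  rw [Subsingleton.elim y y']

/-- The loops in `BG`. -/
noncomputable def lp (b : (BG G) _⦋0⦌) (n : SimplexCategoryᵒᵖ) (g : G) :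
    (loopSpace (BG G) b).obj n :=
  ⟨CartesianMonoidalCategory.snd _ _ ≫ vmap g,
    by rw [SSet.ι₀_snd_assoc, SSet.const_comp]; exact eq_const _ _,
    by rw [SSet.ι₁_snd_assoc, SSet.const_comp]; exact eq_const _ _⟩

lemma lp_map (b : (BG G) _⦋0⦌) {n m : SimplexCategoryᵒᵖ} (f : n ⟶ m) (g : G) :
    (loopSpace (BG G) b).map f (lp b n g) = lp b m g := by
  apply Subtype.ext
  rfl

/-- the value of `vmap` on the nondegenerate edge -/
lemma val_vmap (g : G) : val (vmap g) (SSet.stdSimplex.objMk₁ (1 : Fin 3)) = g := by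
  have h1 : (SSet.stdSimplex.objMk₁ (1 : Fin 3) : Δ[1] _⦋1⦌) = SSet.yonedaEquiv (𝟙 _) := by
    apply DFunLike.ext
    intro k
    fin_cases k <;> rfl
  rw [h1]
  have h2 : (vmap g).app _ (SSet.yonedaEquiv (𝟙 _)) = ev ![g, 1] :=
    SSet.yonedaEquiv_symm_app_id _
  have h3 : ∀ s : (BG G) _⦋1⦌, (vmap g).app _ (SSet.yonedaEquiv (𝟙 _)) = s →
      val (vmap g) (SSet.yonedaEquiv (𝟙 _)) = val (𝟙 (BG G)) s := by
    rintro s rfl
    rfl
  rw [h3 _ h2]
  exact val_id_ev g

lemma val_const {X : SSet.{0}} (b : (BG G) _⦋0⦌) (e : X _⦋1⦌) :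
    val (SSet.const b : X ⟶ BG G) e = 1 := by
  have h1 : val (SSet.const b : X ⟶ BG G) e = val (𝟙 (BG G)) ((BG G).σ 0 b) := rfl
  rw [h1]
  exact (val_isCoc (𝟙 (BG G))).degenerate b

variable {X : SSet.{0}}

lemma square_left (h : X ⊗ Δ[1] ⟶ BG G) (e : X _⦋1⦌) :
    val h (e, SSet.stdSimplex.objMk₁ (1 : Fin 3)) =
      val h (X.σ 0 (X.δ 0 e), SSet.stdSimplex.objMk₁ (1 : Fin 3)) * val (SSet.ι₀ ≫ h) e := by
  have hc := val_isCoc h
  have h1 := hc (X.σ 1 e, SSet.stdSimplex.objMk₁ (2 : Fin 4))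
  have a1 : (X ⊗ Δ[1]).δ 1 (X.σ 1 e, SSet.stdSimplex.objMk₁ (2 : Fin 4)) =
      (e, SSet.stdSimplex.objMk₁ (1 : Fin 3)) := by
    refine Prod.ext ?_ ?_
    · change X.δ 1 (X.σ 1 e) = e
      simpa using SSet.δ_comp_σ_self_apply (S := X) (1 : Fin 2) e
    · change Δ[1].δ 1 (SSet.stdSimplex.objMk₁ (2 : Fin 4)) = SSet.stdSimplex.objMk₁ (1 : Fin 3)
      rw [SSet.stdSimplex.δ_objMk₁_of_lt _ _ (by decide)]
      rfl
  have a0 : (X ⊗ Δ[1]).δ 0 (X.σ 1 e, SSet.stdSimplex.objMk₁ (2 : Fin 4)) =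
      (X.σ 0 (X.δ 0 e), SSet.stdSimplex.objMk₁ (1 : Fin 3)) := by
    refine Prod.ext ?_ ?_
    · change X.δ 0 (X.σ 1 e) = X.σ 0 (X.δ 0 e)
      simpa using SSet.δ_comp_σ_of_le_apply (S := X) (i := (0 : Fin 2)) (j := (0 : Fin 1))
        (by decide) e
    · change Δ[1].δ 0 (SSet.stdSimplex.objMk₁ (2 : Fin 4)) = SSet.stdSimplex.objMk₁ (1 : Fin 3)
      rw [SSet.stdSimplex.δ_objMk₁_of_lt _ _ (by decide)]
      rfl
  have a2 : (X ⊗ Δ[1]).δ 2 (X.σ 1 e, SSet.stdSimplex.objMk₁ (2 : Fin 4)) =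
      SSet.ι₀.app _ e := by
    refine Prod.ext ?_ ?_
    · change X.δ 2 (X.σ 1 e) = e
      simpa using SSet.δ_comp_σ_succ_apply (S := X) (1 : Fin 2) e
    · apply DFunLike.ext
      intro k
      fin_cases k <;> rfl
  rw [a0, a1, a2] at h1
  exact h1

lemma square_right (h : X ⊗ Δ[1] ⟶ BG G) (e : X _⦋1⦌) :
    val h (e, SSet.stdSimplex.objMk₁ (1 : Fin 3)) =
      val (SSet.ι₁ ≫ h) e * val h (X.σ 0 (X.δ 1 e), SSet.stdSimplex.objMk₁ (1 : Fin 3)) := by
  have hc := val_isCoc h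
  have h2 := hc (X.σ 0 e, SSet.stdSimplex.objMk₁ (1 : Fin 4))
  have b1 : (X ⊗ Δ[1]).δ 1 (X.σ 0 e, SSet.stdSimplex.objMk₁ (1 : Fin 4)) =
      (e, SSet.stdSimplex.objMk₁ (1 : Fin 3)) := by
    refine Prod.ext ?_ ?_
    · change X.δ 1 (X.σ 0 e) = e
      simpa using SSet.δ_comp_σ_succ_apply (S := X) (0 : Fin 2) e
    · change Δ[1].δ 1 (SSet.stdSimplex.objMk₁ (1 : Fin 4)) = SSet.stdSimplex.objMk₁ (1 : Fin 3)
      rw [SSet.stdSimplex.δ_objMk₁_of_le _ _ (by decide)]
      rfl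
  have b0 : (X ⊗ Δ[1]).δ 0 (X.σ 0 e, SSet.stdSimplex.objMk₁ (1 : Fin 4)) =
      SSet.ι₁.app _ e := by
    refine Prod.ext ?_ ?_
    · change X.δ 0 (X.σ 0 e) = e
      simpa using SSet.δ_comp_σ_self_apply (S := X) (0 : Fin 2) e
    · apply DFunLike.ext
      intro k
      fin_cases k <;> rfl
  have b2 : (X ⊗ Δ[1]).δ 2 (X.σ 0 e, SSet.stdSimplex.objMk₁ (1 : Fin 4)) =
      (X.σ 0 (X.δ 1 e), SSet.stdSimplex.objMk₁ (1 : Fin 3)) := by
    refine Prod.ext ?_ ?_
    · change X.δ 2 (X.σ 0 e) = X.σ 0 (X.δ 1 e)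
      simpa using SSet.δ_comp_σ_of_gt_apply (S := X) (i := (1 : Fin 2)) (j := (0 : Fin 1))
        (by decide) e
    · change Δ[1].δ 2 (SSet.stdSimplex.objMk₁ (1 : Fin 4)) = SSet.stdSimplex.objMk₁ (1 : Fin 3)
      rw [SSet.stdSimplex.δ_objMk₁_of_le _ _ (by decide)]
      rfl
  rw [b0, b1, b2] at h2
  exact h2

lemma lp_injective (b : (BG G) _⦋0⦌) (n : ℕ) :
    Function.Injective (lp b (op ⦋n⦌) : G → (loopSpace (BG G) b) _⦋n⦌) := by
  intro g g' h
  have h1 : (lp b (op ⦋n⦌) g).1 = (lp b (op ⦋n⦌) g').1 := congrArg Subtype.val h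
  let x : Δ[n] _⦋0⦌ := SSet.stdSimplex.obj₀Equiv.symm 0
  have h2 : ∀ g : G, val (lp b (op ⦋n⦌) g).1
      ((Δ[n] : SSet.{0}).σ 0 x, SSet.stdSimplex.objMk₁ (1 : Fin 3)) = g := fun g => val_vmap g
  rw [← h2 g, ← h2 g', h1]

lemma lp_surjective (b : (BG G) _⦋0⦌) (n : ℕ) :
    Function.Surjective (lp b (op ⦋n⦌) : G → (loopSpace (BG G) b) _⦋n⦌) := by
  rintro ⟨h, hh0, hh1⟩
  let x : Δ[n] _⦋0⦌ := SSet.stdSimplex.obj₀Equiv.symm 0
  let B : Δ[n] _⦋0⦌ → G := fun y => val h ((Δ[n] : SSet.{0}).σ 0 y, SSet.stdSimplex.objMk₁ (1 : Fin 3))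
  have hL : ∀ e : Δ[n] _⦋1⦌, val h (e, SSet.stdSimplex.objMk₁ (1 : Fin 3)) = B (Δ[n].δ 0 e) := by
    intro e
    rw [square_left, hh0, val_const, mul_one]
  have hR : ∀ e : Δ[n] _⦋1⦌, val h (e, SSet.stdSimplex.objMk₁ (1 : Fin 3)) = B (Δ[n].δ 1 e) := by
    intro e
    rw [square_right, hh1, val_const, one_mul]
  have hB : ∀ y : Δ[n] _⦋0⦌, B y = B x := by
    intro y
    have hy : (0 : Fin (n + 1)) ≤ SSet.stdSimplex.obj₀Equiv y := Fin.zero_le _
    let e : Δ[n] _⦋1⦌ := SSet.stdSimplex.objEquiv.symm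
      (SimplexCategory.mkOfLe (0 : Fin (n + 1)) (SSet.stdSimplex.obj₀Equiv y) hy)
    have e0 : Δ[n].δ 0 e = y := by
      apply DFunLike.ext
      intro k
      have : k = 0 := Fin.fin_one_eq_zero k
      subst this
      rfl
    have e1 : Δ[n].δ 1 e = x := by
      apply DFunLike.ext
      intro k
      have : k = 0 := Fin.fin_one_eq_zero k
      subst this
      rfl
    rw [← e0, ← e1, ← hL, ← hR]
  refine ⟨B x, ?_⟩
  apply Subtype.ext
  apply hom_ext
  rintro ⟨e, t⟩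
  obtain ⟨i, rfl⟩ := SSet.stdSimplex.objMk₁_surjective t
  fin_cases i
  · -- the end `1`
    have h1 : ∀ u : Δ[n] ⊗ Δ[1] ⟶ BG G, SSet.ι₁ ≫ u = SSet.const b →
        val u (e, SSet.stdSimplex.objMk₁ (0 : Fin 3)) = 1 := by
      intro u hu
      have h2 : (e, SSet.stdSimplex.objMk₁ (0 : Fin 3)) = (SSet.ι₁ : Δ[n] ⟶ Δ[n] ⊗ Δ[1]).app _ e := by
        refine Prod.ext rfl ?_
        apply DFunLike.ext
        intro k
        fin_cases k <;> rfl
      rw [h2, ← val_comp, hu, val_const]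
    exact (h1 _ (lp b (op ⦋n⦌) (B x)).2.2).trans (h1 h hh1).symm
  · exact (val_vmap (B x)).trans ((hL e).trans (hB _)).symm
  · -- the end `0`
    have h1 : ∀ u : Δ[n] ⊗ Δ[1] ⟶ BG G, SSet.ι₀ ≫ u = SSet.const b →
        val u (e, SSet.stdSimplex.objMk₁ (2 : Fin 3)) = 1 := by
      intro u hu
      have h2 : (e, SSet.stdSimplex.objMk₁ (2 : Fin 3)) = (SSet.ι₀ : Δ[n] ⟶ Δ[n] ⊗ Δ[1]).app _ e := by
        refine Prod.ext rfl ?_
        apply DFunLike.ext
        intro k
        fin_cases k <;> rfl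
      rw [h2, ← val_comp, hu, val_const]
    exact (h1 _ (lp b (op ⦋n⦌) (B x)).2.1).trans (h1 h hh0).symm

/-- The loop space of `BG` for a finite group `G` has finite mod `p` homology. -/
theorem loop_finite (p : ℕ) [Fact p.Prime] [Finite G] (b : (BG G) _⦋0⦌) :
    HomologyFinite p (loopSpace (BG G) b) := by
  have hlp : ∀ n : ℕ, Function.Bijective (lp b (op ⦋n⦌) : G → (loopSpace (BG G) b) _⦋n⦌) :=
    fun n => ⟨lp_injective b n, lp_surjective b n⟩
  constructor
  · intro n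
    have : Finite ((loopSpace (BG G) b) _⦋n⦌) := Finite.of_surjective _ (hlp n).2
    exact homology_finite
  · refine ⟨1, fun n hn => ?_⟩
    obtain ⟨m, rfl⟩ := Nat.exists_eq_add_of_le' hn
    have hδ : ∀ (n : ℕ) (i : Fin (n + 2)) (g : G),
        (loopSpace (BG G) b).δ i (lp b (op ⦋n + 1⦌) g) = lp b (op ⦋n⦌) g :=
      fun n i g => lp_map b _ g
    refine isZero_of_discrete (k := ZMod p) ?_ ?_ m
    · intro n i x
      obtain ⟨g, rfl⟩ := (hlp (n + 1)).2 x
      rw [hδ, hδ]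
    · intro n
      constructor
      · intro x y hxy
        obtain ⟨g, rfl⟩ := (hlp (n + 1)).2 x
        obtain ⟨g', rfl⟩ := (hlp (n + 1)).2 y
        have : lp b (op ⦋n⦌) g = lp b (op ⦋n⦌) g' := by
          rw [← hδ n 0 g, ← hδ n 0 g']
          exact hxy
        rw [(hlp n).1 this]
      · intro y
        obtain ⟨g, rfl⟩ := (hlp n).2 y
        exact ⟨lp b (op ⦋n + 1⦌) g, hδ n 0 g⟩

end Loop

end Pool.Agent.H68.Ce
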