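import Pool.Agent.H68.CeLoop

/-!
# The counterexample for MP_ce8751_gt
-/

set_option autoImplicit false

open CategoryTheory Limits Simplicial Opposite MonoidalCategory

namespace Pool.Agent.H68.Ce

open Pool.Agent.H78.Ce

lemma bg_connected (G : Type) [Group G] : (BG G).IsConnected := by
  have h1 : Subsingleton ((BG G) _⦋0⦌) := bg_subsingleton
  have h2 : (BG G).IsPreconnected := by
    constructor
    intro x y
    obtain ⟨x, rfl⟩ := SSet.π₀.mk_surjective x
    obtain ⟨y, rfl⟩ := SSet.π₀.mk_surjective y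
    rw [Subsingleton.elim x y]
  have h3 : (BG G).Nonempty := Nonempty.intro (ev (n := 0) (1 : Fin 1 → G))
  exact { toSubsingleton := h2, nonempty := h3 }

lemma bgMap_mono {G H : Type} [Group G] [Group H] (f : G →* H) (hf : Function.Injective f) :
    Mono (BGMap f) := by
  have : ∀ n : SimplexCategoryᵒᵖ, Mono ((BGMap f).app n) := by
    intro n
    rw [mono_iff_injective]
    exact bgMap_injective (n := n.unop.len) f hf
  exact NatTrans.mono_of_mono_app _

lemma modPEquiv_id (p : ℕ) (X : SSet.{0}) : ModPEquiv p (𝟙 X) := by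
  intro n
  rw [SSet.homologyMap_id]
  infer_instance

variable (p : ℕ) [hp : Fact p.Prime]

instance finite_mul_zmod : Finite (Multiplicative (ZMod p)) := by
  have : NeZero p := ⟨hp.1.ne_zero⟩
  infer_instance

lemma zmod_isPGroup : IsPGroup p (Multiplicative (ZMod p)) :=
  IsPGroup.of_card (n := 1) (by rw [pow_one]; exact Nat.card_zmod p)

lemma zmod_pComplete : PComplete p (BG (Multiplicative (ZMod p))) :=
  pComplete_BG p _ (zmod_isPGroup p)

lemma stage_completion (m : ℕ) : IsPCompletion p (𝟙 (BG (stage p m).P)) :=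
  ⟨pComplete_BG p (stage p m).P (stage p m).isP, modPEquiv_id p _⟩

/-- The direct system of the counterexample. -/
noncomputable def theSystem : DirectSystem p where
  D := tower p ⋙ BFun
  mono f := bgMap_mono _ (tr_injective p (leOfHom f))
  stages m := ⟨(stage p m).P, (stage p m).grp, (stage p m).fin, 𝟙 (BG (stage p m).P),
    stage_completion p m⟩
  BX := BG (Multiplicative (ZMod p))
  pcompact :=
    { complete := zmod_pComplete p
      connected := bg_connected _
      finite := loop_finite p }
  η := colimMap p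
  completion := ⟨zmod_pComplete p, colimMap_modPEquiv p⟩

lemma theSystem_ι (m : ℕ) : (theSystem p).ι m = BGMap (stage p m).π := ι_colimMap p m

theorem main : ∃ S : DirectSystem p,
    S.BX = BG (Multiplicative (ZMod p)) ∧
    (∀ m : ℕ, ∃ (P : Type) (_ : Group P) (_ : Finite P), IsPGroup p P ∧ S.D.obj m = BG P) ∧
    ∃ (G : Type) (_ : Group G) (_ : Finite G) (Y : SSet.{0})
      (θ : BG G ⟶ Y) (_ : IsPCompletion p θ) (g : Y ⟶ S.BX),
      ∀ m : ℕ, ¬ ∃ f : Y ⟶ S.D.obj m, Nonempty (SSet.Homotopy (f ≫ S.ι m) g) := by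
  refine ⟨theSystem p, rfl, fun m => ⟨(stage p m).P, (stage p m).grp, (stage p m).fin,
    (stage p m).isP, rfl⟩, Multiplicative (ZMod p), inferInstance, inferInstance, BG _, 𝟙 _,
    ⟨zmod_pComplete p, modPEquiv_id p _⟩, 𝟙 _, fun m => ?_⟩
  rintro ⟨f, hf⟩
  rw [theSystem_ι] at hf
  exact no_section p m ⟨f, hf⟩

end Pool.Agent.H68.Ce
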