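import Pool.Agent.H68.CeHom
import Pool.Agent.H68.CeExt

/-!
# Simplices of the nerve of a group as orbits of tuples
-/

set_option autoImplicit false

open CategoryTheory Limits Simplicial Opposite

namespace Pool.Agent.H68.Ce

section

variable {G H : Type} [Group G] [Group H] {n : ℕ}

/-- The simplex of the nerve defined by a tuple of group elements. -/
def ev (x : Fin (n + 1) → G) : (BG G) _⦋n⦌ :=
  show Fin (n + 1) ⥤ SingleObj G from
  { obj := fun _ => SingleObj.star G
    map := fun {i j} _ => ((x j)⁻¹ * x i : G)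
    map_id := fun i => by
      show (x i)⁻¹ * x i = 1
      group
    map_comp := fun {i j l} _ _ => by
      show (x l)⁻¹ * x i = ((x l)⁻¹ * x j) * ((x j)⁻¹ * x i)
      group }

lemma ev_lm (g : G) (x : Fin (n + 1) → G) : ev (lm g ∘ x) = ev x := by
  refine CategoryTheory.Functor.ext (fun _ => rfl) (fun i j f => ?_)
  simp only [eqToHom_refl, Category.comp_id, Category.id_comp]
  show (g * x j)⁻¹ * (g * x i) = (x j)⁻¹ * x i
  group

lemma ev_surjective : Function.Surjective (ev : (Fin (n + 1) → G) → (BG G) _⦋n⦌) := by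
  intro Φ
  let Φ' : Fin (n + 1) ⥤ SingleObj G := Φ
  refine ⟨fun i => (show G from Φ'.map (homOfLE (Fin.zero_le i)))⁻¹, ?_⟩
  refine CategoryTheory.Functor.ext (fun _ => rfl) (fun i j f => ?_)
  simp only [eqToHom_refl, Category.comp_id, Category.id_comp]
  have h1 : Φ'.map (homOfLE (Fin.zero_le j)) = Φ'.map (homOfLE (Fin.zero_le i)) ≫ Φ'.map f := by
    rw [← Functor.map_comp]
    rfl
  have h2 : (show G from Φ'.map (homOfLE (Fin.zero_le j)))
      = (show G from Φ'.map f) * (show G from Φ'.map (homOfLE (Fin.zero_le i))) := h1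
  show ((show G from Φ'.map (homOfLE (Fin.zero_le j)))⁻¹)⁻¹
    * (show G from Φ'.map (homOfLE (Fin.zero_le i)))⁻¹ = (show G from Φ'.map f)
  rw [h2]
  group

lemma ev_eq_iff (x y : Fin (n + 1) → G) : ev x = ev y ↔ ∃ g : G, y = lm g ∘ x := by
  constructor
  · intro h
    refine ⟨y 0 * (x 0)⁻¹, ?_⟩
    funext i
    have h1 : ∀ (Φ Ψ : Fin (n + 1) ⥤ SingleObj G) (_ : Φ = Ψ) (i : Fin (n + 1)),
        (show G from Φ.map (homOfLE (Fin.zero_le i))) = (show G from Ψ.map (homOfLE (Fin.zero_le i))) := by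
      intro Φ Ψ hh i
      subst hh
      rfl
    have h2 : (x i)⁻¹ * x 0 = (y i)⁻¹ * y 0 := h1 _ _ h i
    show y i = y 0 * (x 0)⁻¹ * x i
    have h3 : ((x i)⁻¹ * x 0)⁻¹ = ((y i)⁻¹ * y 0)⁻¹ := by rw [h2]
    rw [mul_inv_rev, mul_inv_rev, inv_inv, inv_inv] at h3
    rw [mul_assoc, h3]
    group
  · rintro ⟨g, rfl⟩
    rw [ev_lm]

lemma ev_δ (i : Fin (n + 2)) (x : Fin (n + 2) → G) :
    (BG G).δ i (ev x) = ev (x ∘ i.succAbove) := by
  refine CategoryTheory.Functor.ext (fun _ => rfl) (fun a b f => ?_)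
  simp only [eqToHom_refl, Category.comp_id, Category.id_comp]
  rfl

lemma map_ev (f : G →* H) (x : Fin (n + 1) → G) :
    (BGMap f).app _ (ev x) = ev (f ∘ x) := by
  refine CategoryTheory.Functor.ext (fun _ => rfl) (fun a b g => ?_)
  simp only [eqToHom_refl, Category.comp_id, Category.id_comp]
  show f ((x b)⁻¹ * x a) = (f (x b))⁻¹ * f (x a)
  rw [map_mul, map_inv]

variable {k : Type} [Field k]

lemma eqv_ev (F : (BG G) _⦋n⦌ → k) : Eqv 1 (fun x => F (ev x)) := by
  intro g x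
  show F (ev (lm g ∘ x)) = F (ev x)
  rw [ev_lm]

lemma exists_of_eqv (F : (Fin (n + 1) → G) → k) (hF : Eqv 1 F) :
    ∃ c : (BG G) _⦋n⦌ → k, ∀ x, c (ev x) = F x := by
  refine ⟨fun s => F (Function.surjInv ev_surjective s), fun x => ?_⟩
  have h1 : ev (Function.surjInv (ev_surjective (G := G) (n := n)) (ev x)) = ev x :=
    Function.surjInv_eq _ _
  obtain ⟨g, hg⟩ := (ev_eq_iff _ _).1 h1
  show F (Function.surjInv (ev_surjective (G := G) (n := n)) (ev x)) = F x
  conv_rhs => rw [hg, hF]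
  rfl

lemma dX_ev (F : (BG G) _⦋n⦌ → k) (x : Fin (n + 2) → G) :
    dX F (ev x) = del (n + 1) (fun y => F (ev y)) x := by
  rw [del_eq_sum]
  unfold dX
  refine Finset.sum_congr rfl fun i _ => ?_
  rw [ev_δ, zsmul_eq_mul]
  push_cast
  rfl

lemma dX_eq_iff (F : (BG G) _⦋n⦌ → k) (F' : (BG G) _⦋n + 1⦌ → k) :
    dX F = F' ↔ del (n + 1) (fun y => F (ev y)) = fun x => F' (ev x) := by
  constructor
  · intro h
    funext x
    rw [← dX_ev, h]
  · intro h
    funext s
    obtain ⟨x, rfl⟩ := ev_surjective s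
    rw [dX_ev, h]

lemma bgMap_injective (f : G →* H) (hf : Function.Injective f) :
    Function.Injective (fun s : (BG G) _⦋n⦌ => (BGMap f).app _ s) := by
  intro s t h
  obtain ⟨x, rfl⟩ := ev_surjective s
  obtain ⟨y, rfl⟩ := ev_surjective t
  simp only [map_ev] at h
  rw [ev_eq_iff] at h ⊢
  obtain ⟨g, hg⟩ := h
  refine ⟨y 0 * (x 0)⁻¹, ?_⟩
  funext i
  apply hf
  have h0 := congrFun hg 0
  have hi := congrFun hg i
  simp only [Function.comp_apply, lm] at h0 hi ⊢
  rw [map_mul, map_mul, map_inv, hi, h0]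
  group

end

end Pool.Agent.H68.Ce
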