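import Pool.Agent.H68.CeExt

/-!
# Inflation-restriction for towers of extensions
-/

set_option autoImplicit false

namespace Pool.Agent.H68.Ce

/-- A tower of group extensions `N n → E n → Q`. -/
structure ExtSys (Q : Type) [Group Q] where
  /-- total groups -/
  E : ℕ → Type
  /-- kernels -/
  N : ℕ → Type
  [gE : ∀ n, Group (E n)]
  [gN : ∀ n, Group (N n)]
  /-- inclusion of the kernel -/
  κ : ∀ n, N n →* E n
  /-- projection -/
  π : ∀ n, E n →* Q
  inj : ∀ n, Function.Injective (κ n)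
  ex : ∀ n (e : E n), π n e = 1 ↔ ∃ x, κ n x = e
  surj : ∀ n, Function.Surjective (π n)
  /-- transition maps -/
  tE : ∀ {a b : ℕ}, a ≤ b → (E a →* E b)
  /-- transition maps of the kernels -/
  tN : ∀ {a b : ℕ}, a ≤ b → (N a →* N b)
  tE_trans : ∀ {a b c : ℕ} (h : a ≤ b) (h' : b ≤ c) (x : E a), tE h' (tE h x) = tE (h.trans h') x
  comm : ∀ {a b : ℕ} (h : a ≤ b) (x : N a), κ b (tN h x) = tE h (κ a x)
  tπ : ∀ {a b : ℕ} (h : a ≤ b) (x : E a), π b (tE h x) = π a x

attribute [instance] ExtSys.gE ExtSys.gN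

/-- The tower `N` kills the cohomology in degree `m` (cochains on `m + 1`-tuples) with
coefficients in trivial modules killed by `p`. -/
def Kill (p : ℕ) (N : ℕ → Type) [∀ n, Group (N n)]
    (t : ∀ {a b : ℕ}, a ≤ b → (N a →* N b)) (m : ℕ) : Prop :=
  ∀ a : ℕ, ∃ (b : ℕ) (h : a ≤ b), ∀ (V : Type) [AddCommGroup V], (∀ v : V, p • v = 0) →
    ∀ F : (Fin (m + 1) → N b) → V, Eqv 1 F → del (m + 1) F = 0 →
      ∃ G : (Fin m → N a) → V, Eqv 1 G ∧ del m G = fun x => F (t h ∘ x)

lemma eqv_one_iff {E V : Type} [Group E] [AddCommGroup V] {n : ℕ} (F : (Fin n → E) → V) :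
    Eqv 1 F ↔ ∀ (e : E) (x : Fin n → E), F (lm e ∘ x) = F x := Iff.rfl

lemma kill_zero (p : ℕ) (N : ℕ → Type) [∀ n, Group (N n)]
    (t : ∀ {a b : ℕ}, a ≤ b → (N a →* N b)) : Kill p N t 0 := by
  intro a
  refine ⟨a, le_rfl, fun V _ _ F _ hd => ⟨fun _ => F 1, fun _ _ => rfl, ?_⟩⟩
  funext x
  exact const_of_cocycle F hd _ _

section

variable {Q : Type} [Group Q]

lemma comp_one_of_kernel {E N : Type} [Group E] [Group N] {V : Type} [AddCommGroup V]
    (κ : N →* E) (π : E →* Q) (hex : ∀ e, π e = 1 ↔ ∃ x, κ x = e)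
    (a : Q →* AddMonoid.End V) : (a.comp π).comp κ = 1 := by
  ext1 n
  show a (π (κ n)) = 1
  rw [(hex (κ n)).2 ⟨n, rfl⟩, map_one]

lemma del_const_one {X V : Type} [AddCommGroup V] (w : V) :
    del 1 (fun _ : Fin 1 → X => w) = 0 := by
  funext x
  simp [del_succ_apply, del_zero_apply]

/-- Coinduced modules are acyclic. -/
lemma coind_acyclic {V : Type} [AddCommGroup V] {m : ℕ}
    (Φ : (Fin (m + 1) → Q) → (Q → V)) (hΦ : Eqv (coind Q V) Φ) (hd : del (m + 1) Φ = 0) :
    ∃ Ψ : (Fin m → Q) → (Q → V), Eqv (coind Q V) Ψ ∧ del m Ψ = Φ := by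
  let κ : PUnit.{1} →* Q := 1
  have h1 : del (m + 1) (fun x : Fin (m + 1) → PUnit.{1} => Φ (κ ∘ x) 1) = 0 := by
    let ev : (Q → V) →+ V :=
      { toFun := fun φ => φ 1
        map_zero' := rfl
        map_add' := fun _ _ => rfl }
    have h2 := del_coeff (m + 1) ev (fun x : Fin (m + 1) → PUnit.{1} => Φ (κ ∘ x))
    have h3 := del_comp (m + 1) κ Φ
    rw [hd] at h3
    rw [h3] at h2
    exact h2
  obtain ⟨Ψ, hΨ, hΨd⟩ := coind_coboundary (V := V) κ (MonoidHom.id Q)
    (fun x y _ => Subsingleton.elim x y)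
    (fun e => ⟨fun h => ⟨1, by simpa [κ] using h.symm⟩, fun ⟨x, hx⟩ => by simpa [κ] using hx.symm⟩)
    (fun e => ⟨e, rfl⟩) Φ hΦ hd _ (by
      intro e x
      have : (lm e ∘ x) = x := Subsingleton.elim _ _
      rw [this]
      rfl) (cocycle_cone m _ h1 1)
  exact ⟨Ψ, hΨ, hΨd⟩

/-- Surjectivity part. -/
theorem ext_surj (p : ℕ) (S : ExtSys Q) (m : ℕ) (hk : ∀ i < m, Kill p S.N S.tN i) (a : ℕ) :
    ∃ (b : ℕ) (h : a ≤ b), ∀ (V : Type) [AddCommGroup V], (∀ v : V, p • v = 0) →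
      ∀ (ρ : Q →* AddMonoid.End V) (F : (Fin (m + 1) → S.E b) → V),
        Eqv (ρ.comp (S.π b)) F → del (m + 1) F = 0 →
        (∃ ψ : (Fin m → S.N b) → V, Eqv 1 ψ ∧ del m ψ = fun x => F (S.κ b ∘ x)) →
        ∃ (f : (Fin (m + 1) → Q) → V) (g : (Fin m → S.E a) → V),
          Eqv ρ f ∧ del (m + 1) f = 0 ∧ Eqv (ρ.comp (S.π a)) g ∧ (m = 0 → g = 0) ∧
          (fun x => F (S.tE h ∘ x)) = (fun x => f (S.π a ∘ x)) + del m g := by
  induction m generalizing a with
  | zero =>
    refine ⟨a, le_rfl, fun V _ hV ρ F hF hd _ => ⟨fun _ => F 1, 0, ?_, del_const_one _,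
      Eqv.zero, fun _ => rfl, ?_⟩⟩
    · intro q x
      obtain ⟨e, rfl⟩ := S.surj a q
      have h1 := hF e 1
      have h2 := const_of_cocycle F hd (lm e ∘ 1) 1
      rw [h2] at h1
      exact h1
    · funext x
      rw [del_zero_fun]
      simp only [Pi.add_apply, Pi.zero_apply, add_zero]
      exact const_of_cocycle F hd _ _
  | succ m ih =>
    obtain ⟨b', h', IH⟩ := ih (fun i hi => hk i (Nat.lt_succ_of_lt hi)) a
    obtain ⟨b, h, hkill⟩ := hk m (Nat.lt_succ_self m) b'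
    refine ⟨b, h'.trans h, ?_⟩
    intro V _ hV ρ F hF hd hψ
    obtain ⟨ψ₀, hψ₀, hψ₀d⟩ := hψ
    -- the coinduced cocycle is a coboundary
    have hjF : Eqv ((coind Q V).comp (S.π b)) (fun x => coindEmb ρ (F x)) :=
      hF.coeff (coindEmb ρ) (fun e v => coindEmb_eqv ρ _ v)
    have hjd : del (m + 1 + 1) (fun x => coindEmb ρ (F x)) = 0 := by
      rw [del_coeff, hd]
      funext x
      exact map_zero _
    obtain ⟨Ψ, hΨ, hΨd⟩ := coind_coboundary (V := V) (S.κ b) (S.π b) (S.inj b) (S.ex b) (S.surj b)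
      _ hjF hjd ψ₀ hψ₀ (by
        rw [hψ₀d]
        funext x
        show F (S.κ b ∘ x) = ρ 1 (F (S.κ b ∘ x))
        rw [map_one]
        rfl)
    -- the quotient cocycle
    have hq : Eqv ((quoAct ρ).comp (S.π b)) (fun x => quoMk ρ (Ψ x)) :=
      hΨ.coeff (quoMk ρ) (fun e v => quoMk_eqv ρ _ v)
    have hqd : del (m + 1) (fun x => quoMk ρ (Ψ x)) = 0 := by
      rw [del_coeff, hΨd]
      funext x
      exact quoMk_emb ρ _
    -- its restriction to the kernel
    have hqN : Eqv 1 (fun x => quoMk ρ (Ψ (S.κ b ∘ x))) := by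
      have := hq.comp (S.κ b)
      rw [comp_one_of_kernel (S.κ b) (S.π b) (S.ex b)] at this
      exact this
    have hqNd : del (m + 1) (fun x => quoMk ρ (Ψ (S.κ b ∘ x))) = 0 := by
      have := del_comp (m + 1) (S.κ b) (fun x => quoMk ρ (Ψ x))
      rw [hqd] at this
      exact this
    obtain ⟨G₀, hG₀, hG₀d⟩ := hkill (Quo ρ) (quo_torsion p hV ρ) _ hqN hqNd
    have hcomm : ∀ x : Fin (m + 1) → S.N b', S.tE h ∘ (S.κ b' ∘ x) = S.κ b ∘ (S.tN h ∘ x) := by
      intro x
      funext i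
      exact (S.comm h (x i)).symm
    have hπ' : (S.π b).comp (S.tE h) = S.π b' := by
      ext x
      exact S.tπ h x
    have hr : Eqv ((quoAct ρ).comp (S.π b')) (fun x => quoMk ρ (Ψ (S.tE h ∘ x))) := by
      have := hq.comp (S.tE h)
      rw [MonoidHom.comp_assoc, hπ'] at this
      exact this
    have hrd : del (m + 1) (fun x => quoMk ρ (Ψ (S.tE h ∘ x))) = 0 := by
      have := del_comp (m + 1) (S.tE h) (fun x => quoMk ρ (Ψ x))
      rw [hqd] at this
      exact this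
    obtain ⟨fb, gb, hfb, hfbd, hgb, hgb0, hfg⟩ := IH (Quo ρ) (quo_torsion p hV ρ) (quoAct ρ)
      (fun x => quoMk ρ (Ψ (S.tE h ∘ x))) hr hrd ⟨G₀, hG₀, by
        rw [hG₀d]
        funext x
        rw [hcomm]⟩
    obtain ⟨ft, hft, hftq⟩ := exists_lift_eqv (quoMk ρ) (fun e v => quoMk_eqv ρ e v)
      (quoMk_surjective ρ) fb hfb
    have hgt : ∃ gt : (Fin m → S.E a) → (Q → V), Eqv ((coind Q V).comp (S.π a)) gt ∧
        ∀ x, quoMk ρ (gt x) = gb x := by
      cases m with
      | zero =>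
        refine ⟨0, Eqv.zero, fun x => ?_⟩
        rw [hgb0 rfl]
        exact map_zero _
      | succ m =>
        exact exists_lift_eqv (a := (coind Q V).comp (S.π a)) (a' := (quoAct ρ).comp (S.π a))
          (quoMk ρ) (fun e v => quoMk_eqv ρ _ v) (quoMk_surjective ρ) gb hgb
    obtain ⟨gt, hgt, hgtq⟩ := hgt
    have hπa : (S.π b).comp (S.tE (h'.trans h)) = S.π a := by
      ext x
      exact S.tπ _ x
    have hΨa : Eqv ((coind Q V).comp (S.π a)) (fun x => Ψ (S.tE (h'.trans h) ∘ x)) := by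
      have := hΨ.comp (S.tE (h'.trans h))
      rw [MonoidHom.comp_assoc, hπa] at this
      exact this
    have hDe := (hΨa.sub (hft.comp (S.π a))).sub hgt.del
    have htt : ∀ {l : ℕ} (x : Fin l → S.E a),
        S.tE h ∘ (S.tE h' ∘ x) = S.tE (h'.trans h) ∘ x := by
      intro l x
      funext i
      exact S.tE_trans h' h (x i)
    have hDr : ∀ x, ∃ v, coindEmb ρ v = ((fun x => Ψ (S.tE (h'.trans h) ∘ x))
        - (fun x => ft (S.π a ∘ x)) - del m gt) x := by
      intro x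
      rw [← quoMk_eq_zero]
      have h1 := congrFun hfg x
      simp only [Pi.add_apply] at h1
      rw [htt] at h1
      simp only [Pi.sub_apply, map_sub]
      rw [h1, hftq]
      have h2 := congrFun (del_coeff m (quoMk ρ) gt) x
      have h3 : (fun x => quoMk ρ (gt x)) = gb := funext hgtq
      rw [h3] at h2
      rw [← h2]
      abel
    obtain ⟨G, hG, hGj⟩ := exists_restrict_eqv (a := (coind Q V).comp (S.π a))
      (a' := ρ.comp (S.π a)) (coindEmb ρ) (fun e v => coindEmb_eqv ρ _ v)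
      (coindEmb_injective ρ) _ hDe hDr
    have hfr : ∀ x, ∃ v, coindEmb ρ v = del (m + 1) ft x := by
      intro x
      rw [← quoMk_eq_zero]
      have h2 := congrFun (del_coeff (m + 1) (quoMk ρ) ft) x
      have h3 : (fun x => quoMk ρ (ft x)) = fb := funext hftq
      rw [h3, hfbd] at h2
      exact h2.symm
    obtain ⟨f, hf, hfj⟩ := exists_restrict_eqv (a := coind Q V)
      (a' := ρ) (coindEmb ρ) (fun e v => coindEmb_eqv ρ _ v)
      (coindEmb_injective ρ) _ hft.del hfr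
    refine ⟨f, G, hf, ?_, hG, fun h0 => absurd h0 (Nat.succ_ne_zero m), ?_⟩
    · funext x
      apply coindEmb_injective ρ
      have h1 := congrFun (del_coeff (m + 1 + 1) (coindEmb ρ) f) x
      have h2 : (fun x => coindEmb ρ (f x)) = del (m + 1) ft := funext hfj
      rw [h2, del_del] at h1
      rw [Pi.zero_apply, map_zero]
      exact h1.symm
    · funext x
      apply coindEmb_injective ρ
      have h1 := congrFun (del_coeff (m + 1) (coindEmb ρ) G) x
      have h2 : (fun x => coindEmb ρ (G x)) = (fun x => Ψ (S.tE (h'.trans h) ∘ x))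
        - (fun x => ft (S.π a ∘ x)) - del m gt := funext hGj
      rw [h2, del_sub, del_sub, del_del, del_comp, del_comp, hΨd] at h1
      simp only [Pi.sub_apply, Pi.zero_apply, sub_zero] at h1
      rw [Pi.add_apply, map_add, hfj, ← h1]
      abel

/-- Injectivity part. -/
theorem ext_inj (p : ℕ) (S : ExtSys Q) (m : ℕ) (hk : ∀ i ≤ m, Kill p S.N S.tN i) (a : ℕ) :
    ∃ (b : ℕ) (_ : a ≤ b), ∀ (V : Type) [AddCommGroup V], (∀ v : V, p • v = 0) →
      ∀ (ρ : Q →* AddMonoid.End V) (f : (Fin (m + 2) → Q) → V),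
        Eqv ρ f → del (m + 2) f = 0 →
        ∀ g : (Fin (m + 1) → S.E b) → V, Eqv (ρ.comp (S.π b)) g →
        (fun x => f (S.π b ∘ x)) = del (m + 1) g →
        ∃ g' : (Fin (m + 1) → Q) → V, Eqv ρ g' ∧ del (m + 1) g' = f := by
  induction m generalizing a with
  | zero =>
    refine ⟨a, le_rfl, fun V _ hV ρ f hf hd g hg hfg => ?_⟩
    have hjf : Eqv (coind Q V) (fun x => coindEmb ρ (f x)) :=
      hf.coeff (coindEmb ρ) (fun e v => coindEmb_eqv ρ _ v)
    have hjd : del 2 (fun x => coindEmb ρ (f x)) = 0 := by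
      rw [del_coeff, hd]
      funext x
      exact map_zero _
    obtain ⟨Ψ, hΨ, hΨd⟩ := coind_acyclic _ hjf hjd
    have hD : del 1 ((fun x => Ψ (S.π a ∘ x)) - (fun x => coindEmb ρ (g x))) = 0 := by
      rw [del_sub, del_comp, del_coeff, hΨd, ← hfg]
      simp
    have hDe : Eqv ((coind Q V).comp (S.π a))
        ((fun x => Ψ (S.π a ∘ x)) - (fun x => coindEmb ρ (g x))) :=
      (hΨ.comp (S.π a)).sub (hg.coeff (coindEmb ρ) (fun e v => coindEmb_eqv ρ _ v))
    set D := (fun x => Ψ (S.π a ∘ x)) - (fun x => coindEmb ρ (g x)) with hDdef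
    have hconst : ∀ x, D x = D 1 := fun x => const_of_cocycle D hD _ _
    have hinv : ∀ q, coind Q V q (D 1) = D 1 := by
      intro q
      obtain ⟨e, rfl⟩ := S.surj a q
      have h1 := hDe e 1
      rw [hconst] at h1
      exact h1.symm
    have hΨ' : Eqv (coind Q V) (Ψ - fun _ => D 1) :=
      hΨ.sub (fun q x => (hinv q).symm)
    have hr : ∀ x, ∃ v, coindEmb ρ v = (Ψ - fun _ => D 1 : (Fin 1 → Q) → (Q → V)) x := by
      intro x
      obtain ⟨e, he⟩ := S.surj a (x 0)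
      refine ⟨g (fun _ => e), ?_⟩
      have h1 := hconst (fun _ => e)
      have h2 : S.π a ∘ (fun _ : Fin 1 => e) = x := by
        funext i
        have : i = 0 := Fin.fin_one_eq_zero i
        subst this
        exact he
      simp only [Pi.sub_apply]
      rw [← h1, hDdef]
      simp only [Pi.sub_apply]
      rw [h2]
      abel
    obtain ⟨G, hG, hGj⟩ := exists_restrict_eqv (a := coind Q V)
      (a' := ρ) (coindEmb ρ) (fun e v => coindEmb_eqv ρ _ v)
      (coindEmb_injective ρ) _ hΨ' hr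
    refine ⟨G, hG, ?_⟩
    funext x
    apply coindEmb_injective ρ
    have h1 := congrFun (del_coeff 1 (coindEmb ρ) G) x
    have h2 : (fun x => coindEmb ρ (G x)) = (Ψ - fun _ => D 1) := funext hGj
    rw [h2, del_sub, del_const_one, sub_zero, hΨd] at h1
    exact h1.symm
  | succ m ih =>
    obtain ⟨b', h', IH⟩ := ih (fun i hi => hk i (Nat.le_succ_of_le hi)) a
    obtain ⟨b, h, hkill⟩ := hk (m + 1) le_rfl b'
    refine ⟨b, h'.trans h, fun V _ hV ρ f hf hd g hg hfg => ?_⟩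
    have hjf : Eqv (coind Q V) (fun x => coindEmb ρ (f x)) :=
      hf.coeff (coindEmb ρ) (fun e v => coindEmb_eqv ρ _ v)
    have hjd : del (m + 3) (fun x => coindEmb ρ (f x)) = 0 := by
      rw [del_coeff, hd]
      funext x
      exact map_zero _
    obtain ⟨Ψ, hΨ, hΨd⟩ := coind_acyclic _ hjf hjd
    have hD : del (m + 2) ((fun x => Ψ (S.π b ∘ x)) - (fun x => coindEmb ρ (g x))) = 0 := by
      rw [del_sub, del_comp, del_coeff, hΨd, ← hfg]
      simp
    have hDe : Eqv ((coind Q V).comp (S.π b))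
        ((fun x => Ψ (S.π b ∘ x)) - (fun x => coindEmb ρ (g x))) :=
      (hΨ.comp (S.π b)).sub (hg.coeff (coindEmb ρ) (fun e v => coindEmb_eqv ρ _ v))
    set D := (fun x => Ψ (S.π b ∘ x)) - (fun x => coindEmb ρ (g x)) with hDdef
    let ev : (Q → V) →+ V :=
      { toFun := fun φ => φ 1
        map_zero' := rfl
        map_add' := fun _ _ => rfl }
    have hφe : Eqv 1 (fun x => ev (D (S.κ b ∘ x))) := by
      intro n x
      show (D (S.κ b ∘ (lm n ∘ x))) 1 = (D (S.κ b ∘ x)) 1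
      rw [hom_lm, hDe]
      show (D (S.κ b ∘ x)) (1 * S.π b (S.κ b n)) = _
      rw [(S.ex b (S.κ b n)).2 ⟨n, rfl⟩, one_mul]
    have hφd : del (m + 2) (fun x => ev (D (S.κ b ∘ x))) = 0 := by
      have h1 := del_coeff (m + 2) ev (fun x => D (S.κ b ∘ x))
      rw [del_comp, hD] at h1
      exact h1
    obtain ⟨G₀, hG₀, hG₀d⟩ := hkill V hV _ hφe hφd
    have hπ' : (S.π b).comp (S.tE h) = S.π b' := by
      ext x
      exact S.tπ h x
    have hπ'' : ∀ {l : ℕ} (x : Fin l → S.E b'), S.π b ∘ (S.tE h ∘ x) = S.π b' ∘ x := by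
      intro l x
      funext i
      exact S.tπ h (x i)
    have hDr : Eqv ((coind Q V).comp (S.π b')) (fun x => D (S.tE h ∘ x)) := by
      have := hDe.comp (S.tE h)
      rw [MonoidHom.comp_assoc, hπ'] at this
      exact this
    have hDrd : del (m + 2) (fun x => D (S.tE h ∘ x)) = 0 := by
      rw [del_comp, hD]
      rfl
    obtain ⟨Θ, hΘ, hΘd⟩ := coind_coboundary (V := V) (S.κ b') (S.π b') (S.inj b') (S.ex b')
      (S.surj b') _ hDr hDrd G₀ hG₀ (by
        rw [hG₀d]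
        funext x
        show (D (S.κ b ∘ (S.tN h ∘ x))) 1 = (D (S.tE h ∘ (S.κ b' ∘ x))) 1
        have : S.κ b ∘ (S.tN h ∘ x) = S.tE h ∘ (S.κ b' ∘ x) := by
          funext i
          exact S.comm h (x i)
        rw [this])
    have hq : Eqv (quoAct ρ) (fun x => quoMk ρ (Ψ x)) :=
      hΨ.coeff (quoMk ρ) (fun e v => quoMk_eqv ρ _ v)
    have hqd : del (m + 2) (fun x => quoMk ρ (Ψ x)) = 0 := by
      rw [del_coeff, hΨd]
      funext x
      exact quoMk_emb ρ _
    obtain ⟨tb, htb, htbd⟩ := IH (Quo ρ) (quo_torsion p hV ρ) (quoAct ρ) _ hq hqd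
      (fun x => quoMk ρ (Θ x)) (hΘ.coeff (quoMk ρ) (fun e v => quoMk_eqv ρ _ v)) (by
        rw [del_coeff, hΘd]
        funext x
        show quoMk ρ (Ψ (S.π b' ∘ x)) = quoMk ρ (D (S.tE h ∘ x))
        rw [hDdef]
        simp only [Pi.sub_apply, map_sub]
        rw [quoMk_emb, sub_zero, hπ''])
    obtain ⟨θ, hθ, hθq⟩ := exists_lift_eqv (quoMk ρ) (fun e v => quoMk_eqv ρ e v)
      (quoMk_surjective ρ) tb htb
    have hr : ∀ x, ∃ v, coindEmb ρ v = (Ψ - del (m + 1) θ) x := by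
      intro x
      rw [← quoMk_eq_zero]
      simp only [Pi.sub_apply, map_sub]
      have h1 := congrFun (del_coeff (m + 1) (quoMk ρ) θ) x
      have h2 : (fun x => quoMk ρ (θ x)) = tb := funext hθq
      rw [h2, htbd] at h1
      rw [← h1, sub_self]
    obtain ⟨G, hG, hGj⟩ := exists_restrict_eqv (a := coind Q V)
      (a' := ρ) (coindEmb ρ) (fun e v => coindEmb_eqv ρ _ v)
      (coindEmb_injective ρ) _ (hΨ.sub hθ.del) hr
    refine ⟨G, hG, ?_⟩
    funext x
    apply coindEmb_injective ρ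
    have h1 := congrFun (del_coeff (m + 2) (coindEmb ρ) G) x
    have h2 : (fun x => coindEmb ρ (G x)) = (Ψ - del (m + 1) θ) := funext hGj
    rw [h2, del_sub, del_del, sub_zero, hΨd] at h1
    exact h1.symm

end

end Pool.Agent.H68.Ce
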